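import Mathlib

set_option autoImplicit false

namespace Pool.Agent.Helper2.GR

open MonoidAlgebra

variable {G : Type} [CommGroup G]

/-- The inversion automorphism of the group ring. -/
noncomputable def iv (k : Type) [CommRing k] : MonoidAlgebra k G →+* MonoidAlgebra k G :=
  mapDomainRingHom k (invMonoidHom : G →* G)

theorem coeff_iv {k : Type} [CommRing k] (x : MonoidAlgebra k G) (g : G) :
    (iv k x).coeff g = x.coeff g⁻¹ := by
  classical
  induction x using MonoidAlgebra.induction_linear with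
  | zero => simp
  | add x y hx hy => simp [map_add, hx, hy]
  | single m r =>
    simp only [iv, mapDomainRingHom_apply, mapDomain_single, coeff_single]
    rw [Finsupp.single_apply, Finsupp.single_apply]
    simp [inv_eq_iff_eq_inv]

theorem coeff_conv {k : Type} [CommRing k] [Fintype G] (x y : MonoidAlgebra k G) (g : G) :
    (x * y).coeff g = ∑ a : G, x.coeff a * y.coeff (a⁻¹ * g) := by
  rw [coeff_mul_apply_left, Finsupp.sum_fintype]
  simp

/-- The element of the group ring with given coefficients. -/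
noncomputable def ofFun {k : Type} [CommRing k] [Fintype G] (f : G → k) : MonoidAlgebra k G :=
  MonoidAlgebra.ofCoeff (Finsupp.equivFunOnFinite.symm f)

omit [CommGroup G] in
@[simp] theorem coeff_ofFun {k : Type} [CommRing k] [Fintype G] (f : G → k) (g : G) :
    (ofFun f).coeff g = f g := rfl

theorem charP_ring (r : ℕ) [Fact r.Prime] : CharP (MonoidAlgebra (ZMod r) G) r :=
  charP_of_injective_ringHom (f := (singleOneRingHom : ZMod r →+* MonoidAlgebra (ZMod r) G))
    (single_right_injective) r

theorem frob (r : ℕ) [hr : Fact r.Prime] (f : ℕ) (x : MonoidAlgebra (ZMod r) G) :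
    x ^ (r ^ f) = mapDomainRingHom (ZMod r) (powMonoidHom (r ^ f) : G →* G) x := by
  have := charP_ring (G := G) r
  have h : iterateFrobenius (MonoidAlgebra (ZMod r) G) r f =
      mapDomainRingHom (ZMod r) (powMonoidHom (r ^ f) : G →* G) := by
    apply ringHom_ext
    · intro c
      simp [iterateFrobenius_def, single_pow, ZMod.pow_card_pow]
    · intro m
      simp [iterateFrobenius_def, single_pow]
  rw [← h]
  rfl

/-- If `r ^ f` acts as inversion then `x * x⁻ = 0` forces `x = 0` in characteristic `r`. -/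
theorem selfconj (r : ℕ) [hr : Fact r.Prime] (f : ℕ) (hf : 1 ≤ f)
    (hG : ∀ g : G, g ^ (r ^ f) = g⁻¹) (x : MonoidAlgebra (ZMod r) G)
    (hx : x * iv (ZMod r) x = 0) : x = 0 := by
  have h1 : (powMonoidHom (r ^ f) : G →* G) = invMonoidHom := by
    ext g; simpa using hG g
  have h2 : x ^ (r ^ f) = iv (ZMod r) x := by
    rw [frob, h1]; rfl
  have h3 : x ^ (r ^ (f + f)) = x := by
    rw [frob]
    have h4 : (powMonoidHom (r ^ (f + f)) : G →* G) = MonoidHom.id G := by
      ext g
      simp only [powMonoidHom_apply, MonoidHom.id_apply]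
      rw [pow_add, pow_mul, hG, hG, inv_inv]
    rw [h4, mapDomainRingHom_id]
    rfl
  have h5 : x ^ (1 + r ^ f) = 0 := by
    rw [pow_add, pow_one, h2, hx]
  have h6 : 1 + r ^ f ≤ r ^ (f + f) := by
    have hr2 : 2 ≤ r := hr.out.two_le
    have h7 : 2 ≤ r ^ f := by
      calc 2 ≤ r := hr2
        _ = r ^ 1 := (pow_one r).symm
        _ ≤ r ^ f := Nat.pow_le_pow_right (by omega) hf
    rw [pow_add]
    nlinarith
  rw [← h3, ← Nat.sub_add_cancel h6, pow_add, h5, mul_zero]

/-- Integral version: if `r` divides `x * x⁻` then `r` divides `x`. -/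
theorem selfconj_int (r : ℕ) [hr : Fact r.Prime] (f : ℕ) (hf : 1 ≤ f)
    (hG : ∀ g : G, g ^ (r ^ f) = g⁻¹) (x z : MonoidAlgebra ℤ G)
    (hx : x * iv ℤ x = (r : ℤ) • z) : ∃ y : MonoidAlgebra ℤ G, x = (r : ℤ) • y := by
  let φ := mapRingHom G (Int.castRingHom (ZMod r))
  have hcomm : φ (iv ℤ x) = iv (ZMod r) (φ x) := by
    ext g
    simp [φ, coeff_iv]
  have h0 : φ x * iv (ZMod r) (φ x) = 0 := by
    rw [← hcomm, ← map_mul, hx]
    ext g
    simp only [φ, coeff_mapRingHom, coeff_smul, Finsupp.smul_apply, smul_eq_mul, eq_intCast,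
      Int.cast_mul, Int.cast_natCast, CharP.cast_eq_zero, zero_mul, coeff_zero, Finsupp.coe_zero,
      Pi.zero_apply]
  have h1 := selfconj r f hf hG _ h0
  have h2 : ∀ g, (r : ℤ) ∣ x.coeff g := by
    intro g
    have h3 : (φ x).coeff g = 0 := by rw [h1]; simp
    simp only [φ, coeff_mapRingHom, eq_intCast] at h3
    exact (ZMod.intCast_zmod_eq_zero_iff_dvd _ _).mp h3
  refine ⟨MonoidAlgebra.ofCoeff (x.coeff.mapRange (fun a => a / (r : ℤ)) (by simp)), ?_⟩
  ext g
  have h4 := Int.mul_ediv_cancel' (h2 g)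
  simp only [coeff_smul, Finsupp.smul_apply, smul_eq_mul]
  exact h4.symm

end Pool.Agent.Helper2.GR
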