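import Mathlib
import Pool.Agent.Helper2.GroupRing

set_option autoImplicit false

namespace Pool.Agent.Helper2.GR

open MonoidAlgebra

/-- the abstract difference set data -/
structure Data (G : Type) [CommGroup G] (I : Type) where
  s : ℕ
  v : ℕ
  hs : 3 ≤ s
  hv : v + s = s ^ 2 + 1
  cardG : Nat.card G = v ^ 2
  cardI : Nat.card I = 2 * s
  U : I → Subgroup G
  cardU : ∀ i, Nat.card (U i) = v
  disj : ∀ i j, i ≠ j → U i ⊓ U j = ⊥
  D : Set G
  hD0 : ∀ t : G, t ≠ 1 → (∃ i, t ∈ U i) → ∀ a, a ∈ D → t * a ∉ D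
  hD1 : ∀ t : G, t ≠ 1 → (¬ ∃ i, t ∈ U i) → ∃! a, a ∈ D ∧ t * a ∈ D

set_option linter.unusedSectionVars false

variable {G : Type} [CommGroup G] [Fintype G] {I : Type} [Fintype I] (X : Data G I)

open Classical in
/-- indicator of a set in the group ring -/
noncomputable def ind (A : Set G) : MonoidAlgebra ℤ G := ofFun (fun g => if g ∈ A then (1 : ℤ) else 0)

open Classical in
theorem coeff_ind (A : Set G) (g : G) : (ind A).coeff g = if g ∈ A then (1 : ℤ) else 0 := rfl

/-- the sum of all group elements -/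
noncomputable def TT (G : Type) [CommGroup G] [Fintype G] : MonoidAlgebra ℤ G := ofFun (fun _ => 1)

theorem coeff_TT (g : G) : (TT G).coeff g = 1 := rfl

/-- the sum of the subgroups -/
noncomputable def Data.S : MonoidAlgebra ℤ G := ∑ i, ind (X.U i : Set G)

theorem coeff_natCast_mul (n : ℕ) (x : MonoidAlgebra ℤ G) (g : G) :
    ((n : MonoidAlgebra ℤ G) * x).coeff g = n * x.coeff g := by
  rw [← nsmul_eq_mul, coeff_smul, Finsupp.smul_apply, nsmul_eq_mul]

theorem coeff_mul_TT (x : MonoidAlgebra ℤ G) (g : G) : (x * TT G).coeff g = ∑ a, x.coeff a := by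
  rw [coeff_conv]
  simp only [coeff_TT, mul_one]

theorem mul_TT (x : MonoidAlgebra ℤ G) (n : ℤ) (h : ∑ a, x.coeff a = n) :
    x * TT G = (n : MonoidAlgebra ℤ G) * TT G := by
  ext g
  rw [coeff_mul_TT, h, ← zsmul_eq_mul, coeff_smul, Finsupp.smul_apply, coeff_TT, smul_eq_mul,
    mul_one]

omit [Fintype I] in
theorem Data.v_ge : 7 ≤ X.v := by
  have h1 := X.hs
  have h2 := X.hv
  nlinarith

theorem sum_ind (A : Set G) : ∑ a, (ind A).coeff a = (Nat.card A : ℤ) := by
  classical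
  simp only [coeff_ind]
  rw [Finset.sum_ite]
  simp only [Finset.sum_const_zero, add_zero, Finset.sum_const, nsmul_eq_mul, mul_one]
  rw [Nat.card_eq_fintype_card, Fintype.card_subtype]

theorem iv_ind (A : Set G) : iv ℤ (ind A) = ind {g | g⁻¹ ∈ A} := by
  ext g
  rw [coeff_iv, coeff_ind, coeff_ind]
  rfl

theorem iv_TT : iv ℤ (TT G) = TT G := by
  ext g
  rw [coeff_iv, coeff_TT, coeff_TT]

theorem iv_S : iv ℤ X.S = X.S := by
  rw [Data.S, map_sum]
  apply Finset.sum_congr rfl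
  intro i _
  rw [iv_ind]
  congr 1
  ext g
  simp

omit [Fintype I] in
theorem UU_self (i : I) : ind (X.U i : Set G) * ind (X.U i : Set G)
    = (X.v : MonoidAlgebra ℤ G) * ind (X.U i : Set G) := by
  classical
  ext g
  rw [coeff_conv, coeff_natCast_mul]
  simp only [coeff_ind]
  by_cases hg : g ∈ X.U i
  · have h1 : ∀ a : G, (if a ∈ (X.U i : Set G) then (1 : ℤ) else 0) *
        (if a⁻¹ * g ∈ (X.U i : Set G) then (1 : ℤ) else 0)
        = (if a ∈ (X.U i : Set G) then (1 : ℤ) else 0) := by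
      intro a
      by_cases ha : a ∈ X.U i
      · have : a⁻¹ * g ∈ X.U i := (X.U i).mul_mem ((X.U i).inv_mem ha) hg
        simp [ha, this]
      · simp [ha]
    simp only [h1]
    have h2 := sum_ind (X.U i : Set G)
    simp only [coeff_ind] at h2
    rw [h2]
    have h3 : Nat.card ((X.U i : Set G)) = X.v := X.cardU i
    rw [h3]
    simp [hg]
  · have h1 : ∀ a : G, (if a ∈ (X.U i : Set G) then (1 : ℤ) else 0) *
        (if a⁻¹ * g ∈ (X.U i : Set G) then (1 : ℤ) else 0) = 0 := by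
      intro a
      by_cases ha : a ∈ X.U i
      · have : a⁻¹ * g ∉ X.U i := by
          intro h
          apply hg
          have := (X.U i).mul_mem ha h
          simpa using this
        simp [this]
      · simp [ha]
    simp only [h1]
    simp [hg]

omit [Fintype G] [Fintype I] in
theorem factor [Finite G] (i j : I) (hij : i ≠ j) (g : G) :
    ∃ a ∈ X.U i, ∃ b ∈ X.U j, a * b = g := by
  have hd : Disjoint (X.U i) (X.U j) := disjoint_iff.mpr (X.disj i j hij)
  have hc := Subgroup.isComplement'_of_card_mul_and_disjoint (H := X.U i) (K := X.U j)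
    (by rw [X.cardU, X.cardU, X.cardG]; ring) hd
  obtain ⟨⟨a, b⟩, hab⟩ := hc.2 g
  exact ⟨a, a.2, b, b.2, hab⟩

omit [Fintype I] in
theorem UU_ne (i j : I) (hij : i ≠ j) : ind (X.U i : Set G) * ind (X.U j : Set G) = TT G := by
  classical
  ext g
  rw [coeff_conv, coeff_TT]
  simp only [coeff_ind]
  obtain ⟨a, ha, b, hb, hab⟩ := factor X i j hij g
  have h1 : ∀ x : G, (if x ∈ (X.U i : Set G) then (1 : ℤ) else 0) *
        (if x⁻¹ * g ∈ (X.U j : Set G) then (1 : ℤ) else 0)
        = (if x = a then (1 : ℤ) else 0) := by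
    intro x
    by_cases hxa : x = a
    · subst hxa
      have : x⁻¹ * g ∈ X.U j := by rw [← hab]; simpa using hb
      simp [ha, this]
    · rw [if_neg hxa]
      by_cases hx : x ∈ X.U i
      · have : x⁻¹ * g ∉ X.U j := by
          intro h
          apply hxa
          have h2 : a⁻¹ * x ∈ X.U i := (X.U i).mul_mem ((X.U i).inv_mem ha) hx
          have h3 : a⁻¹ * x ∈ X.U j := by
            have h4 : a⁻¹ * x = b * (x⁻¹ * g)⁻¹ := by
              rw [← hab]
              simp only [mul_inv_rev, inv_inv, mul_assoc, mul_inv_cancel_left]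
            rw [h4]
            exact (X.U j).mul_mem hb ((X.U j).inv_mem h)
          have h5 : a⁻¹ * x ∈ X.U i ⊓ X.U j := ⟨h2, h3⟩
          rw [X.disj i j hij, Subgroup.mem_bot] at h5
          exact (inv_mul_eq_one.mp h5).symm
        simp [this]
      · simp [hx]
  simp only [h1]
  simp

theorem cardI' : Fintype.card I = 2 * X.s := by
  rw [← Nat.card_eq_fintype_card, X.cardI]

theorem U_S (i : I) : ind (X.U i : Set G) * X.S = (X.v : MonoidAlgebra ℤ G) * ind (X.U i : Set G)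
    + (2 * (X.s : MonoidAlgebra ℤ G) - 1) * TT G := by
  classical
  rw [Data.S, Finset.mul_sum, ← Finset.add_sum_erase _ _ (Finset.mem_univ i), UU_self]
  congr 1
  rw [Finset.sum_congr rfl (fun j hj => UU_ne X i j (Finset.ne_of_mem_erase hj).symm),
    Finset.sum_const, Finset.card_erase_of_mem (Finset.mem_univ i), Finset.card_univ, cardI' X,
    nsmul_eq_mul, Nat.cast_sub (by have := X.hs; omega)]
  push_cast
  ring

theorem S_S : X.S * X.S = (X.v : MonoidAlgebra ℤ G) * X.S
    + 2 * (X.s : MonoidAlgebra ℤ G) * (2 * (X.s : MonoidAlgebra ℤ G) - 1) * TT G := by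
  conv_lhs => rw [show X.S * X.S = (∑ i, ind (X.U i : Set G)) * X.S from rfl]
  rw [Finset.sum_mul, Finset.sum_congr rfl (fun i _ => U_S X i), Finset.sum_add_distrib,
    ← Finset.mul_sum, Finset.sum_const, Finset.card_univ, cardI' X, nsmul_eq_mul]
  push_cast
  rw [show X.S = ∑ i, ind (X.U i : Set G) from rfl]
  ring

omit [Fintype I] in
theorem U_T (i : I) : ind (X.U i : Set G) * TT G = (X.v : MonoidAlgebra ℤ G) * TT G := by
  have h : Nat.card ((X.U i : Set G)) = X.v := X.cardU i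
  rw [mul_TT _ (X.v : ℤ) (by rw [sum_ind, h])]
  simp

theorem S_T : X.S * TT G = 2 * (X.s : MonoidAlgebra ℤ G) * (X.v : MonoidAlgebra ℤ G) * TT G := by
  rw [show X.S = ∑ i, ind (X.U i : Set G) from rfl, Finset.sum_mul,
    Finset.sum_congr rfl (fun i _ => U_T X i), Finset.sum_const, Finset.card_univ, cardI' X,
    nsmul_eq_mul]
  push_cast
  ring

omit [Fintype I] in
theorem T_T : TT G * TT G = (X.v : MonoidAlgebra ℤ G) ^ 2 * TT G := by
  rw [mul_TT (TT G) ((X.v : ℤ) ^ 2)]
  · simp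
  · simp only [coeff_TT]
    have := X.cardG
    rw [Nat.card_eq_fintype_card] at this
    simp [this]

theorem coeff_sum' {ι : Type} (t : Finset ι) (f : ι → MonoidAlgebra ℤ G) (g : G) :
    (∑ i ∈ t, f i).coeff g = ∑ i ∈ t, (f i).coeff g := by
  rw [MonoidAlgebra.coeff_sum, Finsupp.finsetSum_apply]

theorem coeff_S_one : X.S.coeff 1 = 2 * X.s := by
  rw [Data.S, coeff_sum']
  simp only [coeff_ind, SetLike.mem_coe, one_mem, if_true]
  rw [Finset.sum_const, Finset.card_univ, cardI' X]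
  simp

theorem coeff_S_of_mem (t : G) (ht : t ≠ 1) (h : ∃ i, t ∈ X.U i) : X.S.coeff t = 1 := by
  classical
  obtain ⟨i, hi⟩ := h
  rw [Data.S, coeff_sum', Finset.sum_eq_single i]
  · simp [coeff_ind, hi]
  · intro j _ hji
    rw [coeff_ind]
    rw [if_neg]
    intro hj
    apply ht
    have : t ∈ X.U j ⊓ X.U i := ⟨hj, hi⟩
    rw [X.disj j i hji] at this
    exact Subgroup.mem_bot.mp this
  · intro h
    exact absurd (Finset.mem_univ i) h

theorem coeff_S_of_not_mem (t : G) (h : ¬ ∃ i, t ∈ X.U i) : X.S.coeff t = 0 := by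
  push Not at h
  rw [Data.S, coeff_sum']
  apply Finset.sum_eq_zero
  intro i _
  rw [coeff_ind]
  exact if_neg (h i)

open Classical in
theorem coeff_DD (t : G) : (ind X.D * iv ℤ (ind X.D)).coeff t
    = ∑ a, (if a ∈ X.D ∧ t⁻¹ * a ∈ X.D then (1 : ℤ) else 0) := by
  rw [coeff_conv]
  apply Finset.sum_congr rfl
  intro a _
  rw [coeff_iv, coeff_ind, coeff_ind]
  have h : (a⁻¹ * t)⁻¹ = t⁻¹ * a := by simp
  rw [h]
  by_cases h1 : a ∈ X.D <;> by_cases h2 : t⁻¹ * a ∈ X.D <;> simp [h1, h2]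

/-- size of the difference set, as an integer -/
noncomputable def Data.K : ℤ := (Nat.card X.D : ℤ)

theorem DD_K : ind X.D * iv ℤ (ind X.D)
    = ((X.K - 1 + 2 * X.s : ℤ) : MonoidAlgebra ℤ G) + TT G - X.S := by
  classical
  ext t
  rw [coeff_DD]
  have hc : (((X.K - 1 + 2 * X.s : ℤ) : MonoidAlgebra ℤ G) + TT G - X.S).coeff t
      = (if t = 1 then (X.K - 1 + 2 * X.s : ℤ) else 0) + 1 - X.S.coeff t := by
    rw [sub_eq_add_neg, coeff_add, coeff_add, coeff_neg]
    simp only [Finsupp.add_apply, Finsupp.neg_apply, coeff_TT]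
    congr 2
    rw [← zsmul_one, coeff_smul, Finsupp.smul_apply, one_def, coeff_single, Finsupp.single_apply]
    by_cases h : t = 1
    · simp [h]
    · simp [h, Ne.symm h]
  rw [hc]
  by_cases ht : t = 1
  · subst ht
    rw [coeff_S_one]
    have h1 := sum_ind X.D
    simp only [coeff_ind] at h1
    simp only [inv_one, one_mul, and_self, if_true]
    rw [h1]
    simp only [Data.K]
    ring
  · rw [if_neg ht]
    have ht' : t⁻¹ ≠ 1 := by simpa using ht
    by_cases hU : ∃ i, t ∈ X.U i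
    · rw [coeff_S_of_mem X t ht hU]
      have hU' : ∃ i, t⁻¹ ∈ X.U i := by
        obtain ⟨i, hi⟩ := hU
        exact ⟨i, (X.U i).inv_mem hi⟩
      have := X.hD0 t⁻¹ ht' hU'
      simp only [zero_add, sub_self]
      apply Finset.sum_eq_zero
      intro a _
      rw [if_neg]
      rintro ⟨h1, h2⟩
      exact this a h1 h2
    · rw [coeff_S_of_not_mem X t hU]
      have hU' : ¬ ∃ i, t⁻¹ ∈ X.U i := by
        rintro ⟨i, hi⟩
        exact hU ⟨i, by simpa using (X.U i).inv_mem hi⟩
      obtain ⟨a, ha, huniq⟩ := X.hD1 t⁻¹ ht' hU'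
      rw [Finset.sum_eq_single a]
      · simp [ha]
      · intro b _ hb
        rw [if_neg]
        intro h
        exact hb (huniq b h)
      · intro h
        exact absurd (Finset.mem_univ a) h

theorem D_T : ind X.D * TT G = ((X.K : ℤ) : MonoidAlgebra ℤ G) * TT G :=
  mul_TT _ _ (sum_ind X.D)

theorem ivD_T : iv ℤ (ind X.D) * TT G = ((X.K : ℤ) : MonoidAlgebra ℤ G) * TT G := by
  have h := congrArg (iv ℤ) (D_T X)
  rw [map_mul, map_mul, iv_TT, map_intCast] at h
  exact h

theorem hvZ : (X.v : ℤ) = (X.s : ℤ) ^ 2 - X.s + 1 := by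
  have := X.hv
  have h : ((X.v + X.s : ℕ) : ℤ) = ((X.s ^ 2 + 1 : ℕ) : ℤ) := by rw [this]
  push_cast at h
  linarith

theorem K_eq : X.K = ((X.s : ℤ) - 1) ^ 2 := by
  have h1 : ((ind X.D * iv ℤ (ind X.D)) * TT G).coeff 1
      = (((((X.K - 1 + 2 * X.s : ℤ) : MonoidAlgebra ℤ G) + TT G - X.S)) * TT G).coeff 1 := by
    rw [DD_K]
  have h2 : (ind X.D * iv ℤ (ind X.D)) * TT G = ((X.K ^ 2 : ℤ) : MonoidAlgebra ℤ G) * TT G := by
    rw [mul_assoc, ivD_T, ← mul_assoc, mul_comm (ind X.D), mul_assoc, D_T]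
    push_cast
    ring
  have h3 : ((((X.K - 1 + 2 * X.s : ℤ) : MonoidAlgebra ℤ G) + TT G - X.S)) * TT G
      = ((X.K - 1 + 2 * X.s + X.v ^ 2 - 2 * X.s * X.v : ℤ) : MonoidAlgebra ℤ G) * TT G := by
    rw [sub_mul, add_mul, T_T X, S_T X]
    push_cast
    ring
  rw [h2, h3, ← zsmul_eq_mul, ← zsmul_eq_mul] at h1
  simp only [coeff_smul, Finsupp.smul_apply, coeff_TT, smul_eq_mul, mul_one] at h1
  rw [hvZ] at h1
  have hs : (3 : ℤ) ≤ X.s := by exact_mod_cast X.hs
  have hK : 0 ≤ X.K := by unfold Data.K; positivity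
  have h4 : (X.K - ((X.s : ℤ) - 1) ^ 2) * (X.K + ((X.s : ℤ) - 1) ^ 2 - 1) = 0 := by
    linear_combination h1
  rcases mul_eq_zero.mp h4 with h | h
  · linarith
  · nlinarith

theorem DD : ind X.D * iv ℤ (ind X.D) = (X.s : MonoidAlgebra ℤ G) ^ 2 + TT G - X.S := by
  rw [DD_K, K_eq]
  push_cast
  ring

end Pool.Agent.Helper2.GR
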