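import Mathlib
import Pool.Agent.Helper2.Diff

set_option autoImplicit false

namespace Pool.Agent.Helper2.GR

open MonoidAlgebra

set_option linter.unusedSectionVars false

variable {G : Type} [CommGroup G] [Fintype G] {I : Type} [Fintype I] (X : Data G I)

/-- the projector (up to scale) onto the characters nontrivial on all subgroups -/
noncomputable def Data.Pi : MonoidAlgebra ℤ G :=
  (X.v : MonoidAlgebra ℤ G) ^ 2 - (X.v : MonoidAlgebra ℤ G) * X.S
    + (2 * (X.s : MonoidAlgebra ℤ G) - 1) * TT G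

noncomputable def Data.Y : MonoidAlgebra ℤ G := ind X.D * X.Pi

theorem iv_Pi : iv ℤ X.Pi = X.Pi := by
  simp only [Data.Pi, map_add, map_sub, map_mul, map_pow, map_natCast, iv_S, iv_TT, map_ofNat,
    map_one]

theorem Pi_Pi : X.Pi * X.Pi = (X.v : MonoidAlgebra ℤ G) ^ 2 * X.Pi := by
  simp only [Data.Pi]
  linear_combination (X.v : MonoidAlgebra ℤ G) ^ 2 * S_S X
    - 2 * (X.v : MonoidAlgebra ℤ G) * (2 * (X.s : MonoidAlgebra ℤ G) - 1) * S_T X
    + (2 * (X.s : MonoidAlgebra ℤ G) - 1) ^ 2 * T_T X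

theorem TS_Pi : (TT G - X.S) * X.Pi = 0 := by
  simp only [Data.Pi]
  linear_combination (X.v : MonoidAlgebra ℤ G) * S_S X
    - ((X.v : MonoidAlgebra ℤ G) + (2 * (X.s : MonoidAlgebra ℤ G) - 1)) * S_T X
    + (2 * (X.s : MonoidAlgebra ℤ G) - 1) * T_T X

theorem Y_Y : X.Y * iv ℤ X.Y = (X.s : MonoidAlgebra ℤ G) ^ 2 * (X.v : MonoidAlgebra ℤ G) ^ 2 * X.Pi := by
  rw [Data.Y, map_mul, iv_Pi]
  linear_combination X.Pi * X.Pi * DD X + (X.s : MonoidAlgebra ℤ G) ^ 2 * Pi_Pi X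
    + X.Pi * TS_Pi X

/-- the counting function -/
noncomputable def Data.N (g : G) : ℤ := (ind X.D * X.S).coeff g

theorem Y_eq : X.Y = (X.v : MonoidAlgebra ℤ G) ^ 2 * ind X.D
    - (X.v : MonoidAlgebra ℤ G) * (ind X.D * X.S)
    + ((2 * X.s - 1) * X.K : ℤ) * TT G := by
  rw [Data.Y, Data.Pi]
  push_cast
  linear_combination (2 * (X.s : MonoidAlgebra ℤ G) - 1) * D_T X

theorem coeff_Y (g : G) : X.Y.coeff g = (X.v : ℤ) ^ 2 * (ind X.D).coeff g - X.v * X.N g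
    + (2 * X.s - 1) * X.K := by
  rw [Y_eq, coeff_add, sub_eq_add_neg, coeff_add, coeff_neg]
  simp only [Finsupp.add_apply, Finsupp.neg_apply]
  rw [← zsmul_eq_mul, coeff_smul, Finsupp.smul_apply, coeff_TT, coeff_natCast_mul,
    show ((X.v : MonoidAlgebra ℤ G) ^ 2) = ((X.v ^ 2 : ℕ) : MonoidAlgebra ℤ G) by push_cast; rfl,
    coeff_natCast_mul]
  simp only [smul_eq_mul, mul_one, Data.N]
  push_cast
  ring

open Classical in
theorem coeff_DU (i : I) (g : G) : (ind X.D * ind (X.U i : Set G)).coeff g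
    = ∑ a, (if a ∈ X.D ∧ a⁻¹ * g ∈ X.U i then (1 : ℤ) else 0) := by
  rw [coeff_conv]
  apply Finset.sum_congr rfl
  intro a _
  rw [coeff_ind, coeff_ind]
  by_cases h1 : a ∈ X.D <;> by_cases h2 : a⁻¹ * g ∈ X.U i <;> simp [h1, h2]

theorem coeff_DU_of_mem (i : I) (g : G) (hg : g ∈ X.D) :
    (ind X.D * ind (X.U i : Set G)).coeff g = 1 := by
  classical
  rw [coeff_DU, Finset.sum_eq_single g]
  · simp [hg, one_mem]
  · intro a _ hag
    rw [if_neg]
    rintro ⟨h1, h2⟩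
    have h3 : a⁻¹ * g ≠ 1 := fun h => hag (inv_mul_eq_one.mp h)
    apply X.hD0 _ h3 ⟨i, h2⟩ a h1
    rw [mul_comm, mul_inv_cancel_left]
    exact hg
  · intro h
    exact absurd (Finset.mem_univ g) h

theorem N_of_mem (g : G) (hg : g ∈ X.D) : X.N g = 2 * X.s := by
  rw [Data.N, Data.S, Finset.mul_sum, coeff_sum', Finset.sum_congr rfl
    (fun i _ => coeff_DU_of_mem X i g hg), Finset.sum_const, Finset.card_univ, cardI' X]
  simp

theorem sum_N : ∑ g, X.N g = X.K * (2 * X.s * X.v) := by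
  have h1 : ((ind X.D * X.S) * TT G).coeff 1 = ∑ g, X.N g := coeff_mul_TT _ _
  rw [← h1]
  have h2 : (ind X.D * X.S) * TT G = ((X.K * (2 * X.s * X.v) : ℤ) : MonoidAlgebra ℤ G) * TT G := by
    push_cast
    linear_combination (ind X.D) * S_T X
      + (2 * (X.s : MonoidAlgebra ℤ G) * (X.v : MonoidAlgebra ℤ G)) * D_T X
  rw [h2, ← zsmul_eq_mul, coeff_smul, Finsupp.smul_apply, coeff_TT]
  simp

theorem sum_N_sq : ∑ g, X.N g ^ 2 = (X.s : ℤ) ^ 2 * (X.v * (2 * X.s) + 2 * X.s * (2 * X.s - 1))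
    + (X.v * (2 * X.s * X.v) + 2 * X.s * (2 * X.s - 1) * X.v ^ 2)
    - (X.v * (X.v * (2 * X.s) + 2 * X.s * (2 * X.s - 1))
      + 2 * X.s * (2 * X.s - 1) * (2 * X.s * X.v)) := by
  have h1 : ((ind X.D * X.S) * iv ℤ (ind X.D * X.S)).coeff 1 = ∑ g, X.N g ^ 2 := by
    rw [coeff_conv]
    apply Finset.sum_congr rfl
    intro a _
    rw [coeff_iv]
    simp only [mul_one, inv_inv, Data.N]
    ring
  rw [← h1]
  have h2 : (ind X.D * X.S) * iv ℤ (ind X.D * X.S)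
      = (((X.s : ℤ) ^ 2 * X.v - X.v * X.v : ℤ) : MonoidAlgebra ℤ G) * X.S
        + (((X.s : ℤ) ^ 2 * (2 * X.s * (2 * X.s - 1)) + (X.v * (2 * X.s * X.v)
          + 2 * X.s * (2 * X.s - 1) * X.v ^ 2) - (X.v * (2 * X.s * (2 * X.s - 1))
          + 2 * X.s * (2 * X.s - 1) * (2 * X.s * X.v)) : ℤ) : MonoidAlgebra ℤ G) * TT G := by
    rw [map_mul, iv_S]
    push_cast
    linear_combination X.S * X.S * DD X
      + ((X.s : MonoidAlgebra ℤ G) ^ 2 + TT G - X.S) * S_S X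
      + (2 * (X.s : MonoidAlgebra ℤ G) * (2 * (X.s : MonoidAlgebra ℤ G) - 1)) * T_T X
      + ((X.v : MonoidAlgebra ℤ G) - 2 * (X.s : MonoidAlgebra ℤ G)
        * (2 * (X.s : MonoidAlgebra ℤ G) - 1)) * S_T X
      - (X.v : MonoidAlgebra ℤ G) * S_S X
  rw [h2, coeff_add, Finsupp.add_apply, ← zsmul_eq_mul, ← zsmul_eq_mul, coeff_smul, coeff_smul,
    Finsupp.smul_apply, Finsupp.smul_apply, coeff_TT, coeff_S_one]
  simp only [smul_eq_mul]
  ring

/-- The counting argument. -/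
theorem count (R : ℤ) (hR : 3 ≤ R) (hRs : R ∣ X.s) (Y' : MonoidAlgebra ℤ G)
    (hY : X.Y = R • Y') : False := by
  classical
  have hKs := K_eq X
  have hv := hvZ X
  have hs : (3 : ℤ) ≤ X.s := by exact_mod_cast X.hs
  have key : ∀ g : G, 0 ≤ (2 * X.s - X.N g - 1) * (2 * X.s - X.N g - 4)
      - 4 * (ind X.D).coeff g := by
    intro g
    by_cases hg : g ∈ X.D
    · rw [N_of_mem X g hg, coeff_ind, if_pos hg]
      norm_num
    · rw [coeff_ind, if_neg hg]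
      have h1 := coeff_Y X g
      rw [hY, coeff_smul, Finsupp.smul_apply, coeff_ind, if_neg hg, smul_eq_mul] at h1
      obtain ⟨c, hc⟩ := hRs
      -- X.N g ≡ -1 mod R
      have h2 : R ∣ (2 * X.s - X.N g - 1) := by
        have h3 : 2 * (X.s : ℤ) - X.N g - 1 = R * Y'.coeff g + (X.v - 1) * X.N g
            - (2 * X.s - 1) * (X.K - 1) := by
          rw [h1]; ring
        rw [h3, hv, hKs]
        have h4 : (X.s : ℤ) ∣ ((X.s : ℤ) ^ 2 - X.s + 1 - 1) * X.N g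
            - (2 * X.s - 1) * (((X.s : ℤ) - 1) ^ 2 - 1) :=
          ⟨(X.s - 1) * X.N g - (2 * X.s - 1) * (X.s - 2), by ring⟩
        have h5 : R ∣ (X.s : ℤ) := ⟨c, hc⟩
        have h6 := dvd_add (Dvd.intro (Y'.coeff g) rfl : R ∣ R * Y'.coeff g) (h5.trans h4)
        have h8 : R * Y'.coeff g + ((X.s : ℤ) ^ 2 - X.s + 1 - 1) * X.N g
            - (2 * X.s - 1) * (((X.s : ℤ) - 1) ^ 2 - 1)
            = R * Y'.coeff g + (((X.s : ℤ) ^ 2 - X.s + 1 - 1) * X.N g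
            - (2 * X.s - 1) * (((X.s : ℤ) - 1) ^ 2 - 1)) := by ring
        rw [h8]
        exact h6
      obtain ⟨e, he⟩ := h2
      set x := 2 * (X.s : ℤ) - X.N g with hx
      have h7 : x = R * e + 1 := by linarith
      rw [h7]
      rcases lt_trichotomy e 0 with h | h | h
      · have h9 : R * e ≤ -3 := by nlinarith
        nlinarith
      · subst h; simp
      · have h9 : 3 ≤ R * e := by nlinarith
        nlinarith
  have hsum := Finset.sum_nonneg (s := Finset.univ) (fun g _ => key g)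
  have hexp : ∑ g, ((2 * X.s - X.N g - 1) * (2 * X.s - X.N g - 4) - 4 * (ind X.D).coeff g)
      = ∑ g, X.N g ^ 2 - (4 * X.s - 5) * ∑ g, X.N g
        + (4 * (X.s : ℤ) ^ 2 - 10 * X.s + 4) * X.v ^ 2 - 4 * X.K := by
    have h1 : ∀ g, (2 * X.s - X.N g - 1) * (2 * X.s - X.N g - 4) - 4 * (ind X.D).coeff g
        = X.N g ^ 2 - (4 * X.s - 5) * X.N g + (4 * (X.s : ℤ) ^ 2 - 10 * X.s + 4)
          - 4 * (ind X.D).coeff g := by
      intro g; ring
    rw [Finset.sum_congr rfl (fun g _ => h1 g), Finset.sum_sub_distrib, Finset.sum_add_distrib,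
      Finset.sum_sub_distrib, ← Finset.mul_sum, ← Finset.mul_sum, sum_ind, Finset.sum_const,
      Finset.card_univ]
    have h2 : (Fintype.card G : ℤ) = X.v ^ 2 := by
      have := X.cardG
      rw [Nat.card_eq_fintype_card] at this
      rw [this]; push_cast; ring
    rw [nsmul_eq_mul, h2]
    simp only [Data.K]
    ring
  rw [hexp, sum_N, sum_N_sq, hKs, hv] at hsum
  have h10 : (0 : ℤ) < (X.s : ℤ) ^ 3 := pow_pos (by linarith : (0 : ℤ) < X.s) 3
  ring_nf at hsum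
  linarith

/-- powers acting as inversion -/
def Inv (G : Type) [CommGroup G] (r f : ℕ) : Prop := 1 ≤ f ∧ ∀ g : G, g ^ (r ^ f) = g⁻¹

theorem dvd_Y (r f : ℕ) (hr : r.Prime) (hrs : r ∣ X.s) (hf : Inv G r f) :
    ∃ Y', X.Y = (r : ℤ) • Y' := by
  have := Fact.mk hr
  obtain ⟨c, hc⟩ := hrs
  refine selfconj_int r f hf.1 hf.2 X.Y
    (((r * c ^ 2 : ℕ) : MonoidAlgebra ℤ G) * (X.v : MonoidAlgebra ℤ G) ^ 2 * X.Pi) ?_
  rw [Y_Y, hc, zsmul_eq_mul]
  push_cast
  ring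

theorem odd_contra (r f : ℕ) (hr : r.Prime) (hr3 : 3 ≤ r) (hrs : r ∣ X.s) (hf : Inv G r f) :
    False := by
  obtain ⟨Y', hY⟩ := dvd_Y X r f hr hrs hf
  exact count X r (by exact_mod_cast hr3) (by exact_mod_cast hrs) Y' hY

theorem two_contra (f : ℕ) (h4 : 4 ∣ X.s) (hf : Inv G 2 f) : False := by
  obtain ⟨c, hc⟩ := h4
  obtain ⟨Y', hY⟩ := dvd_Y X 2 f Nat.prime_two ⟨2 * c, by omega⟩ hf
  have := Fact.mk Nat.prime_two
  have h1 : Y' * iv ℤ Y' = ((2 : ℕ) : ℤ) •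
      (((2 * c ^ 2 : ℕ) : MonoidAlgebra ℤ G) * (X.v : MonoidAlgebra ℤ G) ^ 2 * X.Pi) := by
    have h2 := Y_Y X
    rw [hY, hc, zsmul_eq_mul, map_mul, map_intCast] at h2
    have h3 : (4 : ℤ) • (Y' * iv ℤ Y') = (4 : ℤ) • (((2 : ℕ) : ℤ) •
      (((2 * c ^ 2 : ℕ) : MonoidAlgebra ℤ G) * (X.v : MonoidAlgebra ℤ G) ^ 2 * X.Pi)) := by
      rw [zsmul_eq_mul, zsmul_eq_mul, zsmul_eq_mul]
      push_cast at h2 ⊢
      linear_combination h2
    ext g
    have h4 := congrArg (fun x : MonoidAlgebra ℤ G => x.coeff g) h3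
    simp only [coeff_smul, Finsupp.smul_apply, smul_eq_mul] at h4 ⊢
    linarith
  obtain ⟨Y'', hY''⟩ := selfconj_int 2 f hf.1 hf.2 Y' _ h1
  refine count X 4 (by norm_num) ?_ Y'' ?_
  · rw [hc]; push_cast; exact dvd_mul_right _ _
  · rw [hY, hY'', smul_smul]
    norm_num

theorem pred_contra (r f : ℕ) (hr : r.Prime) (hrs : r ∣ X.s - 1) (hf : Inv G r f) : False := by
  have := Fact.mk hr
  have hs := X.hs
  have hI : Nonempty I := by
    rw [← Fintype.card_pos_iff, cardI' X]; omega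
  obtain ⟨i⟩ := hI
  obtain ⟨c, hc⟩ := hrs
  have hsc : (X.s : MonoidAlgebra ℤ G) = r * c + 1 := by
    have : X.s = r * c + 1 := by omega
    rw [this]; push_cast; ring
  have hvR : (X.v : MonoidAlgebra ℤ G) = (X.s : MonoidAlgebra ℤ G) ^ 2 - X.s + 1 := by
    have h := hvZ X
    have h2 := congrArg (Int.cast : ℤ → MonoidAlgebra ℤ G) h
    push_cast at h2
    exact h2
  have hivU : iv ℤ (ind (X.U i : Set G)) = ind (X.U i : Set G) := by
    rw [iv_ind]
    congr 1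
    ext g
    simp
  have h1 : (ind X.D * ind (X.U i : Set G)) * iv ℤ (ind X.D * ind (X.U i : Set G))
      = (r : ℤ) • ((X.v : MonoidAlgebra ℤ G) * (c * ind (X.U i : Set G)
        + c * (r * c - 1) * TT G)) := by
    rw [map_mul, hivU, zsmul_eq_mul]
    have h2 : (X.v : MonoidAlgebra ℤ G) * ((X.s ^ 2 - X.v : MonoidAlgebra ℤ G) * ind (X.U i : Set G)
        + (X.v - 2 * X.s + 1 : MonoidAlgebra ℤ G) * TT G)
        = ((r : ℤ) : MonoidAlgebra ℤ G) * ((X.v : MonoidAlgebra ℤ G) * (c * ind (X.U i : Set G)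
        + c * (r * c - 1) * TT G)) := by
      rw [hvR, hsc]
      push_cast
      ring
    rw [← h2]
    linear_combination ind (X.U i : Set G) * ind (X.U i : Set G) * DD X
      + ((X.s : MonoidAlgebra ℤ G) ^ 2 + TT G - X.S) * UU_self X i
      + (X.v : MonoidAlgebra ℤ G) * U_T X i - (X.v : MonoidAlgebra ℤ G) * U_S X i
  obtain ⟨Z, hZ⟩ := selfconj_int r f hf.1 hf.2 _ _ h1
  have hD : X.D.Nonempty := by
    by_contra h
    rw [Set.not_nonempty_iff_eq_empty] at h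
    have h1 := K_eq X
    rw [Data.K, h] at h1
    simp only [Nat.card_coe_set_eq, Set.ncard_empty] at h1
    have hs' : (3 : ℤ) ≤ X.s := by exact_mod_cast hs
    push_cast at h1
    nlinarith
  obtain ⟨g, hg⟩ := hD
  have h2 := coeff_DU_of_mem X i g hg
  rw [hZ, coeff_smul, Finsupp.smul_apply, smul_eq_mul] at h2
  have h3 : (r : ℤ) ∣ 1 := ⟨_, h2.symm⟩
  have h4 := Int.le_of_dvd (by norm_num) h3
  have h5 := hr.two_le
  omega

end Pool.Agent.Helper2.GR
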