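import Mathlib
import Pool.Agent.Helper2.Count

set_option autoImplicit false

namespace Pool.Agent.Helper2.GR

theorem sq_one {p a : ℕ} (hp : p.Prime) (hp2 : p ≠ 2) (x : ZMod (p ^ a)) (hx : x ^ 2 = 1) :
    x = 1 ∨ x = -1 := by
  obtain ⟨m, rfl⟩ := ZMod.intCast_surjective x
  have h1 : ((p ^ a : ℕ) : ℤ) ∣ (m - 1) * (m + 1) := by
    rw [← ZMod.intCast_zmod_eq_zero_iff_dvd]
    push_cast
    linear_combination hx
  have hpp : Prime (p : ℤ) := Nat.prime_iff_prime_int.mp hp
  push_cast at h1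
  by_cases h2 : (p : ℤ) ∣ m - 1
  · have h3 : ¬ (p : ℤ) ∣ m + 1 := by
      intro h3
      have h4 : (p : ℤ) ∣ 2 := by
        have := dvd_sub h3 h2
        ring_nf at this
        exact this
      have h5 : p ∣ 2 := by exact_mod_cast h4
      exact hp2 ((Nat.prime_dvd_prime_iff_eq hp Nat.prime_two).mp h5)
    have h4 : IsCoprime ((p : ℤ) ^ a) (m + 1) :=
      ((hpp.irreducible.coprime_iff_not_dvd).mpr h3).pow_left
    left
    have h5 := h4.dvd_of_dvd_mul_right h1
    have h6 : ((m - 1 : ℤ) : ZMod (p ^ a)) = 0 := by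
      rw [ZMod.intCast_zmod_eq_zero_iff_dvd]
      push_cast
      exact h5
    push_cast at h6
    linear_combination h6
  · have h4 : IsCoprime ((p : ℤ) ^ a) (m - 1) :=
      ((hpp.irreducible.coprime_iff_not_dvd).mpr h2).pow_left
    right
    have h5 := h4.dvd_of_dvd_mul_left h1
    have h6 : ((m + 1 : ℤ) : ZMod (p ^ a)) = 0 := by
      rw [ZMod.intCast_zmod_eq_zero_iff_dvd]
      push_cast
      exact h5
    push_cast at h6
    linear_combination h6

theorem odd_or_neg {p a : ℕ} (hp : p.Prime) (hp2 : p ≠ 2) (n : ℕ) (hn : Nat.Coprime n (p ^ a)) :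
    (∃ j, Odd j ∧ (n : ZMod (p ^ a)) ^ j = 1) ∨ (∃ f, 1 ≤ f ∧ (n : ZMod (p ^ a)) ^ f = -1) := by
  have : NeZero (p ^ a) := ⟨pow_ne_zero _ hp.ne_zero⟩
  set u : (ZMod (p ^ a))ˣ := ZMod.unitOfCoprime n hn with hu
  have hun : (u : ZMod (p ^ a)) = n := ZMod.coe_unitOfCoprime n hn
  have hpos : 0 < orderOf u := orderOf_pos u
  rcases Nat.even_or_odd (orderOf u) with he | ho
  · right
    obtain ⟨f, hf⟩ := he
    refine ⟨f, by omega, ?_⟩
    have h1 : ((n : ZMod (p ^ a)) ^ f) ^ 2 = 1 := by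
      rw [← hun, ← Units.val_pow_eq_pow_val, ← Units.val_pow_eq_pow_val, ← pow_mul,
        show f * 2 = orderOf u by omega, pow_orderOf_eq_one, Units.val_one]
    rcases sq_one hp hp2 _ h1 with h2 | h2
    · exfalso
      have h3 : u ^ f = 1 := by
        apply Units.ext
        rw [Units.val_pow_eq_pow_val, hun, h2, Units.val_one]
      have h4 := orderOf_dvd_of_pow_eq_one h3
      have h5 := Nat.le_of_dvd (by omega) h4
      omega
    · exact h2
  · left
    refine ⟨orderOf u, ho, ?_⟩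
    rw [← hun, ← Units.val_pow_eq_pow_val, pow_orderOf_eq_one, Units.val_one]

theorem odd_prod {v : ℕ} (n : ℕ) (hn : n ≠ 0)
    (h : ∀ r : ℕ, r.Prime → r ∣ n → ∃ j, Odd j ∧ (r : ZMod v) ^ j = 1) :
    ∃ j, Odd j ∧ (n : ZMod v) ^ j = 1 := by
  induction n using Nat.recOnMul with
  | zero => exact absurd rfl hn
  | one => exact ⟨1, odd_one, by simp⟩
  | prime p hp => exact h p hp dvd_rfl
  | mul a b iha ihb =>
    obtain ⟨j, hj, hj1⟩ := iha (by rintro rfl; simp at hn) (fun r hr hd => h r hr (hd.mul_right b))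
    obtain ⟨k, hk, hk1⟩ := ihb (by rintro rfl; simp at hn) (fun r hr hd => h r hr (hd.mul_left a))
    refine ⟨j * k, hj.mul hk, ?_⟩
    rw [Nat.cast_mul, mul_pow, pow_mul, hj1, mul_comm j k, pow_mul, hk1]
    simp

variable {G : Type} [CommGroup G] [Fintype G] {I : Type} [Fintype I] (X : Data G I)

theorem sylow_bound (p : ℕ) (hp : p.Prime) : 2 * X.s ≤ p ^ (X.v.factorization p) + 1 ∨
    p ^ (X.v.factorization p) = 1 := by
  classical
  have := Fact.mk hp
  set q := p ^ (X.v.factorization p) with hq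
  rcases Nat.lt_or_ge 1 q with hq1 | hq1
  swap
  · right
    have : 0 < q := Nat.pow_pos hp.pos
    omega
  left
  let A : I → Subgroup G := fun i =>
    ((default : Sylow p (X.U i)) : Subgroup (X.U i)).map (X.U i).subtype
  have hAcard : ∀ i, Nat.card (A i) = q := by
    intro i
    have h1 := Subgroup.card_map_of_injective (K := ((default : Sylow p (X.U i)) :
      Subgroup (X.U i))) (f := (X.U i).subtype) Subtype.val_injective
    rw [show Nat.card (A i) = _ from h1]
    have h2 := (default : Sylow p (X.U i)).card_eq_multiplicity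
    rw [X.cardU i] at h2
    exact h2
  let T : Sylow p G := default
  have hT : Nat.card T = q ^ 2 := by
    have h2 := T.card_eq_multiplicity
    rw [X.cardG] at h2
    rw [h2, hq, Nat.factorization_pow]
    simp only [Finsupp.smul_apply, smul_eq_mul]
    rw [← pow_mul, mul_comm]
  have huniq := Sylow.unique_of_normal T inferInstance
  have hAT : ∀ i, A i ≤ T := by
    intro i
    have h1 : IsPGroup p (A i) := (default : Sylow p (X.U i)).isPGroup'.map _
    obtain ⟨Q, hQ⟩ := h1.exists_le_sylow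
    have h2 : Q = T := Subsingleton.elim _ _
    rwa [h2] at hQ
  have hAU : ∀ i, A i ≤ X.U i := fun i => Subgroup.map_subtype_le _
  -- counting nontrivial elements
  let F : (Σ i : I, {x : A i // x ≠ 1}) → {x : T // x ≠ 1} := fun t =>
    ⟨⟨(t.2 : A t.1), hAT t.1 (t.2 : A t.1).2⟩, by
      intro h
      apply t.2.2
      have h1 : ((t.2 : A t.1) : G) = 1 := congrArg Subtype.val h
      exact Subtype.ext h1⟩
  have hF : Function.Injective F := by
    rintro ⟨i, ⟨x, hx⟩, hx1⟩ ⟨j, ⟨y, hy⟩, hy1⟩ h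
    have hxy : x = y := congrArg (fun z : {x : T // x ≠ 1} => ((z : T) : G)) h
    subst hxy
    have hij : i = j := by
      by_contra hij
      have h1 : x ∈ X.U i ⊓ X.U j := ⟨hAU i hx, hAU j hy⟩
      rw [X.disj i j hij, Subgroup.mem_bot] at h1
      exact hx1 (Subtype.ext h1)
    subst hij
    rfl
  have h1 := Nat.card_le_card_of_injective F hF
  have h2 : ∀ (H : Subgroup G), Nat.card {x : H // x ≠ 1} = Nat.card H - 1 := by
    intro H
    have := Fintype.ofFinite H
    rw [Nat.card_eq_fintype_card, Nat.card_eq_fintype_card, Fintype.card_subtype_compl]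
    simp
  rw [Nat.card_sigma, Finset.sum_congr rfl (fun i _ => (h2 (A i)).trans (by rw [hAcard i])),
    Finset.sum_const, Finset.card_univ, cardI' X, smul_eq_mul] at h1
  have h3 : Nat.card {x : T // x ≠ 1} = q ^ 2 - 1 := (h2 T).trans (by rw [← hT])
  rw [h3] at h1
  obtain ⟨k, hk⟩ : ∃ k, q = k + 2 := ⟨q - 2, by omega⟩
  rw [hk] at h1 ⊢
  have h4 : (k + 2) ^ 2 - 1 = (k + 2 + 1) * (k + 1) := by
    have : (k + 2) ^ 2 = (k + 2 + 1) * (k + 1) + 1 := by ring
    omega
  rw [h4, show k + 2 - 1 = k + 1 by omega] at h1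
  exact Nat.le_of_mul_le_mul_right h1 (by omega)

theorem prime_power : ∃ p a : ℕ, p.Prime ∧ X.v = p ^ a := by
  have hv7 := X.v_ge
  have hv := X.hv
  have hs := X.hs
  set p := X.v.minFac with hp
  have hpp : p.Prime := Nat.minFac_prime (by omega)
  refine ⟨p, X.v.factorization p, hpp, ?_⟩
  by_contra hne
  set a := X.v.factorization p with ha
  obtain ⟨m, hm⟩ := Nat.ordProj_dvd X.v p
  rw [← ha] at hm
  have hm1 : m ≠ 1 := by
    rintro rfl
    exact hne (by omega)
  have hm0 : m ≠ 0 := by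
    rintro rfl
    omega
  set q := m.minFac with hq
  have hqp : q.Prime := Nat.minFac_prime hm1
  have hqm : q ∣ m := Nat.minFac_dvd m
  have hqv : q ∣ X.v := hm ▸ hqm.mul_left _
  have hpm : ¬ p ∣ m := by
    have h1 := Nat.not_dvd_ordCompl hpp (show X.v ≠ 0 by omega)
    have h2 : X.v / p ^ X.v.factorization p = m := by
      rw [← ha]
      conv_lhs => rw [hm]
      exact Nat.mul_div_cancel_left m (Nat.pow_pos hpp.pos)
    rwa [h2] at h1
  have hqnep : q ≠ p := fun h => hpm (h ▸ hqm)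
  have h1 : ∀ r : ℕ, r.Prime → r ∣ X.v → 2 * X.s ≤ r ^ (X.v.factorization r) + 1 := by
    intro r hr hrv
    rcases sylow_bound X r hr with h | h
    · exact h
    · exfalso
      have h2 : 1 ≤ X.v.factorization r := (hr.dvd_iff_one_le_factorization (by omega)).mp hrv
      have h3 := Nat.one_lt_pow (by omega : X.v.factorization r ≠ 0) hr.one_lt
      omega
  have h2 := h1 p hpp (Nat.minFac_dvd _)
  have h3 := h1 q hqp hqv
  have h4 : p ^ a * q ^ (X.v.factorization q) ∣ X.v := by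
    apply Nat.Coprime.mul_dvd_of_dvd_of_dvd
    · exact Nat.Coprime.pow _ _ ((Nat.coprime_primes hpp hqp).mpr hqnep.symm)
    · exact Nat.ordProj_dvd X.v p
    · exact Nat.ordProj_dvd X.v q
  have h5 := Nat.le_of_dvd (by omega) h4
  rw [← ha] at h2
  set P := p ^ a
  set Q := q ^ (X.v.factorization q)
  have h6 : (2 * X.s - 1) * (2 * X.s - 1) ≤ P * Q := Nat.mul_le_mul (by omega) (by omega)
  obtain ⟨t, ht⟩ : ∃ t, X.s = t + 3 := ⟨X.s - 3, by omega⟩
  rw [ht] at h6 hv
  have h7 : 2 * (t + 3) - 1 = 2 * t + 5 := by omega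
  rw [h7] at h6
  nlinarith

theorem pow_v (g : G) : g ^ X.v = 1 := by
  have hs := X.hs
  have hI : 1 < Fintype.card I := by rw [cardI' X]; omega
  obtain ⟨i, j, hij⟩ := Fintype.one_lt_card_iff.mp hI
  obtain ⟨a, ha, b, hb, rfl⟩ := factor X i j hij g
  have h1 : ∀ (H : Subgroup G) (x : G), x ∈ H → x ^ Nat.card H = 1 := by
    intro H x hx
    have h2 : (⟨x, hx⟩ : H) ^ Nat.card H = 1 := pow_card_eq_one'
    exact congrArg Subtype.val h2
  rw [mul_pow]
  have h2 := h1 _ a ha
  have h3 := h1 _ b hb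
  rw [X.cardU] at h2 h3
  rw [h2, h3, mul_one]

theorem inv_of_neg (r f : ℕ) (hf : 1 ≤ f) (h : (r : ZMod X.v) ^ f = -1) : Inv G r f := by
  refine ⟨hf, fun g => ?_⟩
  have h1 : ((r ^ f + 1 : ℕ) : ZMod X.v) = 0 := by
    push_cast
    rw [h]; ring
  rw [ZMod.natCast_eq_zero_iff] at h1
  obtain ⟨c, hc⟩ := h1
  have h2 : g ^ (r ^ f + 1) = 1 := by rw [hc, pow_mul, pow_v, one_pow]
  rw [pow_succ] at h2
  exact eq_inv_of_mul_eq_one_left h2

include X in
theorem final : False := by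
  have hv7 := X.v_ge
  have hv := X.hv
  have hs := X.hs
  obtain ⟨p, a, hp, hva⟩ := prime_power X
  have hvodd : X.v % 2 = 1 := by
    have h1 : (X.s ^ 2 + X.s) % 2 = 0 := by
      have : X.s ^ 2 + X.s = X.s * (X.s + 1) := by ring
      rw [this]
      exact Nat.even_iff.mp (Nat.even_mul_succ_self X.s)
    omega
  have ha0 : a ≠ 0 := by rintro rfl; rw [pow_zero] at hva; omega
  have hp2 : p ≠ 2 := by
    rintro rfl
    have : 2 ∣ X.v := hva ▸ dvd_pow_self 2 ha0
    omega
  have hpv : p ∣ X.v := hva ▸ dvd_pow_self p ha0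
  -- basic identity in ZMod v
  have hvs : (X.s : ZMod X.v) ^ 2 - X.s + 1 = 0 := by
    have h1 : ((X.v + X.s : ℕ) : ZMod X.v) = ((X.s ^ 2 + 1 : ℕ) : ZMod X.v) := by rw [hv]
    push_cast at h1
    rw [ZMod.natCast_self] at h1
    linear_combination -h1
  have hcop : ∀ r : ℕ, r.Prime → (r ∣ X.s ∨ r ∣ X.s - 1) → Nat.Coprime r (p ^ a) := by
    intro r hr h
    rw [← hva]
    rw [Nat.Prime.coprime_iff_not_dvd hr]
    intro h1
    have h2 : X.v = X.s * (X.s - 1) + 1 := by
      obtain ⟨t, ht⟩ : ∃ t, X.s = t + 1 := ⟨X.s - 1, by omega⟩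
      rw [ht] at hv ⊢
      simp only [Nat.add_sub_cancel]
      nlinarith
    rw [h2] at h1
    have h3 : r ∣ X.s * (X.s - 1) := by
      rcases h with h | h
      · exact h.mul_right _
      · exact h.mul_left _
    have h4 : r ∣ 1 := (Nat.dvd_add_right h3).mp h1
    exact hr.one_lt.ne' (Nat.dvd_one.mp h4)
  -- dichotomy for primes
  have hdich : ∀ r : ℕ, r.Prime → (r ∣ X.s ∨ r ∣ X.s - 1) →
      (∃ j, Odd j ∧ (r : ZMod X.v) ^ j = 1) ∨ (∃ f, Inv G r f) := by
    intro r hr h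
    have h1 := odd_or_neg hp hp2 r (hcop r hr h)
    rw [← hva] at h1
    rcases h1 with h1 | ⟨f, hf, h1⟩
    · exact Or.inl h1
    · exact Or.inr ⟨f, inv_of_neg X r f hf h1⟩
  have h2ne : (2 : ZMod X.v) ≠ 0 := by
    intro h
    have h1 : ((2 : ℕ) : ZMod X.v) = 0 := by exact_mod_cast h
    rw [ZMod.natCast_eq_zero_iff] at h1
    have := Nat.le_of_dvd (by norm_num) h1
    omega
  -- some prime divisor of s is inverting
  obtain ⟨r, hr, hrs, f, hf⟩ : ∃ r : ℕ, r.Prime ∧ r ∣ X.s ∧ ∃ f, Inv G r f := by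
    by_contra hcon
    push Not at hcon
    obtain ⟨j, hj, hj1⟩ := odd_prod (v := X.v) X.s (by omega) (fun r hr hrs => by
      rcases hdich r hr (Or.inl hrs) with h | ⟨f, hf⟩
      · exact h
      · exact absurd hf (hcon r hr hrs f))
    have h3 : (X.s : ZMod X.v) ^ 3 = -1 := by
      linear_combination ((X.s : ZMod X.v) + 1) * hvs
    have h4 : ((X.s : ZMod X.v) ^ 3) ^ j = 1 := by
      rw [← pow_mul, mul_comm, pow_mul, hj1, one_pow]
    rw [h3, hj.neg_one_pow] at h4
    apply h2ne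
    linear_combination -h4
  rcases Nat.lt_or_ge r 3 with hr3 | hr3
  swap
  · exact odd_contra X r f hr hr3 hrs hf
  have hr2 : r = 2 := by
    have := hr.two_le
    omega
  subst hr2
  -- 3 divides s or s - 1
  have h3 : 3 ∣ X.s ∨ 3 ∣ X.s - 1 := by
    by_contra hcon
    push Not at hcon
    have h1 : X.s % 3 = 2 := by omega
    obtain ⟨k, hk⟩ : ∃ k, X.s = 3 * k + 2 := ⟨X.s / 3, by omega⟩
    rw [hk] at hv
    have h2 : X.v = 9 * (k ^ 2 + k) + 3 := by nlinarith
    have h3 : 3 ∣ X.v := ⟨3 * (k ^ 2 + k) + 1, by omega⟩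
    rw [hva] at h3
    have h4 : 3 ∣ p := Nat.prime_three.dvd_of_dvd_pow h3
    have h5 : 3 = p := (Nat.prime_dvd_prime_iff_eq Nat.prime_three hp).mp h4
    subst h5
    rcases Nat.lt_or_ge a 2 with h6 | h6
    · have : a = 1 := by omega
      subst this
      omega
    · have h7 : 3 ^ 2 ∣ X.v := hva ▸ pow_dvd_pow 3 h6
      omega
  have h3odd : ∃ j, Odd j ∧ ((3 : ℕ) : ZMod X.v) ^ j = 1 := by
    rcases hdich 3 Nat.prime_three h3 with h | ⟨f', hf'⟩
    · exact h
    · exfalso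
      rcases h3 with h3 | h3
      · exact odd_contra X 3 f' Nat.prime_three le_rfl h3 hf'
      · exact pred_contra X 3 f' Nat.prime_three h3 hf'
  obtain ⟨j, ⟨i, hj⟩, hj1⟩ := h3odd
  have hsq : IsSquare (-1 : ZMod X.v) := by
    -- with y = 3^(i+1), y^2 = 3, and (2s-1)^2 = -3
    have h1 : ((3 : ZMod X.v) ^ (i + 1)) ^ 2 = 3 := by
      rw [← pow_mul, show (i + 1) * 2 = j + 1 by omega, pow_succ]
      push_cast at hj1
      rw [hj1, one_mul]
    have h2 : (2 * (X.s : ZMod X.v) - 1) ^ 2 = -3 := by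
      linear_combination 4 * hvs
    -- inverse of 3 is 3^(j-1) = 3^(2i)
    refine ⟨(2 * (X.s : ZMod X.v) - 1) * 3 ^ i, ?_⟩
    push_cast at hj1
    have h4 : (3 : ZMod X.v) ^ (2 * i + 1) = 1 := by rw [← hj]; exact hj1
    have h5 : (3 : ZMod X.v) ^ i * 3 ^ i * 3 = 1 := by
      rw [← pow_add, ← pow_succ]
      rw [← h4]; congr 1; omega
    linear_combination (-(3 : ZMod X.v) ^ i * 3 ^ i) * h2 + h5
  have hp43 : p % 4 ≠ 3 := Nat.mod_four_ne_three_of_mem_primeFactors_of_isSquare_neg_one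
    (Nat.mem_primeFactors.mpr ⟨hp, hpv, by omega⟩) hsq
  have hp41 : p % 4 = 1 := by
    have : p % 2 = 1 := by
      rcases hp.eq_two_or_odd with h | h
      · exact absurd h hp2
      · exact h
    omega
  have hv41 : X.v % 4 = 1 := by
    rw [hva, Nat.pow_mod, hp41, one_pow]; rfl
  have h4 : 4 ∣ X.s := by
    obtain ⟨c, hc⟩ := hrs
    have h1 : X.v + 2 * c = 4 * c ^ 2 + 1 := by
      have : X.s ^ 2 = 4 * c ^ 2 := by rw [hc]; ring
      omega
    have h2 : c % 2 = 0 := by omega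
    omega
  exact two_contra X f h4 hf

end Pool.Agent.Helper2.GR
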