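import Mathlib

set_option autoImplicit false

namespace Pool.Agent.Helper2.Geom

open Configuration MulAction

section plane

variable {P L : Type} [Membership P L] [ProjectivePlane P L]

theorem line_unique {p q : P} {l m : L} (hpq : p ≠ q) (h1 : p ∈ l) (h2 : q ∈ l) (h3 : p ∈ m)
    (h4 : q ∈ m) : l = m :=
  (Nondegenerate.eq_or_eq h1 h2 h3 h4).resolve_left hpq

theorem pt_unique {p q : P} {l m : L} (hlm : l ≠ m) (h1 : p ∈ l) (h2 : q ∈ l) (h3 : p ∈ m)
    (h4 : q ∈ m) : p = q :=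
  (Nondegenerate.eq_or_eq h1 h2 h3 h4).resolve_right hlm

theorem exists_line (p q : P) : ∃ l : L, p ∈ l ∧ q ∈ l := by
  by_cases h : p = q
  · subst h
    obtain ⟨p₁, p₂, p₃, l₁, l₂, l₃, h₁₂, h₁₃, h₂₁, h₂₂, h₂₃, h₃₁, h₃₂, h₃₃⟩ :=
      @ProjectivePlane.exists_config P L _ _
    by_cases h2 : p = p₂
    · subst h2; exact ⟨l₂, h₂₂, h₂₂⟩
    · exact ⟨HasLines.mkLine h2, (HasLines.mkLine_ax h2).1, (HasLines.mkLine_ax h2).1⟩
  · exact ⟨HasLines.mkLine h, HasLines.mkLine_ax h⟩

theorem exists_two_points (l : L) : ∃ p q : P, p ≠ q ∧ p ∈ l ∧ q ∈ l := by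
  obtain ⟨z, hz⟩ := Nondegenerate.exists_point (P := P) l
  have hp : ∃ p : P, p ≠ z := by
    obtain ⟨p₁, p₂, p₃, l₁, l₂, l₃, h₁₂, h₁₃, h₂₁, h₂₂, h₂₃, h₃₁, h₃₂, h₃₃⟩ :=
      @ProjectivePlane.exists_config P L _ _
    by_contra hcon
    push Not at hcon
    exact h₁₂ (by rw [hcon p₁, ← hcon p₂]; exact h₂₂)
  obtain ⟨p, hpz⟩ := hp
  obtain ⟨m, hm1, hm2⟩ := exists_line (L := L) z p
  obtain ⟨q, hq⟩ := Nondegenerate.exists_point (P := P) m
  obtain ⟨m', hm'1, hm'2⟩ := exists_line (L := L) z q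
  have hmm' : m ≠ m' := fun h => hq (h ▸ hm'2)
  have hml : m ≠ l := fun h => hz (h ▸ hm1)
  have hm'l : m' ≠ l := fun h => hz (h ▸ hm'1)
  refine ⟨HasPoints.mkPoint hml, HasPoints.mkPoint hm'l, ?_, (HasPoints.mkPoint_ax hml).2,
    (HasPoints.mkPoint_ax hm'l).2⟩
  intro h
  have h1 : (HasPoints.mkPoint hml : P) ∈ m' := by rw [h]; exact (HasPoints.mkPoint_ax hm'l).1
  have h2 : (HasPoints.mkPoint hml : P) = z :=
    pt_unique hmm' (HasPoints.mkPoint_ax hml).1 hm1 h1 hm'1
  exact hz (h2 ▸ (HasPoints.mkPoint_ax hml).2)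

theorem finite_lines [Finite P] : Finite L := by
  refine Finite.of_injective (fun l : L => {p : P | p ∈ l}) ?_
  intro l m h
  obtain ⟨p, q, hpq, hp, hq⟩ := exists_two_points (P := P) l
  have hp' : p ∈ {p : P | p ∈ m} := by
    have : p ∈ {p : P | p ∈ l} := hp
    exact (show {p : P | p ∈ l} = {p : P | p ∈ m} from h) ▸ this
  have hq' : q ∈ {p : P | p ∈ m} := by
    have : q ∈ {p : P | p ∈ l} := hq
    exact (show {p : P | p ∈ l} = {p : P | p ∈ m} from h) ▸ this
  exact line_unique hpq hp hq hp' hq'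

/-- number of points on a line -/
theorem ncard_line [Finite P] [Finite L] (l : L) :
    {p : P | p ∈ l}.ncard = ProjectivePlane.order P L + 1 := by
  rw [← ProjectivePlane.pointCount_eq P l]
  rfl

theorem ncard_pencil [Finite P] [Finite L] (p : P) :
    {l : L | p ∈ l}.ncard = ProjectivePlane.order P L + 1 := by
  rw [← ProjectivePlane.lineCount_eq L p]
  rfl

theorem card_P [Finite P] [Finite L] :
    Nat.card P = ProjectivePlane.order P L ^ 2 + ProjectivePlane.order P L + 1 := by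
  classical
  have := Fintype.ofFinite P
  rw [Nat.card_eq_fintype_card]
  exact ProjectivePlane.card_points P L

theorem card_L [Finite P] [Finite L] :
    Nat.card L = ProjectivePlane.order P L ^ 2 + ProjectivePlane.order P L + 1 := by
  classical
  have := Fintype.ofFinite L
  rw [Nat.card_eq_fintype_card]
  exact ProjectivePlane.card_lines P L

end plane

section fix

variable {P L : Type} [Membership P L] [ProjectivePlane P L]
  {G : Type} [Group G] [MulAction G P] [MulAction G L]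

/-- points fixed by all of `N` -/
def FP (P : Type) {G : Type} [Group G] [MulAction G P] (N : Subgroup G) : Set P :=
  {p | ∀ g ∈ N, g • p = p}

theorem FP_mono {N M : Subgroup G} (h : N ≤ M) : FP P M ⊆ FP P N := fun _ hp g hg => hp g (h hg)

theorem smul_FP {N : Subgroup G} [hN : N.Normal] {p : P} (hp : p ∈ FP P N) (g : G) :
    g • p ∈ FP P N := by
  intro h hh
  have h1 : g⁻¹ * h * g ∈ N := by simpa using hN.conj_mem h hh g⁻¹
  have h2 := hp _ h1
  calc h • g • p = g • ((g⁻¹ * h * g) • p) := by simp [smul_smul, mul_assoc]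
    _ = g • p := by rw [h2]

variable (hinc : ∀ (g : G) (p : P) (l : L), p ∈ l ↔ g • p ∈ g • l)

include hinc in
theorem fl_of_two {N : Subgroup G} {p q : P} {l : L} (hpq : p ≠ q) (hp : p ∈ FP P N)
    (hq : q ∈ FP P N) (hpl : p ∈ l) (hql : q ∈ l) : l ∈ FP L N := by
  intro g hg
  have h1 := (hinc g p l).mp hpl
  have h2 := (hinc g q l).mp hql
  rw [hp g hg] at h1
  rw [hq g hg] at h2
  exact line_unique hpq h1 h2 hpl hql

include hinc in
theorem fp_of_two {N : Subgroup G} {l m : L} {p : P} (hlm : l ≠ m) (hl : l ∈ FP L N)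
    (hm : m ∈ FP L N) (hpl : p ∈ l) (hpm : p ∈ m) : p ∈ FP P N := by
  intro g hg
  have h1 := (hinc g p l).mp hpl
  have h2 := (hinc g p m).mp hpm
  rw [hl g hg] at h1
  rw [hm g hg] at h2
  exact pt_unique hlm h1 hpl h2 hpm

variable (hP : ¬ ∃ p : P, ∀ g : G, g • p = p) (hL : ¬ ∃ l : L, ∀ g : G, g • l = l)

include hinc hP hL in
theorem noncollinear {N : Subgroup G} [N.Normal] {p0 : P} (hp0 : p0 ∈ FP P N) (l : L) :
    ∃ q ∈ FP P N, q ∉ l := by
  by_contra hcon
  push Not at hcon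
  have h1 : ∃ g : G, g • p0 ≠ p0 := by
    by_contra h
    push Not at h
    exact hP ⟨p0, h⟩
  obtain ⟨g, hg⟩ := h1
  apply hL
  refine ⟨l, fun h => ?_⟩
  have key : ∀ q ∈ FP P N, q ∈ h • l := by
    intro q hq
    have := (hinc h (h⁻¹ • q) l).mp (hcon _ (smul_FP hq _))
    simpa using this
  exact line_unique hg (key _ (smul_FP hp0 g)) (key _ hp0) (hcon _ (smul_FP hp0 g)) (hcon _ hp0)

/-- incidence on the fixed structure -/
@[reducible] def subMem (P L : Type) [Membership P L] {G : Type} [Group G] [MulAction G P]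
    [MulAction G L] (N : Subgroup G) : Membership (FP P N) (FP L N) :=
  ⟨fun l p => (p : P) ∈ (l : L)⟩

/-- four points no three of which are collinear -/
def Quad (P L : Type) [Membership P L] {G : Type} [Group G] [MulAction G P]
    (N : Subgroup G) : Prop :=
  ∃ w x y z : P, w ∈ FP P N ∧ x ∈ FP P N ∧ y ∈ FP P N ∧ z ∈ FP P N ∧
    w ≠ x ∧ w ≠ y ∧ w ≠ z ∧ x ≠ y ∧ x ≠ z ∧ y ≠ z ∧
    (∀ l : L, x ∈ l → y ∈ l → w ∉ l) ∧ (∀ l : L, x ∈ l → y ∈ l → z ∉ l) ∧
    (∀ l : L, x ∈ l → z ∈ l → w ∉ l) ∧ (∀ l : L, w ∈ l → z ∈ l → y ∉ l)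

include hinc hP in
/-- a line with three fixed points (and normality) yields a quadrangle -/
theorem quad_of_three {N : Subgroup G} [N.Normal] {x y d c : P} {l : L}
    (hx : x ∈ FP P N) (hy : y ∈ FP P N) (hd : d ∈ FP P N) (hc : c ∈ FP P N)
    (hxl : x ∈ l) (hyl : y ∈ l) (hdl : d ∈ l) (hcl : c ∉ l)
    (hxy : x ≠ y) (hxd : x ≠ d) (hyd : y ≠ d) : Quad P L N := by
  -- a second point off the line
  have he : ∃ e ∈ FP P N, e ∉ l ∧ e ≠ c := by
    by_contra hcon
    push Not at hcon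
    apply hP
    refine ⟨c, fun g => ?_⟩
    by_contra hgc
    have hgcl : g • c ∈ l := by
      by_contra h
      exact hgc (hcon _ (smul_FP hc g) h)
    -- at most one of the images of x,y,d is not on l
    have hne : g • l ≠ l := by
      intro h
      have := (hinc g c l).not.mp hcl
      rw [h] at this
      exact this hgcl
    have himg : ∀ p ∈ FP P N, p ∈ l → g • p ∈ l ∨ g • p = c := by
      intro p hp _
      by_cases h : g • p ∈ l
      · exact Or.inl h
      · exact Or.inr (hcon _ (smul_FP hp g) h)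
    have hmem : ∀ p : P, p ∈ l → g • p ∈ g • l := fun p hp => (hinc g p l).mp hp
    have hinj : ∀ p q : P, p ≠ q → g • p ≠ g • q := fun p q h h' => h (smul_left_cancel g h')
    have two : ∀ p q : P, p ≠ q → p ∈ l → q ∈ l → g • p ∈ l → g • q ∈ l → False := by
      intro p q hpq hp hq h1 h2
      exact hne (line_unique (hinj p q hpq) (hmem p hp) (hmem q hq) h1 h2)
    rcases himg x hx hxl with h1 | h1 <;> rcases himg y hy hyl with h2 | h2
    · exact two x y hxy hxl hyl h1 h2
    · rcases himg d hd hdl with h3 | h3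
      · exact two x d hxd hxl hdl h1 h3
      · exact hinj y d hyd (h2.trans h3.symm)
    · rcases himg d hd hdl with h3 | h3
      · exact two y d hyd hyl hdl h2 h3
      · exact hinj x d hxd (h1.trans h3.symm)
    · exact hinj x y hxy (h1.trans h2.symm)
  obtain ⟨e, he, hel, hec⟩ := he
  have hne_of : ∀ {p q : P}, p ∈ l → q ∉ l → p ≠ q := fun hp hq h => hq (h ▸ hp)
  -- two points of l off the line ce give a quadrangle
  have build : ∀ a b : P, a ∈ FP P N → b ∈ FP P N → a ∈ l → b ∈ l → a ≠ b →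
      (∀ m : L, c ∈ m → e ∈ m → a ∉ m) → (∀ m : L, c ∈ m → e ∈ m → b ∉ m) → Quad P L N := by
    intro a b ha hb hal hbl hab h1 h2
    -- w = a, x = b, y = c, z = e
    refine ⟨a, b, c, e, ha, hb, hc, he, hab, hne_of hal hcl, hne_of hal hel, hne_of hbl hcl,
      hne_of hbl hel, hec.symm, ?_, ?_, ?_, ?_⟩
    · intro m hbm hcm ham
      exact hcl ((line_unique hab ham hbm hal hbl) ▸ hcm)
    · intro m hbm hcm hem
      exact h2 m hcm hem hbm
    · intro m hbm hem ham
      exact hel ((line_unique hab ham hbm hal hbl) ▸ hem)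
    · intro m ham hem hcm
      exact h1 m hcm hem ham
  obtain ⟨t, hct, het⟩ := exists_line (L := L) c e
  have htl : t ≠ l := fun h => hcl (h ▸ hct)
  have huniq : ∀ m : L, c ∈ m → e ∈ m → m = t := fun m h1 h2 => line_unique hec.symm h1 h2 hct het
  by_cases hxt : x ∈ t
  · have hyt : y ∉ t := fun h => hxy (pt_unique htl hxt h hxl hyl)
    have hdt : d ∉ t := fun h => hxd (pt_unique htl hxt h hxl hdl)
    exact build y d hy hd hyl hdl hyd (fun m h1 h2 => by rw [huniq m h1 h2]; exact hyt)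
      (fun m h1 h2 => by rw [huniq m h1 h2]; exact hdt)
  · by_cases hyt : y ∈ t
    · have hdt : d ∉ t := fun h => hyd (pt_unique htl hyt h hyl hdl)
      exact build x d hx hd hxl hdl hxd (fun m h1 h2 => by rw [huniq m h1 h2]; exact hxt)
        (fun m h1 h2 => by rw [huniq m h1 h2]; exact hdt)
    · exact build x y hx hy hxl hyl hxy (fun m h1 h2 => by rw [huniq m h1 h2]; exact hxt)
        (fun m h1 h2 => by rw [huniq m h1 h2]; exact hyt)

include hinc hP hL in
theorem quad_of_card [Finite P] {N : Subgroup G} [N.Normal] (h4 : 4 ≤ (FP P N).ncard) :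
    Quad P L N := by
  have hne : (FP P N).Nonempty := by
    rw [← Set.ncard_pos]; omega
  obtain ⟨a, ha⟩ := hne
  obtain ⟨b, hb, hba⟩ : ∃ b ∈ FP P N, b ≠ a := by
    by_contra hcon
    push Not at hcon
    have h5 : FP P N ⊆ {a} := fun x hx => hcon x hx
    have h6 := Set.ncard_le_ncard h5
    rw [Set.ncard_singleton] at h6
    omega
  obtain ⟨l, hal, hbl⟩ := exists_line (L := L) a b
  obtain ⟨c, hc, hcl⟩ := noncollinear hinc hP hL ha l
  obtain ⟨d, hd, hda, hdb, hdc⟩ : ∃ d ∈ FP P N, d ≠ a ∧ d ≠ b ∧ d ≠ c := by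
    by_contra hcon
    push Not at hcon
    have : FP P N ⊆ {a, b, c} := by
      intro x hx
      by_cases h1 : x = a
      · simp [h1]
      · by_cases h2 : x = b
        · simp [h2]
        · simp [hcon x hx h1 h2]
    have h5 := Set.ncard_le_ncard this
    have h6 : ({a, b, c} : Set P).ncard ≤ 3 := by
      have := Set.ncard_insert_le a ({b, c} : Set P)
      have := Set.ncard_insert_le b ({c} : Set P)
      have := Set.ncard_singleton c
      omega
    omega
  have hca : c ≠ a := fun h => hcl (h ▸ hal)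
  have hcb : c ≠ b := fun h => hcl (h ▸ hbl)
  by_cases hdl : d ∈ l
  · exact quad_of_three hinc hP ha hb hd hc hal hbl hdl hcl hba.symm hda.symm hdb.symm
  obtain ⟨m, hbm, hcm⟩ := exists_line (L := L) b c
  have ham : a ∉ m := fun h => hcl ((line_unique hba.symm h hbm hal hbl) ▸ hcm)
  by_cases hdm : d ∈ m
  · exact quad_of_three hinc hP hb hc hd ha hbm hcm hdm ham hcb.symm hdb.symm hdc.symm
  obtain ⟨k, hak, hck⟩ := exists_line (L := L) a c
  have hbk : b ∉ k := fun h => hcl ((line_unique hba.symm hak h hal hbl) ▸ hck)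
  by_cases hdk : d ∈ k
  · exact quad_of_three hinc hP ha hc hd hb hak hck hdk hbk hca.symm hda.symm hdc.symm
  -- quadrangle w = d, x = a, y = b, z = c
  refine ⟨d, a, b, c, hd, ha, hb, hc, hda, hdb, hdc, hba.symm, hca.symm, hcb.symm, ?_, ?_, ?_, ?_⟩
  · intro t h1 h2 h3
    exact hdl ((line_unique hba.symm h1 h2 hal hbl) ▸ h3)
  · intro t h1 h2 h3
    exact hcl ((line_unique hba.symm h1 h2 hal hbl) ▸ h3)
  · intro t h1 h2 h3
    exact hdk ((line_unique hca.symm h1 h2 hak hck) ▸ h3)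
  · intro t h1 h2 h3
    exact hdm ((line_unique hcb h2 h3 hcm hbm) ▸ h1)

include hinc hP hL in
/-- the fixed structure is a projective plane -/
theorem exists_subplane {N : Subgroup G} [N.Normal] (hq : Quad P L N) :
    Nonempty (@ProjectivePlane (FP P N) (FP L N) (subMem P L N)) := by
  let _ := subMem P L N
  obtain ⟨w, x, y, z, hw, hx, hy, hz, hwx, hwy, hwz, hxy, hxz, hyz, q1, q2, q3, q4⟩ := hq
  have hline : ∀ p q : P, p ≠ q → p ∈ FP P N → q ∈ FP P N → ∃ l ∈ FP L N, p ∈ l ∧ q ∈ l := by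
    intro p q hpq hp hq
    obtain ⟨l, h1, h2⟩ := exists_line (L := L) p q
    exact ⟨l, fl_of_two hinc hpq hp hq h1 h2, h1, h2⟩
  have mkP : ∀ l m : FP L N, l ≠ m → ∃ p : FP P N, (p : P) ∈ (l : L) ∧ (p : P) ∈ (m : L) := by
    intro l m hlm
    have hlm' : (l : L) ≠ m := fun h => hlm (Subtype.ext h)
    exact ⟨⟨HasPoints.mkPoint hlm', fp_of_two hinc hlm' l.2 m.2 (HasPoints.mkPoint_ax hlm').1
      (HasPoints.mkPoint_ax hlm').2⟩, HasPoints.mkPoint_ax hlm'⟩
  have mkL : ∀ p q : FP P N, p ≠ q → ∃ l : FP L N, (p : P) ∈ (l : L) ∧ (q : P) ∈ (l : L) := by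
    intro p q hpq
    have hpq' : (p : P) ≠ q := fun h => hpq (Subtype.ext h)
    obtain ⟨l, hl, h1, h2⟩ := hline p q hpq' p.2 q.2
    exact ⟨⟨l, hl⟩, h1, h2⟩
  refine ⟨{ exists_point := ?_
            exists_line := ?_
            eq_or_eq := ?_
            mkPoint := fun {l m} h => (mkP l m h).choose
            mkPoint_ax := fun {l m} h => (mkP l m h).choose_spec
            mkLine := fun {p q} h => (mkL p q h).choose
            mkLine_ax := fun {p q} h => (mkL p q h).choose_spec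
            exists_config := ?_ }⟩
  · intro l
    obtain ⟨q, hq, hql⟩ := noncollinear hinc hP hL hw (l : L)
    exact ⟨⟨q, hq⟩, hql⟩
  · intro p
    obtain ⟨q, hq, hqp⟩ : ∃ q ∈ FP P N, q ≠ (p : P) := by
      by_cases h : w = (p : P)
      · exact ⟨x, hx, fun h' => hwx (h.trans h'.symm)⟩
      · exact ⟨w, hw, h⟩
    obtain ⟨l, hl, hpl, hql⟩ := hline p q hqp.symm p.2 hq
    obtain ⟨r, hr, hrl⟩ := noncollinear hinc hP hL hw l
    have hqr : q ≠ r := fun h => hrl (h ▸ hql)
    obtain ⟨m, hm, hqm, hrm⟩ := hline q r hqr hq hr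
    refine ⟨⟨m, hm⟩, fun h => ?_⟩
    have h' : (p : P) ∈ m := h
    exact hrl ((line_unique hqp hqm h' hql hpl) ▸ hrm)
  · intro p q l m h1 h2 h3 h4
    rcases Nondegenerate.eq_or_eq (P := P) (L := L) h1 h2 h3 h4 with h | h
    · exact Or.inl (Subtype.ext h)
    · exact Or.inr (Subtype.ext h)
  · obtain ⟨l1, hl1, hwl1, hzl1⟩ := hline w z hwz hw hz
    obtain ⟨l2, hl2, hxl2, hyl2⟩ := hline x y hxy hx hy
    obtain ⟨l3, hl3, hxl3, hzl3⟩ := hline x z hxz hx hz
    refine ⟨⟨w, hw⟩, ⟨x, hx⟩, ⟨y, hy⟩, ⟨l1, hl1⟩, ⟨l2, hl2⟩, ⟨l3, hl3⟩, ?_, ?_, ?_, ?_, ?_, ?_,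
      ?_, ?_⟩
    · exact q1 l2 hxl2 hyl2
    · exact q3 l3 hxl3 hzl3
    · intro h
      have h' : x ∈ l1 := h
      exact q3 l1 h' hzl1 hwl1
    · exact hxl2
    · exact hxl3
    · exact q4 l1 hwl1 hzl1
    · exact hyl2
    · intro h
      have h' : y ∈ l3 := h
      exact q2 l3 hxl3 h' hzl3

include hinc hP hL in
theorem subplane_counts [Finite P] [Finite L] {N : Subgroup G} [N.Normal] (hq : Quad P L N) :
    ∃ m : ℕ, (FP P N).ncard = m ^ 2 + m + 1 ∧ (FP L N).ncard = m ^ 2 + m + 1 ∧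
      (∀ l ∈ FP L N, {p : P | p ∈ l ∧ p ∈ FP P N}.ncard = m + 1) ∧
      (∀ p ∈ FP P N, {l : L | p ∈ l ∧ l ∈ FP L N}.ncard = m + 1) := by
  let _ := subMem P L N
  obtain ⟨inst⟩ := exists_subplane hinc hP hL hq
  refine ⟨@ProjectivePlane.order (FP P N) (FP L N) (subMem P L N) inst, ?_, ?_, ?_, ?_⟩
  · rw [← @card_P (FP P N) (FP L N) (subMem P L N) inst _ _]
    rfl
  · rw [← @card_L (FP P N) (FP L N) (subMem P L N) inst _ _]
    rfl
  · intro l hl
    have h := @ncard_line (FP P N) (FP L N) (subMem P L N) inst _ _ ⟨l, hl⟩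
    rw [← h]
    refine (Set.ncard_congr (fun p hp => ⟨p, hp.2⟩) ?_ ?_ ?_)
    · intro p hp
      exact hp.1
    · intro p q hp hq h
      exact congrArg Subtype.val h
    · rintro ⟨p, hp⟩ hpl
      exact ⟨p, ⟨hpl, hp⟩, rfl⟩
  · intro p hp
    have h := @ncard_pencil (FP P N) (FP L N) (subMem P L N) inst _ _ ⟨p, hp⟩
    rw [← h]
    refine (Set.ncard_congr (fun l hl => ⟨l, hl.2⟩) ?_ ?_ ?_)
    · intro l hl
      exact hl.1
    · intro p q hp hq h
      exact congrArg Subtype.val h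
    · rintro ⟨l, hl⟩ hpl
      exact ⟨l, ⟨hpl, hl⟩, rfl⟩

include hinc in
/-- Bruck: a proper subplane has order at most the square root. -/
theorem bruck [Finite P] [Finite L] {N : Subgroup G} {m : ℕ}
    (hm : (FP P N).ncard = m ^ 2 + m + 1) (hmL : (FP L N).ncard = m ^ 2 + m + 1)
    (hml : ∀ l ∈ FP L N, {p : P | p ∈ l ∧ p ∈ FP P N}.ncard = m + 1)
    (hne : FP P N ≠ Set.univ) : m ^ 2 ≤ ProjectivePlane.order P L := by
  set n := ProjectivePlane.order P L with hn
  -- pick a fixed line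
  have hneL : (FP L N).Nonempty := by
    rw [← Set.ncard_pos]; omega
  obtain ⟨l, hl⟩ := hneL
  have h1 : {p : P | p ∈ l ∧ p ∈ FP P N}.ncard ≤ {p : P | p ∈ l}.ncard :=
    Set.ncard_le_ncard (fun p hp => hp.1)
  have hmn : m ≤ n := by
    rw [hml l hl, ncard_line (P := P) l] at h1; omega
  have hmn' : m ≠ n := by
    intro h
    apply hne
    apply Set.eq_of_subset_of_ncard_le (Set.subset_univ _)
    rw [Set.ncard_univ, card_P (P := P) (L := L), hm, h]
  obtain ⟨y, hyl, hy⟩ : ∃ y : P, y ∈ l ∧ y ∉ FP P N := by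
    by_contra hcon
    push Not at hcon
    have h2 : {p : P | p ∈ l} ⊆ {p : P | p ∈ l ∧ p ∈ FP P N} := fun p hp => ⟨hp, hcon p hp⟩
    have h3 := Set.ncard_le_ncard h2
    rw [hml l hl, ncard_line (P := P) l] at h3
    omega
  -- points of the subplane off l inject to lines through y other than l
  have h4 : ((FP P N) \ {p : P | p ∈ l ∧ p ∈ FP P N}).ncard = m ^ 2 := by
    rw [Set.ncard_sdiff (fun p hp => hp.2), hm, hml l hl]; omega
  have hf : ∀ q : P, ∃ t : L, q ∈ t ∧ y ∈ t := fun q => exists_line q y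
  choose f hf1 hf2 using hf
  have hmaps : ∀ q ∈ (FP P N) \ {p : P | p ∈ l ∧ p ∈ FP P N}, f q ∈ {t : L | y ∈ t} \ {l} := by
    intro q hq
    refine ⟨hf2 q, ?_⟩
    intro h
    have h' : f q = l := h
    exact hq.2 ⟨h' ▸ hf1 q, hq.1⟩
  have hinj : Set.InjOn f ((FP P N) \ {p : P | p ∈ l ∧ p ∈ FP P N}) := by
    intro q hq q' hq' h
    by_contra hne'
    have ht : f q ∈ FP L N :=
      fl_of_two hinc hne' hq.1 hq'.1 (hf1 q) (h ▸ hf1 q')
    exact hy (fp_of_two hinc (hmaps q hq).2 ht hl (hf2 q) hyl)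
  have h5 := Set.ncard_le_ncard_of_injOn f hmaps hinj
  rw [h4, Set.ncard_sdiff_singleton_of_mem (show l ∈ {t : L | y ∈ t} from hyl),
    ncard_pencil (L := L) y] at h5
  omega

theorem arith {s v c e : ℕ} (hv : v + s = s ^ 2 + 1) (hc : c < v) (he : e ≤ v + 2 * s)
    (hce : c * e = v * v) : False := by
  have hvodd : v % 2 = 1 := by
    have h1 : (s ^ 2 + s) % 2 = 0 := by
      have : s ^ 2 + s = s * (s + 1) := by ring
      rw [this]
      exact Nat.even_iff.mp (Nat.even_mul_succ_self s)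
    omega
  have hvv : (v * v) % 2 = 1 := by rw [Nat.mul_mod, hvodd]
  have hc2 : c % 2 = 1 := by
    by_contra h
    have : c % 2 = 0 := by omega
    rw [← hce, Nat.mul_mod, this] at hvv
    simp at hvv
  have he2 : e % 2 = 1 := by
    by_contra h
    have : e % 2 = 0 := by omega
    rw [← hce, Nat.mul_mod, this] at hvv
    simp at hvv
  obtain ⟨x, hx⟩ : ∃ x, v = c + 2 * x := ⟨(v - c) / 2, by omega⟩
  have hev : v < e := by
    by_contra h
    push Not at h
    have : c * e < v * v := by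
      calc c * e ≤ c * v := Nat.mul_le_mul_left _ h
        _ < v * v := Nat.mul_lt_mul_of_pos_right hc (by omega)
    omega
  obtain ⟨y, hy⟩ : ∃ y, e = v + 2 * y := ⟨(e - v) / 2, by omega⟩
  have hys : y ≤ s := by omega
  have hx0 : 0 < x := by omega
  have key : v * y = v * x + 2 * (x * y) := by
    have h1 : c * (v + 2 * y) = v * v := by rw [← hy]; exact hce
    have h2 : (c : ℤ) = v - 2 * x := by omega
    have h3 : (c : ℤ) * (v + 2 * y) = v * v := by exact_mod_cast h1
    rw [h2] at h3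
    have h4 : (v : ℤ) * y = v * x + 2 * (x * y) := by nlinarith
    exact_mod_cast h4
  have hxy : x < y := by
    by_contra h
    push Not at h
    have h1 : v * y ≤ v * x := Nat.mul_le_mul_left _ h
    have h2 : 0 < x * y := Nat.mul_pos hx0 (by omega)
    omega
  obtain ⟨d, hd⟩ : ∃ d, y = x + d := ⟨y - x, by omega⟩
  have key2 : v * d = 2 * (x * y) := by
    rw [hd, Nat.mul_add] at key
    rw [hd]
    omega
  have hxs : x + 1 ≤ s := by omega
  have hbound : x * y + s ≤ s ^ 2 := by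
    have h1 : x * y ≤ x * s := Nat.mul_le_mul_left _ hys
    have h2 : (x + 1) * s ≤ s * s := Nat.mul_le_mul_right _ hxs
    nlinarith
  rcases Nat.lt_or_ge d 2 with h | h
  · have hd1 : d = 1 := by omega
    subst hd1
    omega
  · have h1 : v * 2 ≤ v * d := Nat.mul_le_mul_left _ h
    omega

theorem card_orbit_mul_stab {X : Type} [MulAction G X] (x : X) :
    (orbit G x).ncard * Nat.card (stabilizer G x) = Nat.card G := by
  rw [← Nat.card_congr (orbitProdStabilizerEquivGroup G x), Nat.card_prod]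
  rfl

theorem FP_ne_univ [FaithfulSMul G P] {N : Subgroup G} (hN : N ≠ ⊥) : FP P N ≠ Set.univ := by
  intro h
  apply hN
  rw [Subgroup.eq_bot_iff_forall]
  intro g hg
  apply eq_of_smul_eq_smul (α := P)
  intro p
  rw [one_smul]
  have : p ∈ FP P N := by rw [h]; trivial
  exact this g hg

include hinc hP hL in
theorem fixed_le_w [Finite P] [Finite L] [FaithfulSMul G P] {s : ℕ}
    (hn : ProjectivePlane.order P L = s ^ 2) {N : Subgroup G} [N.Normal] (hN : N ≠ ⊥) :
    (FP P N).ncard ≤ s ^ 2 + s + 1 := by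
  have hs : 2 ≤ s := by
    have := ProjectivePlane.one_lt_order P L
    by_contra h
    have : s = 0 ∨ s = 1 := by omega
    rcases this with rfl | rfl <;> omega
  by_cases h4 : 4 ≤ (FP P N).ncard
  · obtain ⟨m, h1, h2, h3, h3'⟩ := subplane_counts hinc hP hL (quad_of_card hinc hP hL h4)
    have h5 := bruck hinc h1 h2 h3 (FP_ne_univ hN)
    rw [hn] at h5
    have h6 : m ≤ s := by
      by_contra h
      push Not at h
      have : s ^ 2 < m ^ 2 := Nat.pow_lt_pow_left h (by norm_num)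
      omega
    rw [h1]
    have : m ^ 2 ≤ s ^ 2 := h5
    omega
  · nlinarith

include hinc hP hL in
theorem fixed_le_v [Finite P] [Finite L] [Finite G] [FaithfulSMul G P] {s : ℕ} (hs : 3 ≤ s)
    (hn : ProjectivePlane.order P L = s ^ 2) (hG : Nat.card G = (s ^ 2 - s + 1) ^ 2)
    {N : Subgroup G} [N.Normal] (hN : N ≠ ⊥) {y : P} (hy : stabilizer G y = ⊥) :
    (FP P N).ncard ≤ s ^ 2 - s + 1 ∧ (4 ≤ (FP P N).ncard → ∃ m : ℕ, m + 1 ≤ s ∧
      (FP P N).ncard = m ^ 2 + m + 1 ∧ (FP L N).ncard = m ^ 2 + m + 1 ∧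
      (∀ l ∈ FP L N, {p : P | p ∈ l ∧ p ∈ FP P N}.ncard = m + 1) ∧
      (∀ p ∈ FP P N, {l : L | p ∈ l ∧ l ∈ FP L N}.ncard = m + 1)) := by
  have hss : s * 3 ≤ s ^ 2 := by nlinarith
  by_cases h4 : 4 ≤ (FP P N).ncard
  · obtain ⟨m, h1, h2, h3, h3'⟩ := subplane_counts hinc hP hL (quad_of_card hinc hP hL h4)
    have h5 := bruck hinc h1 h2 h3 (FP_ne_univ hN)
    rw [hn] at h5
    have h6 : m ≤ s := by
      by_contra h
      push Not at h
      have : s ^ 2 < m ^ 2 := Nat.pow_lt_pow_left h (by norm_num)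
      omega
    rcases Nat.lt_or_ge m s with h7 | h7
    · refine ⟨?_, fun _ => ⟨m, h7, h1, h2, h3, h3'⟩⟩
      rw [h1]
      obtain ⟨k, rfl⟩ : ∃ k, s = m + 1 + k := ⟨s - (m + 1), by omega⟩
      have : (m + 1 + k) ^ 2 = m ^ 2 + 2 * m + 1 + (2 * k * (m + 1) + k ^ 2) := by ring
      have h8 : k ≤ 2 * k * (m + 1) := by nlinarith
      omega
    · exfalso
      have hms : m = s := le_antisymm h6 h7
      subst hms
      have hyN : y ∉ FP P N := by
        intro h
        apply hN
        rw [Subgroup.eq_bot_iff_forall]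
        intro g hg
        have : g ∈ stabilizer G y := h g hg
        rw [hy] at this
        exact Subgroup.mem_bot.mp this
      have hf : ∀ q : P, ∃ t : L, q ∈ t ∧ y ∈ t := fun q => exists_line q y
      choose f hf1 hf2 using hf
      obtain ⟨q, hq, q', hq', hqq', hfq⟩ := Set.exists_ne_map_eq_of_ncard_lt_of_maps_to
        (s := FP P N) (t := {t : L | y ∈ t}) (f := f) (by rw [ncard_pencil, h1, hn]; omega)
        (fun q _ => hf2 q)
      set t := f q with ht
      have htN : t ∈ FP L N := fl_of_two hinc hqq' hq hq' (hf1 q) (hfq ▸ hf1 q')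
      have hyt : y ∈ t := hf2 q
      -- the stabilizer of t
      have hM : Nat.card (stabilizer G t) ≤ ({p : P | p ∈ t} \ {p : P | p ∈ t ∧ p ∈ FP P N}).ncard := by
        rw [← Nat.card_coe_set_eq]
        refine Nat.card_le_card_of_injective
          (fun g : stabilizer G t => (⟨(g : G) • y, ?_, ?_⟩ :
            ({p : P | p ∈ t} \ {p : P | p ∈ t ∧ p ∈ FP P N} : Set P))) ?_
        · have := (hinc (g : G) y t).mp hyt
          rwa [g.2] at this
        · rintro ⟨-, h⟩
          apply hyN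
          have := smul_FP h (g : G)⁻¹
          simpa using this
        · intro g g' h
          have h' : (g : G) • y = (g' : G) • y := congrArg Subtype.val h
          have h'' : (g'⁻¹ * g : G) ∈ stabilizer G y := by
            rw [mem_stabilizer_iff, mul_smul, h']; simp
          rw [hy, Subgroup.mem_bot] at h''
          exact Subtype.ext (inv_mul_eq_one.mp h'').symm
      rw [Set.ncard_sdiff (fun p hp => hp.1), h3 t htN, ncard_line (P := P) t, hn] at hM
      have hO : (orbit G t).ncard ≤ (FP L N).ncard := by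
        refine Set.ncard_le_ncard ?_ (Set.toFinite _)
        rintro _ ⟨g, rfl⟩
        exact smul_FP htN g
      rw [h2] at hO
      have hprod := card_orbit_mul_stab (G := G) t
      rw [hG] at hprod
      refine arith (s := m) (v := m ^ 2 - m + 1) (c := Nat.card (stabilizer G t))
        (e := (orbit G t).ncard) (by omega) (by omega) (by omega) ?_
      rw [mul_comm, hprod]; ring
  · exact ⟨by omega, fun h => absurd h h4⟩

end fix

end Pool.Agent.Helper2.Geom
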