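import Mathlib
import Pool.Agent.Helper2.Geom

set_option autoImplicit false

namespace Pool.Agent.Helper2.Geom

open Configuration MulAction

section assembly

variable {P L : Type} [Membership P L] [ProjectivePlane P L]
  {G : Type} [Group G] [MulAction G P] [MulAction G L]

/-- quasiregularity on a set -/
def Quasi (G X : Type) [Group G] [MulAction G X] : Prop :=
  ∀ (g : G) (p q : X), q ∈ orbit G p → g • p = p → g • q = q

theorem stab_normal {X : Type} [MulAction G X] (hq : Quasi G X) (p : X) :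
    (stabilizer G p).Normal := by
  constructor
  intro n hn g
  have h1 : n • (g⁻¹ • p) = g⁻¹ • p := hq n p (g⁻¹ • p) ⟨g⁻¹, rfl⟩ hn
  rw [mem_stabilizer_iff, mul_smul, mul_smul, h1]
  simp

theorem orbit_subset_FP {X : Type} [MulAction G X] (hq : Quasi G X) (p : X) :
    orbit G p ⊆ FP X (stabilizer G p) := fun q hpq g hg => hq g p q hpq hg

theorem stab_eq_of_orbit {X : Type} [MulAction G X] (hq : Quasi G X) {p q : X}
    (h : q ∈ orbit G p) : stabilizer G q = stabilizer G p := by
  apply le_antisymm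
  · intro g hg
    exact hq g q p (mem_orbit_symm.mp h) hg
  · intro g hg
    exact hq g p q h hg

theorem card_eq_sum_orbits {X : Type} [MulAction G X] [Finite X] :
    Nat.card X = ∑ᶠ ω : orbitRel.Quotient G X, (orbit G ω.out).ncard := by
  classical
  have := Fintype.ofFinite (orbitRel.Quotient G X)
  rw [finsum_eq_sum_of_fintype, Nat.card_congr (selfEquivSigmaOrbits G X), Nat.card_sigma]
  rfl

variable (hinc : ∀ (g : G) (p : P) (l : L), p ∈ l ↔ g • p ∈ g • l)
variable (hP : ¬ ∃ p : P, ∀ g : G, g • p = p) (hL : ¬ ∃ l : L, ∀ g : G, g • l = l)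
variable [Finite P] [Finite L] [Finite G] [FaithfulSMul G P] {s : ℕ} (hs : 3 ≤ s)
    (hn : ProjectivePlane.order P L = s ^ 2) (hG : Nat.card G = (s ^ 2 - s + 1) ^ 2)
    (hqP : Quasi G P) (hqL : Quasi G L)
    (horb : Nat.card (orbitRel.Quotient G P) = 2 * s + 1)

theorem vw (hs : 3 ≤ s) : (s ^ 2) ^ 2 + s ^ 2 + 1 = (s ^ 2 - s + 1) * (s ^ 2 + s + 1) := by
  have h : s ≤ s ^ 2 := by nlinarith
  zify [h]
  ring

omit [Finite G] in
include hinc hP hL hs hn hG hqP horb in
theorem exists_regular : ∃ y : P, stabilizer G y = ⊥ := by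
  classical
  by_contra hcon
  push Not at hcon
  have := Fintype.ofFinite (orbitRel.Quotient G P)
  have h1 : ∀ p : P, (orbit G p).ncard ≤ s ^ 2 + s + 1 := by
    intro p
    have := stab_normal hqP p
    exact (Set.ncard_le_ncard (orbit_subset_FP hqP p)).trans
      (fixed_le_w hinc hP hL hn (hcon p))
  have hss : s * 3 ≤ s ^ 2 := by nlinarith
  have hsum := card_eq_sum_orbits (G := G) (X := P)
  rw [finsum_eq_sum_of_fintype, card_P (P := P) (L := L), hn, vw hs] at hsum
  rw [Nat.card_eq_fintype_card] at horb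
  rcases Nat.lt_or_ge 3 s with h4 | h4
  · have h2 : ∑ ω : orbitRel.Quotient G P, (orbit G ω.out).ncard
        ≤ (2 * s + 1) * (s ^ 2 + s + 1) := by
      rw [← horb, ← Finset.card_univ, ← smul_eq_mul, ← Finset.sum_const]
      exact Finset.sum_le_sum (fun ω _ => h1 _)
    rw [← hsum] at h2
    have h3 : s ^ 2 - s + 1 ≤ 2 * s + 1 := Nat.le_of_mul_le_mul_right h2 (by omega)
    have h5 : s * 4 ≤ s ^ 2 := by nlinarith
    omega
  · have hs3 : s = 3 := by omega
    subst hs3
    have h2 : ∀ p : P, (orbit G p).ncard ≤ 7 := by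
      intro p
      have h3 := card_orbit_mul_stab (G := G) p
      rw [hG] at h3
      have h4 := h1 p
      have h5 : (orbit G p).ncard ∣ 49 := ⟨_, by norm_num at h3; exact h3.symm⟩
      norm_num at h4
      have h6 : (orbit G p).ncard ≤ 13 := h4
      generalize (orbit G p).ncard = k at h5 h6
      interval_cases k <;> omega
    have h3 : ∑ ω : orbitRel.Quotient G P, (orbit G ω.out).ncard ≤ (2 * 3 + 1) * 7 := by
      rw [← horb, ← Finset.card_univ, ← smul_eq_mul, ← Finset.sum_const]
      exact Finset.sum_le_sum (fun ω _ => h2 _)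
    omega

/-- The orbit data: `y` is a regular point, `x i` are representatives of the other orbits. -/
structure OrbitData (s : ℕ) (P G : Type) [Group G] [MulAction G P] where
  y : P
  hy : stabilizer G y = ⊥
  I : Type
  finI : Finite I
  cardI : Nat.card I = 2 * s
  x : I → P
  cover : ∀ p : P, p ∈ orbit G y ∨ ∃ i, p ∈ orbit G (x i)
  disj : ∀ i, x i ∉ orbit G y
  disj' : ∀ i j, i ≠ j → x i ∉ orbit G (x j)
  card_orbit : ∀ i, (orbit G (x i)).ncard = s ^ 2 - s + 1

include hinc hP hL hs hn hG hqP horb in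
theorem exists_orbitData (hbig : 2 * Nat.card G > (s ^ 2) ^ 2 + s ^ 2 + 1) :
    Nonempty (OrbitData s P G) := by
  classical
  obtain ⟨y, hy⟩ := exists_regular hinc hP hL hs hn hG hqP horb
  have := Fintype.ofFinite (orbitRel.Quotient G P)
  have hsum := card_eq_sum_orbits (G := G) (X := P)
  rw [finsum_eq_sum_of_fintype, card_P (P := P) (L := L), hn] at hsum
  have hcard := horb
  rw [Nat.card_eq_fintype_card] at hcard
  let ω0 : orbitRel.Quotient G P := Quotient.mk'' y
  have hreg : ∀ p : P, stabilizer G p = ⊥ → (orbit G p).ncard = (s ^ 2 - s + 1) ^ 2 := by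
    intro p hp
    have h := card_orbit_mul_stab (G := G) p
    rw [hp, hG] at h
    simpa using h
  have hω : ∀ ω : orbitRel.Quotient G P, ∀ p : P, p ∈ orbit G ω.out ↔ Quotient.mk'' p = ω := by
    intro ω p
    rw [← orbitRel.Quotient.orbit_eq_orbit_out _ Quotient.out_eq', orbitRel.Quotient.mem_orbit]
  have hy0 : y ∈ orbit G ω0.out := (hω ω0 y).mpr rfl
  have horb0 : orbit G ω0.out = orbit G y := (orbit_eq_iff.mpr hy0).symm
  have hsplit : (orbit G ω0.out).ncard + ∑ ω ∈ Finset.univ.erase ω0, (orbit G ω.out).ncard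
      = ∑ ω : orbitRel.Quotient G P, (orbit G ω.out).ncard :=
    Finset.add_sum_erase Finset.univ
      (fun ω : orbitRel.Quotient G P => (orbit G ω.out).ncard) (Finset.mem_univ ω0)
  rw [← hsum, horb0, hreg y hy] at hsplit
  have hss : s * 3 ≤ s ^ 2 := by nlinarith
  have hle : ∀ ω ∈ Finset.univ.erase ω0, (orbit G ω.out).ncard ≤ s ^ 2 - s + 1 := by
    intro ω hω1
    by_cases hst : stabilizer G ω.out = ⊥
    · exfalso
      have h1 : (orbit G ω.out).ncard ≤ ∑ ω ∈ Finset.univ.erase ω0, (orbit G ω.out).ncard :=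
        Finset.single_le_sum
        (f := fun ω : orbitRel.Quotient G P => (orbit G ω.out).ncard)
        (fun _ _ => Nat.zero_le _) hω1
      rw [hreg _ hst] at h1
      rw [hG] at hbig
      omega
    · have := stab_normal hqP ω.out
      exact (Set.ncard_le_ncard (orbit_subset_FP hqP ω.out)).trans
        (fixed_le_v hinc hP hL hs hn hG hst hy).1
  have hcard' : (Finset.univ.erase ω0).card = 2 * s := by
    rw [Finset.card_erase_of_mem (Finset.mem_univ _), Finset.card_univ, hcard]; rfl
  have heq : ∑ ω ∈ Finset.univ.erase ω0, (orbit G ω.out).ncard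
      = ∑ ω ∈ Finset.univ.erase ω0, (s ^ 2 - s + 1) := by
    rw [Finset.sum_const, hcard', smul_eq_mul]
    have h1 : (s ^ 2) ^ 2 + s ^ 2 + 1 = (s ^ 2 - s + 1) ^ 2 + 2 * s * (s ^ 2 - s + 1) := by
      have h : s ≤ s ^ 2 := by nlinarith
      zify [h]
      ring
    omega
  have heach := (Finset.sum_eq_sum_iff_of_le hle).mp heq
  refine ⟨{ y := y, hy := hy, I := {ω : orbitRel.Quotient G P // ω ≠ ω0}
            finI := inferInstance
            cardI := ?_
            x := fun ω => ω.1.out
            cover := ?_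
            disj := ?_
            disj' := ?_
            card_orbit := ?_ }⟩
  · rw [Nat.card_eq_fintype_card, Fintype.card_subtype_compl]
    simp [hcard]
  · intro p
    by_cases h : (Quotient.mk'' p : orbitRel.Quotient G P) = ω0
    · left
      rw [← horb0]
      exact (hω ω0 p).mpr h
    · right
      exact ⟨⟨_, h⟩, (hω _ p).mpr rfl⟩
  · rintro ⟨ω, h⟩ h1
    rw [← horb0] at h1
    have h2 := (hω ω0 _).mp h1
    rw [Quotient.out_eq'] at h2
    exact h h2
  · rintro ⟨ω, h⟩ ⟨ω', h'⟩ hne h1
    have h2 := (hω ω' _).mp h1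
    rw [Quotient.out_eq'] at h2
    exact hne (Subtype.ext h2)
  · rintro ⟨ω, h⟩
    exact heach ω (Finset.mem_erase.mpr ⟨h, Finset.mem_univ _⟩)

end assembly

end Pool.Agent.Helper2.Geom
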