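import Mathlib
import Pool.Agent.Helper2.Geom2

set_option autoImplicit false

namespace Pool.Agent.Helper2.Geom

open Configuration MulAction

section assembly

variable {P L : Type} [Membership P L] [ProjectivePlane P L]
  {G : Type} [Group G] [MulAction G P] [MulAction G L]

variable (hinc : ∀ (g : G) (p : P) (l : L), p ∈ l ↔ g • p ∈ g • l)
variable (hP : ¬ ∃ p : P, ∀ g : G, g • p = p) (hL : ¬ ∃ l : L, ∀ g : G, g • l = l)
set_option linter.unusedSectionVars false

variable [Finite P] [Finite L] [Finite G] [FaithfulSMul G P] {s : ℕ} (hs : 3 ≤ s)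
    (hn : ProjectivePlane.order P L = s ^ 2) (hG : Nat.card G = (s ^ 2 - s + 1) ^ 2)
    (hqP : Quasi G P) (hqL : Quasi G L) (O : OrbitData s P G)

theorem v_pos : 0 < s ^ 2 - s + 1 := Nat.succ_pos _

theorem v_big {s : ℕ} (hs : 3 ≤ s) : 7 ≤ s ^ 2 - s + 1 := by
  have h : s * 3 ≤ s ^ 2 := by nlinarith
  omega

theorem m_eq {s m : ℕ} (hs : 3 ≤ s) (hm : m + 1 ≤ s) (h : m ^ 2 + m + 1 = s ^ 2 - s + 1) :
    m + 1 = s := by
  by_contra hne
  obtain ⟨k, hk⟩ : ∃ k, s = m + 2 + k := ⟨s - (m + 2), by omega⟩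
  have h1 : s ≤ s ^ 2 := by nlinarith
  have h2 : m ^ 2 + m + s = s ^ 2 := by omega
  rw [hk] at h2
  nlinarith

include hG in
theorem U_card (i : O.I) : Nat.card (stabilizer G (O.x i)) = s ^ 2 - s + 1 := by
  have h := card_orbit_mul_stab (G := G) (O.x i)
  rw [O.card_orbit i, hG, sq (s ^ 2 - s + 1)] at h
  exact Nat.eq_of_mul_eq_mul_left v_pos h

include hG hs in
theorem U_ne_bot (i : O.I) : stabilizer G (O.x i) ≠ ⊥ := by
  intro h
  have h1 := U_card hG O i
  rw [h] at h1
  have := v_big hs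
  simp at h1
  omega

include hinc hP hL hs hn hG O in
/-- all facts about the fixed structure of a nontrivial normal subgroup with at least
`v` fixed points -/
theorem fixed_facts {N : Subgroup G} [N.Normal] (hN : N ≠ ⊥)
    (hbig : s ^ 2 - s + 1 ≤ (FP P N).ncard) :
    (FP P N).ncard = s ^ 2 - s + 1 ∧ (FP L N).ncard = s ^ 2 - s + 1 ∧
      (∀ l ∈ FP L N, {p : P | p ∈ l ∧ p ∈ FP P N}.ncard = s) ∧
      (∀ p ∈ FP P N, {l : L | p ∈ l ∧ l ∈ FP L N}.ncard = s) := by
  have hv := v_big hs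
  obtain ⟨h1, h2⟩ := fixed_le_v hinc hP hL hs hn hG hN O.hy
  obtain ⟨m, h3, h4, h5, h6, h7⟩ := h2 (by omega)
  have h8 : (FP P N).ncard = s ^ 2 - s + 1 := le_antisymm h1 hbig
  have h9 : m + 1 = s := m_eq hs h3 (by omega)
  subst h9
  exact ⟨h8, by omega, h6, h7⟩

include hinc hP hL hs hn hG hqP in
theorem FP_U (i : O.I) : FP P (stabilizer G (O.x i)) = orbit G (O.x i) := by
  have := stab_normal hqP (O.x i)
  symm
  apply Set.eq_of_subset_of_ncard_le (orbit_subset_FP hqP _)
  rw [O.card_orbit i]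
  exact (fixed_le_v hinc hP hL hs hn hG (U_ne_bot hs hG O i) O.hy).1

include hinc hP hL hs hn hG hqP in
theorem U_facts (i : O.I) :
    (FP L (stabilizer G (O.x i))).ncard = s ^ 2 - s + 1 ∧
      (∀ l ∈ FP L (stabilizer G (O.x i)), {p : P | p ∈ l ∧ p ∈ orbit G (O.x i)}.ncard = s) ∧
      (∀ p ∈ orbit G (O.x i), {l : L | p ∈ l ∧ l ∈ FP L (stabilizer G (O.x i))}.ncard = s) := by
  have := stab_normal hqP (O.x i)
  have h1 := FP_U hinc hP hL hs hn hG hqP O i
  have h2 := fixed_facts hinc hP hL hs hn hG O (U_ne_bot hs hG O i)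
    (by rw [h1, O.card_orbit i])
  rw [h1] at h2
  exact h2.2

include hqP in
theorem stab_of_mem (i : O.I) {p : P} (hp : p ∈ orbit G (O.x i)) :
    stabilizer G p = stabilizer G (O.x i) := stab_eq_of_orbit hqP hp

theorem orbits_disjoint (i j : O.I) (hij : i ≠ j) {p : P} (hp : p ∈ orbit G (O.x i))
    (hp' : p ∈ orbit G (O.x j)) : False := by
  apply O.disj' i j hij
  have h1 := orbit_eq_iff.mpr hp
  have h2 := orbit_eq_iff.mpr hp'
  rw [← h2, h1]
  exact mem_orbit_self _

theorem orbits_disjoint' (i : O.I) {p : P} (hp : p ∈ orbit G (O.x i))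
    (hp' : p ∈ orbit G O.y) : False := by
  apply O.disj i
  have h1 := orbit_eq_iff.mpr hp
  have h2 := orbit_eq_iff.mpr hp'
  rw [← h2, h1]
  exact mem_orbit_self _

include hinc hP hL hs hn hG hqP in
theorem U_disjoint (i j : O.I) (hij : i ≠ j) :
    stabilizer G (O.x i) ⊓ stabilizer G (O.x j) = ⊥ := by
  have n1 := stab_normal hqP (O.x i)
  have n2 := stab_normal hqP (O.x j)
  by_contra hne
  have h1 := (fixed_le_v hinc hP hL hs hn hG hne O.hy).1
  have h2 : orbit G (O.x i) ∪ orbit G (O.x j) ⊆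
      FP P (stabilizer G (O.x i) ⊓ stabilizer G (O.x j)) := by
    rintro p (hp | hp)
    · exact FP_mono inf_le_left (orbit_subset_FP hqP _ hp)
    · exact FP_mono inf_le_right (orbit_subset_FP hqP _ hp)
  have h3 := Set.ncard_le_ncard h2
  rw [Set.ncard_union_eq (Set.disjoint_left.mpr (fun p hp hp' => orbits_disjoint O i j hij hp hp')),
    O.card_orbit, O.card_orbit] at h3
  have := v_big hs
  omega

include hinc hP hL hs hn hG hqP in
/-- On a line fixed by `U i`, all points outside orbit `i` are regular. -/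
theorem regular_of_mem (i : O.I) {l : L} (hl : l ∈ FP L (stabilizer G (O.x i))) {p : P}
    (hpl : p ∈ l) (hp : p ∉ orbit G (O.x i)) : p ∈ orbit G O.y := by
  rcases O.cover p with h | ⟨j, hj⟩
  · exact h
  exfalso
  have hij : i ≠ j := fun h => hp (h ▸ hj)
  have hstab := stab_of_mem hqP O j hj
  -- the U i orbit of p is all of orbit j
  have h1 : (Set.range (fun u : stabilizer G (O.x i) => (u : G) • p)).ncard = s ^ 2 - s + 1 := by
    rw [← U_card hG O i, ← Nat.card_coe_set_eq]
    symm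
    apply Nat.card_congr
    apply Equiv.ofInjective
    intro u u' huu
    have h2 : (u : G) • p = (u' : G) • p := huu
    have h3 : (u'⁻¹ * u : G) ∈ stabilizer G p := by
      rw [mem_stabilizer_iff, mul_smul, h2]; simp
    rw [hstab] at h3
    have h4 : (u'⁻¹ * u : G) ∈ stabilizer G (O.x i) ⊓ stabilizer G (O.x j) :=
      ⟨(stabilizer G (O.x i)).mul_mem ((stabilizer G (O.x i)).inv_mem u'.2) u.2, h3⟩
    rw [U_disjoint hinc hP hL hs hn hG hqP O i j hij, Subgroup.mem_bot] at h4
    exact Subtype.ext (inv_mul_eq_one.mp h4).symm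
  have h2 : Set.range (fun u : stabilizer G (O.x i) => (u : G) • p) = orbit G (O.x j) := by
    refine Set.eq_of_subset_of_ncard_le ?_ ?_ (Set.toFinite _)
    · rintro _ ⟨u, rfl⟩
      have h3 := orbit_eq_iff.mpr hj
      rw [← h3]
      exact ⟨(u : G), rfl⟩
    · rw [h1, O.card_orbit]
  have n2 := stab_normal hqP (O.x j)
  obtain ⟨q, hq, hql⟩ := noncollinear hinc hP hL
    (N := stabilizer G (O.x j)) (p0 := p) (orbit_subset_FP hqP _ hj) l
  rw [FP_U hinc hP hL hs hn hG hqP O j, ← h2] at hq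
  obtain ⟨u, rfl⟩ := hq
  apply hql
  have h3 := (hinc (u : G) p l).mp hpl
  rwa [hl u u.2] at h3

include hinc hP hL hs hn hG hqP in
theorem FL_disjoint (i j : O.I) (hij : i ≠ j) {l : L} (hl : l ∈ FP L (stabilizer G (O.x i)))
    (hl' : l ∈ FP L (stabilizer G (O.x j))) : False := by
  have h1 := (U_facts hinc hP hL hs hn hG hqP O i).2.1 l hl
  have h2 : {p : P | p ∈ l ∧ p ∈ orbit G (O.x i)}.Nonempty := by
    rw [← Set.ncard_pos, h1]; omega
  obtain ⟨p, hpl, hp⟩ := h2
  have h3 : p ∉ orbit G (O.x j) := fun h => orbits_disjoint O i j hij hp h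
  exact orbits_disjoint' O i hp (regular_of_mem hinc hP hL hs hn hG hqP O j hl' hpl h3)

include hinc hP hL hs hn hG hqP hqL in
/-- a line in no `FL (U i)` has trivial stabilizer -/
theorem line_regular {d : L} (hd : ∀ i, d ∉ FP L (stabilizer G (O.x i))) :
    stabilizer G d = ⊥ := by
  by_contra hne
  have nM := stab_normal hqL d
  obtain ⟨g, hg⟩ : ∃ g : G, g • d ≠ d := by
    by_contra h
    push Not at h
    exact hL ⟨d, h⟩
  have hdM : d ∈ FP L (stabilizer G d) := fun g hg => hg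
  have hdM' : g • d ∈ FP L (stabilizer G d) := smul_FP hdM g
  have hz := HasPoints.mkPoint_ax (P := P) hg
  set z : P := HasPoints.mkPoint hg with hzdef
  have hzM : z ∈ FP P (stabilizer G d) := fp_of_two hinc hg hdM' hdM hz.1 hz.2
  have hzst : stabilizer G d ≤ stabilizer G z := fun h hh => hzM h hh
  rcases O.cover z with h | ⟨j, hj⟩
  · apply hne
    rw [stab_eq_of_orbit hqP h, O.hy] at hzst
    exact le_bot_iff.mp hzst
  · rw [stab_of_mem hqP O j hj] at hzst
    have h1 : FP P (stabilizer G (O.x j)) ⊆ FP P (stabilizer G d) := FP_mono hzst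
    have h2 := fixed_facts hinc hP hL hs hn hG O hne (by
      rw [← O.card_orbit j, ← FP_U hinc hP hL hs hn hG hqP O j]
      exact Set.ncard_le_ncard h1)
    have h3 : FP P (stabilizer G (O.x j)) = FP P (stabilizer G d) := by
      apply Set.eq_of_subset_of_ncard_le h1
      rw [h2.1, FP_U hinc hP hL hs hn hG hqP O j, O.card_orbit j]
    have h4 := h2.2.2.1 d hdM
    have h5 : 1 < {p : P | p ∈ d ∧ p ∈ FP P (stabilizer G d)}.ncard := by omega
    obtain ⟨p, hp, q, hq, hpq⟩ := (Set.one_lt_ncard).mp h5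
    rw [← h3] at hp hq
    exact hd j (fl_of_two hinc hpq hp.2 hq.2 hp.1 hq.1)

include hinc hP hL hs hn hG hqP hqL in
theorem exists_regular_line : ∃ d : L, stabilizer G d = ⊥ ∧
    ∀ l : L, (∃ i, l ∈ FP L (stabilizer G (O.x i))) ∨ l ∈ orbit G d := by
  classical
  have := O.finI
  have hIf := Fintype.ofFinite O.I
  have hS : Nat.card (Σ i : O.I, FP L (stabilizer G (O.x i))) = 2 * s * (s ^ 2 - s + 1) := by
    rw [Nat.card_sigma]
    have h1 : ∀ i : O.I, Nat.card (FP L (stabilizer G (O.x i))) = s ^ 2 - s + 1 := by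
      intro i
      exact (U_facts hinc hP hL hs hn hG hqP O i).1
    rw [Finset.sum_congr rfl (fun i _ => h1 i), Finset.sum_const, Finset.card_univ,
      ← Nat.card_eq_fintype_card, O.cardI, smul_eq_mul]
  have hLcard : Nat.card L = (s ^ 2 - s + 1) ^ 2 + 2 * s * (s ^ 2 - s + 1) := by
    rw [card_L (P := P), hn]
    have h : s ≤ s ^ 2 := by nlinarith
    zify [h]
    ring
  let F : (Σ i : O.I, FP L (stabilizer G (O.x i))) → L := fun t => t.2
  have hF : Function.Injective F := by
    rintro ⟨i, l, hl⟩ ⟨j, m, hm⟩ h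
    have h' : l = m := h
    subst h'
    have hij : i = j := by
      by_contra hij
      exact FL_disjoint hinc hP hL hs hn hG hqP O i j hij hl hm
    subst hij
    rfl
  have hv := v_big hs
  obtain ⟨d, hd⟩ : ∃ d : L, ∀ i, d ∉ FP L (stabilizer G (O.x i)) := by
    by_contra hcon
    push Not at hcon
    have hsurj : Function.Surjective F := by
      intro l
      obtain ⟨i, hi⟩ := hcon l
      exact ⟨⟨i, l, hi⟩, rfl⟩
    have h1 := Nat.card_le_card_of_surjective F hsurj
    rw [hS, hLcard] at h1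
    have : 0 < (s ^ 2 - s + 1) ^ 2 := by positivity
    omega
  have hdst := line_regular hinc hP hL hs hn hG hqP hqL O hd
  refine ⟨d, hdst, ?_⟩
  have hdcard : Nat.card (orbit G d) = (s ^ 2 - s + 1) ^ 2 := by
    have h := card_orbit_mul_stab (G := G) d
    rw [hdst, hG] at h
    rw [Nat.card_coe_set_eq]
    simpa using h
  let F' : (Σ i : O.I, FP L (stabilizer G (O.x i))) ⊕ orbit G d → L :=
    Sum.elim F (fun l => l)
  have hF' : Function.Injective F' := by
    apply Function.Injective.sumElim hF Subtype.val_injective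
    rintro ⟨i, l, hl⟩ ⟨m, ⟨g, hg⟩⟩ h
    have h' : l = m := h
    subst h'
    have n1 := stab_normal hqP (O.x i)
    apply hd i
    have := smul_FP hl g⁻¹
    have h2 : g • d = l := hg
    rw [← h2] at this
    simpa using this
  have hbij := hF'.bijective_of_nat_card_le (by
    rw [Nat.card_sum, hS, hdcard, hLcard]; omega)
  intro l
  obtain ⟨t, ht⟩ := hbij.2 l
  rcases t with ⟨i, m, hm⟩ | ⟨m, hm⟩
  · left
    have h : m = l := ht
    exact ⟨i, h ▸ hm⟩
  · right
    have h : m = l := ht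
    exact h ▸ hm

include hinc hP hL hs hn hG hqP hqL in
theorem exists_diffset : ∃ D : Set G, ∀ t : G, t ≠ 1 →
    ((∃ i, t ∈ stabilizer G (O.x i)) → ∀ a, a ∈ D → t * a ∉ D) ∧
    ((¬ ∃ i, t ∈ stabilizer G (O.x i)) → ∃! a, a ∈ D ∧ t * a ∈ D) := by
  obtain ⟨d, hd, hcov⟩ := exists_regular_line hinc hP hL hs hn hG hqP hqL O
  have hmeet : ∀ i, ∃ z ∈ orbit G (O.x i), z ∈ d := by
    intro i
    have hx : O.x i ∈ orbit G (O.x i) := mem_orbit_self _
    have h1 := (U_facts hinc hP hL hs hn hG hqP O i).2.2 (O.x i) hx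
    obtain ⟨l, hl1, hl2⟩ : ∃ l : L, O.x i ∈ l ∧ l ∉ FP L (stabilizer G (O.x i)) := by
      by_contra hcon
      push Not at hcon
      have h2 : {l : L | O.x i ∈ l} ⊆ {l : L | O.x i ∈ l ∧ l ∈ FP L (stabilizer G (O.x i))} :=
        fun l hl => ⟨hl, hcon l hl⟩
      have h3 := Set.ncard_le_ncard h2 (Set.toFinite _)
      rw [h1, ncard_pencil, hn] at h3
      nlinarith
    rcases hcov l with ⟨j, hj⟩ | ⟨g, hg⟩
    · exfalso
      have hij : i ≠ j := fun h => hl2 (h ▸ hj)
      have h3 : O.x i ∉ orbit G (O.x j) := O.disj' i j hij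
      exact orbits_disjoint' O i hx (regular_of_mem hinc hP hL hs hn hG hqP O j hj hl1 h3)
    · refine ⟨g⁻¹ • O.x i, ⟨g⁻¹, rfl⟩, ?_⟩
      have h2 : g • d = l := hg
      rw [hinc g]
      simpa [h2] using hl1
  refine ⟨{a | a • O.y ∈ d}, fun t ht => ?_⟩
  have htd : t⁻¹ • d ≠ d := by
    intro h
    apply ht
    have : t⁻¹ ∈ stabilizer G d := h
    rw [hd, Subgroup.mem_bot] at this
    simpa using this
  have hmem : ∀ p : P, t • p ∈ d ↔ p ∈ t⁻¹ • d := by
    intro p
    rw [hinc t⁻¹ (t • p) d]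
    simp
  constructor
  · rintro ⟨i, hi⟩ a ha hta
    have ha' : a • O.y ∈ d := ha
    have hta' : (t * a) • O.y ∈ d := hta
    rw [mul_smul, hmem] at hta'
    obtain ⟨z, hz, hzd⟩ := hmeet i
    have htz : t • z = z := orbit_subset_FP hqP _ hz t hi
    have hzd' : z ∈ t⁻¹ • d := by rw [← hmem, htz]; exact hzd
    have h1 : a • O.y = z := pt_unique htd hta' hzd' ha' hzd
    exact orbits_disjoint' O i hz ⟨a, h1⟩
  · intro hno
    have hz := HasPoints.mkPoint_ax (P := P) htd
    set z : P := HasPoints.mkPoint htd with hzdef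
    have hreg : z ∈ orbit G O.y := by
      rcases O.cover z with h | ⟨j, hj⟩
      · exact h
      · exfalso
        have h1 : t • z ∈ d := (hmem z).mpr hz.1
        by_cases h2 : t • z = z
        · apply hno
          refine ⟨j, ?_⟩
          rw [← stab_of_mem hqP O j hj]
          exact h2
        · have n1 := stab_normal hqP (O.x j)
          have h3 : z ∈ FP P (stabilizer G (O.x j)) := orbit_subset_FP hqP _ hj
          have h4 := fl_of_two hinc h2 (smul_FP h3 t) h3 h1 hz.2
          have h5 : stabilizer G (O.x j) ≤ stabilizer G d := fun g hg => h4 g hg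
          rw [hd] at h5
          exact U_ne_bot hs hG O j (le_bot_iff.mp h5)
    obtain ⟨a, ha⟩ := hreg
    have ha' : a • O.y = z := ha
    refine ⟨a, ⟨?_, ?_⟩, ?_⟩
    · change a • O.y ∈ d
      rw [ha']; exact hz.2
    · change (t * a) • O.y ∈ d
      rw [mul_smul, hmem, ha']
      exact hz.1
    · rintro b ⟨hb1, hb2⟩
      have hb1' : b • O.y ∈ d := hb1
      have hb2' : (t * b) • O.y ∈ d := hb2
      rw [mul_smul, hmem] at hb2'
      have h1 : b • O.y = z := pt_unique htd hb2' hz.1 hb1' hz.2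
      have h2 : (a⁻¹ * b) ∈ stabilizer G O.y := by
        rw [mem_stabilizer_iff, mul_smul, h1, ← ha']; simp
      rw [O.hy, Subgroup.mem_bot] at h2
      exact (inv_mul_eq_one.mp h2).symm

end assembly

end Pool.Agent.Helper2.Geom
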