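import Mathlib

/-!
# Lemmas on the Newton covering number

`N*(C)` is the least number of congruent copies of the convex body `C` whose union contains a
neighbourhood of `C`.
-/

namespace Pool.Agent.Helper2.NewtonCover

open Set Metric Complex

/-- The union of `n` congruent copies of `C` contains a neighbourhood of `C`. -/
def Covers {E : Type*} [PseudoMetricSpace E] (C : Set E) (n : ℕ) : Prop :=
  ∃ (g : Fin n → (E ≃ᵢ E)) (U : Set E), IsOpen U ∧ C ⊆ U ∧ U ⊆ ⋃ i, g i '' C

theorem Covers.image {E F : Type*} [PseudoMetricSpace E] [PseudoMetricSpace F] (e : E ≃ᵢ F)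
    {C : Set E} {n : ℕ} (h : Covers C n) : Covers (e '' C) n := by
  obtain ⟨g, U, hU, hCU, hUg⟩ := h
  refine ⟨fun i => (e.symm.trans (g i)).trans e, e '' U, e.toHomeomorph.isOpenMap U hU,
    image_mono hCU, ?_⟩
  rintro _ ⟨x, hx, rfl⟩
  obtain ⟨i, y, hy, hyx⟩ := mem_iUnion.1 (hUg hx)
  refine mem_iUnion.2 ⟨i, e y, mem_image_of_mem e hy, ?_⟩
  simp [hyx]

theorem coverA {C : Set ℂ} (hc : Convex ℝ C) (hk : IsCompact C) {v1 v2 : ℂ} (g : ℂ ≃ᵢ ℂ)
    (h : ∀ p ∈ C, (∃ t : ℝ, 0 < t ∧ p + t • v1 ∈ interior C) ∨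
      (∃ t : ℝ, 0 < t ∧ p + t • v2 ∈ interior C) ∨ p ∈ interior (g '' C)) :
    Covers C 3 := by
  let s : ℕ → ℝ := fun n => 1 / ((n : ℝ) + 1)
  have hs0 : ∀ n, 0 < s n := fun n => by positivity
  let W : ℂ → ℕ → Set ℂ := fun v n => (fun p => p + s n • v) ⁻¹' interior C
  have hWo : ∀ v n, IsOpen (W v n) := fun v n =>
    isOpen_interior.preimage (by fun_prop)
  have hWm : ∀ v : ℂ, ∀ p ∈ C, ∀ t : ℝ, p + t • v ∈ interior C → ∀ n, 0 < t → s n ≤ t →
      p ∈ W v n := by
    intro v p hp t ht n ht0 hle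
    have := hc.add_smul_mem_interior hp ht (t := s n / t)
      ⟨by have := hs0 n; positivity, by rw [div_le_one ht0]; exact hle⟩
    have h2 : (s n / t) • (t • v) = s n • v := by
      rw [smul_smul, div_mul_cancel₀ _ ht0.ne']
    rw [h2] at this
    exact this
  let U : ℕ → Set ℂ := fun n => W v1 n ∪ W v2 n ∪ interior (g '' C)
  have hUo : ∀ n, IsOpen (U n) := fun n =>
    ((hWo v1 n).union (hWo v2 n)).union isOpen_interior
  have hsmall : ∀ t : ℝ, 0 < t → ∃ n, s n ≤ t := by
    intro t ht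
    obtain ⟨n, hn⟩ := exists_nat_one_div_lt ht
    exact ⟨n, hn.le⟩
  have hcov : C ⊆ ⋃ n, U n := by
    intro p hp
    rcases h p hp with ⟨t, ht, hin⟩ | ⟨t, ht, hin⟩ | hin
    · obtain ⟨n, hn⟩ := hsmall t ht
      exact mem_iUnion.2 ⟨n, Or.inl (Or.inl (hWm v1 p hp t hin n ht hn))⟩
    · obtain ⟨n, hn⟩ := hsmall t ht
      exact mem_iUnion.2 ⟨n, Or.inl (Or.inr (hWm v2 p hp t hin n ht hn))⟩
    · exact mem_iUnion.2 ⟨0, Or.inr hin⟩
  obtain ⟨T, hT⟩ := hk.elim_finite_subcover U hUo hcov
  set N := T.sup id with hN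
  have hsmono : ∀ m n, m ≤ n → s n ≤ s m := by
    intro m n hmn
    exact Nat.one_div_le_one_div hmn
  have hCU : C ⊆ U N := by
    intro p hp
    obtain ⟨n, hn⟩ := mem_iUnion.1 (hT hp)
    obtain ⟨hnT, hpn⟩ := mem_iUnion.1 hn
    have hle : n ≤ N := Finset.le_sup (f := id) hnT
    rcases hpn with (h1 | h1) | h1
    · exact Or.inl (Or.inl (hWm v1 p hp (s n) h1 N (hs0 n) (hsmono n N hle)))
    · exact Or.inl (Or.inr (hWm v2 p hp (s n) h1 N (hs0 n) (hsmono n N hle)))
    · exact Or.inr h1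
  refine ⟨![IsometryEquiv.addRight (-(s N • v1)), IsometryEquiv.addRight (-(s N • v2)), g],
    U N, hUo N, hCU, ?_⟩
  rintro p ((h1 | h1) | h1)
  · refine mem_iUnion.2 ⟨0, ?_⟩
    exact ⟨p + s N • v1, interior_subset h1, by simp⟩
  · refine mem_iUnion.2 ⟨1, ?_⟩
    exact ⟨p + s N • v2, interior_subset h1, by simp⟩
  · refine mem_iUnion.2 ⟨2, ?_⟩
    exact interior_subset h1

theorem illum {C : Set ℂ} (hc : Convex ℝ C) {p c o : ℂ} (hcC : c ∈ C) (ho : o ∈ interior C)
    {σ η : ℝ} (hσ : σ * σ = 1) (hη : 0 < η)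
    (hA : c.im - p.im < η * (σ * (c.re - p.re)))
    (hB : η * (σ * (o.re - p.re)) < o.im - p.im) (h1 : p.im ≤ c.im) (h2 : p.im < o.im) :
    ∃ t : ℝ, 0 < t ∧ p + t • ((⟨σ, η⟩ : ℂ)) ∈ interior C := by
  set A : ℝ := η * (σ * (c.re - p.re)) - (c.im - p.im) with hAd
  set B : ℝ := (o.im - p.im) - η * (σ * (o.re - p.re)) with hBd
  have hA0 : 0 < A := by rw [hAd]; linarith
  have hB0 : 0 < B := by rw [hBd]; linarith
  have hAB : 0 < A + B := by linarith
  have hq : (A / (A + B)) • o + (B / (A + B)) • c ∈ interior C :=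
    hc.combo_interior_self_mem_interior ho hcC (by positivity) (by positivity)
      (by field_simp)
  set q : ℂ := (A / (A + B)) • o + (B / (A + B)) • c with hqd
  have hre : q.re = (A * o.re + B * c.re) / (A + B) := by
    rw [hqd]; simp only [add_re, real_smul, mul_re, ofReal_re, ofReal_im]; field_simp; ring
  have him : q.im = (A * o.im + B * c.im) / (A + B) := by
    rw [hqd]; simp only [add_im, real_smul, mul_im, ofReal_re, ofReal_im]; field_simp; ring
  have hline : q.im - p.im = η * (σ * (q.re - p.re)) := by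
    rw [hre, him]
    field_simp
    rw [hAd, hBd]
    ring
  have hpos : 0 < q.im - p.im := by
    have : q.im - p.im = (A * (o.im - p.im) + B * (c.im - p.im)) / (A + B) := by
      rw [him]; field_simp; ring
    rw [this]
    apply div_pos _ hAB
    have e1 : 0 < A * (o.im - p.im) := mul_pos hA0 (by linarith)
    have e2 : 0 ≤ B * (c.im - p.im) := mul_nonneg hB0.le (by linarith)
    linarith
  refine ⟨(q.im - p.im) / η, div_pos hpos hη, ?_⟩
  have : p + ((q.im - p.im) / η) • (⟨σ, η⟩ : ℂ) = q := by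
    apply Complex.ext
    · simp only [add_re, real_smul, mul_re, ofReal_re, ofReal_im]
      rw [hline]
      field_simp
      linear_combination (q.re - p.re) * hσ
    · simp only [add_im, real_smul, mul_im, ofReal_re, ofReal_im]
      field_simp
      ring
  rw [this]
  exact hq

theorem lemmaB {C : Set ℂ} (hc : Convex ℝ C) (hk : IsCompact C) (hne : (interior C).Nonempty)
    {M : ℝ} (hM : ∀ z ∈ C, z.im ≤ M) {f : ℂ} (hf : f ∈ C) (hfM : f.im = M)
    (hP : ∀ p ∈ C, p.im < M → ∀ η : ℝ, 0 < η →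
      ∃ c ∈ C, p.im ≤ c.im ∧ c.im - p.im < η * |c.re - p.re|)
    (g : ℂ ≃ᵢ ℂ) (hg : ∀ z ∈ C, z.im = M → z ∈ interior (g '' C)) : Covers C 3 := by
  have hK : IsCompact (C \ interior (g '' C)) := hk.diff isOpen_interior
  rcases (C \ interior (g '' C)).eq_empty_or_nonempty with hemp | hnonemp
  · apply coverA hc hk (v1 := 1) (v2 := 1) g
    intro p hp
    right; right
    by_contra hcon
    have : p ∈ C \ interior (g '' C) := ⟨hp, hcon⟩
    rw [hemp] at this
    exact this
  obtain ⟨p0, hp0, hmax⟩ := hK.exists_isMaxOn hnonemp Complex.continuous_im.continuousOn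
  set δ : ℝ := M - p0.im with hδ
  have hδ0 : 0 < δ := by
    have h1 := hM p0 hp0.1
    have h2 : p0.im ≠ M := fun h => hp0.2 (hg p0 hp0.1 h)
    have := lt_of_le_of_ne h1 h2
    rw [hδ]; linarith
  obtain ⟨R, hR0, hR⟩ := hk.isBounded.exists_pos_norm_le
  have hre : ∀ z ∈ C, ∀ w ∈ C, |z.re - w.re| ≤ 2 * R := by
    intro z hz w hw
    have h1 := (Complex.abs_re_le_norm z).trans (hR z hz)
    have h2 := (Complex.abs_re_le_norm w).trans (hR w hw)
    calc |z.re - w.re| ≤ |z.re| + |w.re| := abs_sub _ _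
      _ ≤ 2 * R := by linarith
  set η : ℝ := δ / (4 * R) with hη
  have hη0 : 0 < η := by positivity
  have hηR : η * (2 * R) = δ / 2 := by rw [hη]; field_simp; ring
  apply coverA hc hk (v1 := ⟨1, η⟩) (v2 := ⟨-1, η⟩) g
  intro p hp
  by_cases hin : p ∈ interior (g '' C)
  · right; right; exact hin
  have hple : p.im ≤ p0.im := hmax ⟨hp, hin⟩
  have hpM : p.im < M := by rw [hδ] at hδ0; linarith
  obtain ⟨c, hcC, hc1, hc2⟩ := hP p hp hpM η hη0
  -- choose the interior point
  have key : ∀ σ : ℝ, |σ| = 1 → ∃ o ∈ interior C,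
      η * (σ * (o.re - p.re)) < o.im - p.im ∧ p.im < o.im := by
    intro σ hσ
    have hfcl : f ∈ closure (interior C) := by
      rw [hc.closure_interior_eq_closure_of_nonempty_interior hne]
      exact subset_closure hf
    have hopen : IsOpen {z : ℂ | η * (σ * (z.re - p.re)) < z.im - p.im ∧ p.im < z.im} := by
      have h1 : IsOpen {z : ℂ | η * (σ * (z.re - p.re)) < z.im - p.im} :=
        isOpen_lt (by fun_prop) (by fun_prop)
      have h2 : IsOpen {z : ℂ | p.im < z.im} := isOpen_lt (by fun_prop) (by fun_prop)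
      exact h1.inter h2
    have hfm : f ∈ {z : ℂ | η * (σ * (z.re - p.re)) < z.im - p.im ∧ p.im < z.im} := by
      refine ⟨?_, by rw [hfM]; exact hpM⟩
      have h1 : σ * (f.re - p.re) ≤ 2 * R := by
        calc σ * (f.re - p.re) ≤ |σ * (f.re - p.re)| := le_abs_self _
          _ = |f.re - p.re| := by rw [abs_mul, hσ, one_mul]
          _ ≤ 2 * R := hre f hf p hp
      have h2 : η * (σ * (f.re - p.re)) ≤ δ / 2 := by
        rw [← hηR]; exact mul_le_mul_of_nonneg_left h1 hη0.le
      rw [hfM]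
      have : δ ≤ M - p.im := by rw [hδ]; linarith
      linarith
    obtain ⟨o, ho1, ho2⟩ := mem_closure_iff.1 hfcl _ hopen hfm
    exact ⟨o, ho2, ho1.1, ho1.2⟩
  have habs : 0 < |c.re - p.re| := by
    by_contra hcon
    have h0 : |c.re - p.re| = 0 := le_antisymm (not_lt.1 hcon) (abs_nonneg _)
    rw [h0, mul_zero] at hc2
    linarith
  rcases lt_or_gt_of_ne (abs_pos.1 habs) with hneg | hpos
  · obtain ⟨o, ho, hB, h2⟩ := key (-1) (by simp)
    right; left
    have hA : c.im - p.im < η * ((-1) * (c.re - p.re)) := by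
      rw [abs_of_neg hneg] at hc2
      linarith
    exact illum hc hcC ho (by norm_num) hη0 hA hB hc1 h2
  · obtain ⟨o, ho, hB, h2⟩ := key 1 (by simp)
    left
    have hA : c.im - p.im < η * (1 * (c.re - p.re)) := by
      rw [abs_of_pos hpos] at hc2
      linarith
    exact illum hc hcC ho (by norm_num) hη0 hA hB hc1 h2

theorem hP_of {C : Set ℂ} (hc : Convex ℝ C) (hne : (interior C).Nonempty) {m M : ℝ}
    {b f : ℂ} (hb : b ∈ C) (hbm : b.im = m) (hf : f ∈ C) (hfM : f.im = M)
    (hm : ∀ z ∈ C, m ≤ z.im)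
    (hbot : ∀ p ∈ C, p.im = m → ∀ η : ℝ, 0 < η → ∃ c ∈ C, c.im - m < η * |c.re - p.re|) :
    ∀ p ∈ C, p.im < M → ∀ η : ℝ, 0 < η →
      ∃ c ∈ C, p.im ≤ c.im ∧ c.im - p.im < η * |c.re - p.re| := by
  intro p hp hpM η hη
  rcases eq_or_lt_of_le (hm p hp) with h0 | hlt
  · obtain ⟨c, hcC, hc1⟩ := hbot p hp h0.symm η hη
    exact ⟨c, hcC, by rw [← h0]; exact hm c hcC, by rw [← h0]; exact hc1⟩
  -- two points at the same height
  have two : ∀ z1 ∈ C, ∀ z2 ∈ C, z1.im = p.im → z2.im = p.im → z1.re ≠ z2.re →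
      ∃ c ∈ C, p.im ≤ c.im ∧ c.im - p.im < η * |c.re - p.re| := by
    intro z1 h1 z2 h2 e1 e2 hne12
    by_cases hz : z1.re = p.re
    · have : z2.re - p.re ≠ 0 := by rw [← hz]; exact sub_ne_zero.2 (Ne.symm hne12)
      refine ⟨z2, h2, e2.ge, ?_⟩
      rw [e2, sub_self]
      have := abs_pos.2 this
      positivity
    · have : z1.re - p.re ≠ 0 := sub_ne_zero.2 hz
      refine ⟨z1, h1, e1.ge, ?_⟩
      rw [e1, sub_self]
      have := abs_pos.2 this
      positivity
  obtain ⟨o, ho⟩ := hne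
  obtain ⟨ε, hε, hball⟩ := Metric.isOpen_iff.1 isOpen_interior o ho
  have hside : ∀ r : ℝ, |r| < ε → o + (r : ℂ) ∈ C := by
    intro r hr
    apply interior_subset
    apply hball
    rw [mem_ball, dist_eq_norm]
    simpa using hr
  have ho1 : o + ((ε / 2 : ℝ) : ℂ) ∈ C := hside _ (by rw [abs_of_pos (by linarith)]; linarith)
  have ho2 : o + ((-(ε / 2) : ℝ) : ℂ) ∈ C := hside _ (by
    rw [abs_neg, abs_of_pos (by linarith)]; linarith)
  have comb : ∀ w ∈ C, ∀ l : ℝ, 0 ≤ l → l < 1 → (1 - l) * o.im + l * w.im = p.im →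
      ∃ c ∈ C, p.im ≤ c.im ∧ c.im - p.im < η * |c.re - p.re| := by
    intro w hw l hl0 hl1 hlp
    apply two ((1 - l) • (o + ((ε / 2 : ℝ) : ℂ)) + l • w)
      (hc ho1 hw (by linarith) hl0 (by ring))
      ((1 - l) • (o + ((-(ε / 2) : ℝ) : ℂ)) + l • w)
      (hc ho2 hw (by linarith) hl0 (by ring))
    · simp only [add_im, real_smul, mul_im, ofReal_re, ofReal_im]
      linarith
    · simp only [add_im, real_smul, mul_im, ofReal_re, ofReal_im]
      linarith
    · simp only [add_re, real_smul, mul_re, ofReal_re, ofReal_im, add_im]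
      intro h
      nlinarith
  rcases le_total o.im p.im with hle | hle
  · have hMo : 0 < M - o.im := by linarith
    apply comb f hf ((p.im - o.im) / (M - o.im)) (div_nonneg (by linarith) hMo.le)
      (by rw [div_lt_one hMo]; linarith)
    rw [hfM]
    field_simp
    ring
  · rcases eq_or_lt_of_le hle with heq | hlt2
    · apply comb f hf 0 le_rfl one_pos
      rw [heq]; ring
    · have hmo : 0 < o.im - m := by linarith
      apply comb b hb ((o.im - p.im) / (o.im - m)) (div_nonneg (by linarith) hmo.le)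
        (by rw [div_lt_one hmo]; linarith)
      rw [hbm]
      field_simp
      ring

theorem lemmaT {C : Set ℂ} (hc : Convex ℝ C) (hk : IsCompact C) (hne : (interior C).Nonempty)
    {M : ℝ} {f x0 y0 : ℂ} (hf : f ∈ C) (hfM : f.im = M) (hx0 : x0 ∈ C) (hy0 : y0 ∈ C)
    (hlt : ∀ f1 ∈ C, ∀ f2 ∈ C, f1.im = M → f2.im = M → f2.re - f1.re < dist x0 y0) :
    ∃ g : ℂ ≃ᵢ ℂ, ∀ z ∈ C, z.im = M → z ∈ interior (g '' C) := by
  have hFk : IsCompact (C ∩ {z : ℂ | z.im = M}) :=
    hk.inter_right (isClosed_eq Complex.continuous_im continuous_const)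
  have hFne : (C ∩ {z : ℂ | z.im = M}).Nonempty := ⟨f, hf, hfM⟩
  obtain ⟨f1, hf1, hmin⟩ := hFk.exists_isMinOn hFne Complex.continuous_re.continuousOn
  obtain ⟨f2, hf2, hmax⟩ := hFk.exists_isMaxOn hFne Complex.continuous_re.continuousOn
  have hL := hlt f1 hf1.1 f2 hf2.1 hf1.2 hf2.2
  -- interior points at distance larger than `f2.re - f1.re`
  have hcl : closure (interior C) = closure C :=
    hc.closure_interior_eq_closure_of_nonempty_interior hne
  have hxy : (x0, y0) ∈ closure (interior C ×ˢ interior C) := by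
    rw [closure_prod_eq, hcl]
    exact ⟨subset_closure hx0, subset_closure hy0⟩
  have hopen : IsOpen {w : ℂ × ℂ | f2.re - f1.re < dist w.1 w.2} :=
    isOpen_lt continuous_const (by fun_prop)
  obtain ⟨⟨x, y⟩, hw1, hw2⟩ := mem_closure_iff.1 hxy _ hopen hL
  have hx : x ∈ interior C := hw2.1
  have hy : y ∈ interior C := hw2.2
  have hd : f2.re - f1.re < dist x y := hw1
  have hL0 : 0 ≤ f2.re - f1.re := by
    have : f1.re ≤ f2.re := hmin hf2
    linarith
  set d : ℝ := dist x y with hdd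
  have hd0 : 0 < d := lt_of_le_of_lt hL0 hd
  have hyx : y - x ≠ 0 := by
    intro h
    have : d = 0 := by rw [hdd, dist_comm, dist_eq_norm, h, norm_zero]
    linarith
  have hnorm : ‖y - x‖ = d := by rw [hdd, dist_comm, dist_eq_norm]
  set α : ℂ := (d : ℂ) / (y - x) with hα
  have hα1 : ‖α‖ = 1 := by
    rw [hα, norm_div, hnorm, Complex.norm_real, Real.norm_of_nonneg hd0.le]
    exact div_self hd0.ne'
  have hα0 : α ≠ 0 := by
    intro h; rw [h, norm_zero] at hα1; exact zero_ne_one hα1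
  let g : ℂ ≃ᵢ ℂ := IsometryEquiv.mk' (fun z => α * (z - x) + f1) (fun w => α⁻¹ * (w - f1) + x)
    (by intro w; field_simp; ring)
    (by
      apply Isometry.of_dist_eq
      intro z w
      rw [dist_eq_norm, dist_eq_norm]
      have : α * (z - x) + f1 - (α * (w - x) + f1) = α * (z - w) := by ring
      rw [this, norm_mul, hα1, one_mul])
  refine ⟨g, ?_⟩
  intro z hz hzM
  have hz1 : f1.re ≤ z.re := hmin ⟨hz, hzM⟩
  have hz2 : z.re ≤ f2.re := hmax ⟨hz, hzM⟩
  set s : ℝ := z.re - f1.re with hs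
  have hs0 : 0 ≤ s := by rw [hs]; linarith
  have hsd : s ≤ d := by rw [hs]; linarith
  have hw : (1 - s / d) • x + (s / d) • y ∈ interior C :=
    hc.interior hx hy (by rw [sub_nonneg, div_le_one hd0]; exact hsd) (by positivity) (by ring)
  have himg : g '' interior C = interior (g '' C) := g.toHomeomorph.image_interior C
  rw [← himg]
  refine ⟨_, hw, ?_⟩
  show α * ((1 - s / d) • x + (s / d) • y - x) + f1 = z
  have h1 : (1 - s / d) • x + (s / d) • y - x = ((s / d : ℝ) : ℂ) * (y - x) := by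
    simp only [real_smul]
    push_cast
    ring
  rw [h1, hα]
  have h2 : (d : ℂ) / (y - x) * (((s / d : ℝ) : ℂ) * (y - x)) = (s : ℂ) := by
    have hdc : (d : ℂ) ≠ 0 := by exact_mod_cast hd0.ne'
    push_cast
    field_simp
  rw [h2]
  apply Complex.ext
  · simp [hs]
  · simp only [add_im, ofReal_im, zero_add]
    rw [hzM]; exact hf1.2

theorem half {C : Set ℂ} (hc : Convex ℝ C) (hk : IsCompact C) (hne : (interior C).Nonempty)
    {m M : ℝ} {b f x0 y0 : ℂ} (hb : b ∈ C) (hbm : b.im = m) (hf : f ∈ C) (hfM : f.im = M)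
    (hm : ∀ z ∈ C, m ≤ z.im) (hM : ∀ z ∈ C, z.im ≤ M) (hx0 : x0 ∈ C) (hy0 : y0 ∈ C)
    (hbot : ∀ p ∈ C, p.im = m → ∀ η : ℝ, 0 < η → ∃ c ∈ C, c.im - m < η * |c.re - p.re|)
    (hlt : ∀ f1 ∈ C, ∀ f2 ∈ C, f1.im = M → f2.im = M → f2.re - f1.re < dist x0 y0) :
    Covers C 3 := by
  obtain ⟨g, hg⟩ := lemmaT hc hk hne hf hfM hx0 hy0 hlt
  exact lemmaB hc hk hne hM hf hfM (hP_of hc hne hb hbm hf hfM hm hbot) g hg

theorem core {C : Set ℂ} (hc : Convex ℝ C) (hk : IsCompact C) {o : ℂ} {r : ℝ} (hr : 0 < r)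
    (hball : closedBall o r ⊆ C) (hm : ∀ z ∈ C, o.im - r ≤ z.im) : Covers C 3 := by
  have hne : (interior C).Nonempty := by
    refine ⟨o, ?_⟩
    exact interior_mono hball (ball_subset_interior_closedBall (mem_ball_self hr))
  set p0 : ℂ := ⟨o.re, o.im - r⟩ with hp0
  have hp0C : p0 ∈ C := by
    apply hball
    rw [mem_closedBall, dist_eq_norm]
    have : p0 - o = ((-r : ℝ) : ℂ) * I := by
      apply Complex.ext <;> simp [hp0]
    rw [this]
    simp [abs_of_pos hr]
  set m : ℝ := o.im - r with hmd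
  have hoC : o ∈ C := hball (mem_closedBall_self hr.le)
  obtain ⟨f, hf, hfmax⟩ := hk.exists_isMaxOn ⟨o, hoC⟩ Complex.continuous_im.continuousOn
  have hM : ∀ z ∈ C, z.im ≤ f.im := fun z hz => hfmax hz
  have hmM : m < f.im := by
    have := hM o hoC
    rw [hmd]; linarith
  obtain ⟨⟨x0, y0⟩, hxy, hdmax⟩ := (hk.prod hk).exists_isMaxOn ⟨(o, o), hoC, hoC⟩
    (continuous_dist.continuousOn (s := C ×ˢ C))
  have hD : ∀ z ∈ C, ∀ w ∈ C, dist z w ≤ dist x0 y0 := fun z hz w hw =>
    hdmax (show (z, w) ∈ C ×ˢ C from ⟨hz, hw⟩)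
  have hbot : ∀ p ∈ C, p.im = m → ∀ η : ℝ, 0 < η → ∃ c ∈ C, c.im - m < η * |c.re - p.re| := by
    intro p hp hpm η hη
    by_cases hre : p.re = p0.re
    · -- a point of the disc
      set x : ℝ := min r (η * r / 2) with hx
      have hx0 : 0 < x := lt_min hr (by positivity)
      have hxr : x ≤ r := min_le_left _ _
      have hxη : x ≤ η * r / 2 := min_le_right _ _
      refine ⟨⟨o.re + x, o.im - r + x ^ 2 / r⟩, ?_, ?_⟩
      · apply hball
        rw [mem_closedBall, dist_eq_norm]
        have h1 : (⟨o.re + x, o.im - r + x ^ 2 / r⟩ : ℂ) - o = ⟨x, -r + x ^ 2 / r⟩ := by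
          apply Complex.ext
          · simp
          · simp; ring
        rw [h1]
        apply le_of_sq_le_sq _ hr.le
        rw [← Complex.normSq_eq_norm_sq, Complex.normSq_mk]
        have h2 : (-r + x ^ 2 / r) * (-r + x ^ 2 / r) = r ^ 2 - 2 * x ^ 2 + (x ^ 2 / r) ^ 2 := by
          field_simp; ring
        have h3 : (x ^ 2 / r) ^ 2 ≤ x ^ 2 := by
          have : x ^ 2 / r ≤ x := by
            rw [div_le_iff₀ hr]; nlinarith
          apply pow_le_pow_left₀ (by positivity) this
        nlinarith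
      · have e1 : (⟨o.re + x, o.im - r + x ^ 2 / r⟩ : ℂ).re - p.re = x := by
          rw [hre]; simp [hp0]
        rw [e1, abs_of_pos hx0]
        show o.im - r + x ^ 2 / r - m < η * x
        rw [hmd]
        have : x ^ 2 / r ≤ η * x / 2 := by
          rw [div_le_iff₀ hr]; nlinarith
        have h4 : 0 < η * x := by positivity
        linarith
    · refine ⟨p0, hp0C, ?_⟩
      have h1 : p0.im = m := rfl
      rw [h1, sub_self]
      have : 0 < |p0.re - p.re| := abs_pos.2 (sub_ne_zero.2 (Ne.symm hre))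
      positivity
  by_cases hcase : ∀ f1 ∈ C, ∀ f2 ∈ C, f1.im = f.im → f2.im = f.im →
      f2.re - f1.re < dist x0 y0
  · exact half hc hk hne hp0C rfl hf rfl hm hM hxy.1 hxy.2 hbot hcase
  -- otherwise turn the body around
  push Not at hcase
  obtain ⟨f1, hf1, f2, hf2, e1, e2, hle⟩ := hcase
  have hD0 : 0 < dist x0 y0 := by
    have h1 := hD p0 hp0C f hf
    have h2 : 0 < dist p0 f := by
      rw [dist_pos]
      intro h
      have : p0.im = f.im := by rw [h]
      have h3 : p0.im = m := rfl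
      linarith
    linarith
  have hneg : Covers ((fun z : ℂ => -z) '' C) 3 := by
    have hc' : Convex ℝ ((fun z : ℂ => -z) '' C) := by
      have := hc.neg
      rwa [← image_neg_eq_neg] at this
    have hk' : IsCompact ((fun z : ℂ => -z) '' C) := hk.image continuous_neg
    have hne' : (interior ((fun z : ℂ => -z) '' C)).Nonempty := by
      obtain ⟨w, hw⟩ := hne
      refine ⟨-w, ?_⟩
      have : (fun z : ℂ => -z) '' interior C = interior ((fun z : ℂ => -z) '' C) :=
        (Homeomorph.neg ℂ).image_interior C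
      rw [← this]
      exact ⟨w, hw, rfl⟩
    apply half (m := -f.im) (M := -m) (b := -f) (f := -p0) (x0 := -x0) (y0 := -y0) hc' hk' hne'
      ⟨f, hf, rfl⟩ (by simp) ⟨p0, hp0C, rfl⟩ (by simp [hp0, hmd])
    · rintro _ ⟨z, hz, rfl⟩
      simpa using hM z hz
    · rintro _ ⟨z, hz, rfl⟩
      have := hm z hz
      simp only [neg_im]
      linarith
    · exact ⟨x0, hxy.1, rfl⟩
    · exact ⟨y0, hxy.2, rfl⟩
    · rintro _ ⟨p, hp, rfl⟩ hpm η hη
      by_cases h1 : f1.re = p.re
      · refine ⟨-f2, ⟨f2, hf2, rfl⟩, ?_⟩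
        simp only [neg_im, neg_re]
        rw [e2]
        have : (-f2.re - -p.re) ≠ 0 := by
          intro h
          have : f2.re - f1.re = 0 := by linarith
          linarith
        have h3 := abs_pos.2 this
        have h4 : 0 < η * |(-f2.re - -p.re)| := mul_pos hη h3
        linarith
      · refine ⟨-f1, ⟨f1, hf1, rfl⟩, ?_⟩
        simp only [neg_im, neg_re]
        rw [e1]
        have : (-f1.re - -p.re) ≠ 0 := by
          intro h
          apply h1
          linarith
        have h3 := abs_pos.2 this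
        have h4 : 0 < η * |(-f1.re - -p.re)| := mul_pos hη h3
        linarith
    · rintro _ ⟨g1, hg1, rfl⟩ _ ⟨g2, hg2, rfl⟩ i1 i2
      simp only [neg_im, neg_inj, neg_re] at i1 i2 ⊢
      rw [dist_neg_neg]
      by_contra hcon
      push Not at hcon
      -- `g1.re - g2.re ≥ D` and `f2.re - f1.re ≥ D`
      have hh : 0 < f.im - m := by linarith
      have q1 : |f2.re - g2.re| < dist x0 y0 := by
        have h5 := hD f2 hf2 g2 hg2
        rw [dist_eq_norm] at h5
        have h6 : (f2.re - g2.re) ^ 2 + (f.im - m) ^ 2 ≤ dist x0 y0 ^ 2 := by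
          have h7 : ‖f2 - g2‖ ^ 2 ≤ dist x0 y0 ^ 2 := pow_le_pow_left₀ (norm_nonneg _) h5 2
          rw [← Complex.normSq_eq_norm_sq, Complex.normSq_apply] at h7
          simp only [sub_re, sub_im] at h7
          rw [e2, i2] at h7
          nlinarith
        apply abs_lt_of_sq_lt_sq _ hD0.le
        have : 0 < (f.im - m) ^ 2 := by positivity
        linarith
      have q2 : |g1.re - f1.re| < dist x0 y0 := by
        have h5 := hD g1 hg1 f1 hf1
        rw [dist_eq_norm] at h5
        have h6 : (g1.re - f1.re) ^ 2 + (f.im - m) ^ 2 ≤ dist x0 y0 ^ 2 := by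
          have h7 : ‖g1 - f1‖ ^ 2 ≤ dist x0 y0 ^ 2 := pow_le_pow_left₀ (norm_nonneg _) h5 2
          rw [← Complex.normSq_eq_norm_sq, Complex.normSq_apply] at h7
          simp only [sub_re, sub_im] at h7
          rw [e1, i1] at h7
          nlinarith
        apply abs_lt_of_sq_lt_sq _ hD0.le
        have : 0 < (f.im - m) ^ 2 := by positivity
        linarith
      have r1 := (abs_lt.1 q1).2
      have r2 := (abs_lt.1 q2).2
      linarith
  have hback := hneg.image (IsometryEquiv.neg ℂ)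
  have : (IsometryEquiv.neg ℂ) '' ((fun z : ℂ => -z) '' C) = C := by
    rw [← image_comp]
    have h : (⇑(IsometryEquiv.neg ℂ) ∘ fun z : ℂ => -z) = id := by
      funext z
      simp
    rw [h, image_id]
  rwa [this] at hback

theorem main_complex {C : Set ℂ} (hc : Convex ℝ C) (hk : IsCompact C)
    (hne : (interior C).Nonempty) : Covers C 3 := by
  obtain ⟨o, ho⟩ := hne
  have hcl : IsClosed C := hk.isClosed
  have hcne : (Cᶜ).Nonempty := by
    rw [nonempty_compl]; exact hk.ne_univ
  set r : ℝ := infDist o Cᶜ with hr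
  have hoc : o ∉ closure Cᶜ := by
    rw [closure_compl]
    exact fun h => h ho
  have hr0 : 0 < r := (infDist_pos_iff_notMem_closure hcne).1 hoc
  obtain ⟨p0, hp0, hp0d⟩ := isClosed_closure.exists_infDist_eq_dist hcne.closure o
  rw [infDist_closure] at hp0d
  have hballC : closedBall o r ⊆ C := by
    rw [← closure_ball o hr0.ne']
    exact closure_minimal ball_infDist_compl_subset hcl
  have hp0C : p0 ∈ C := hballC (by rw [mem_closedBall, dist_comm]; exact hp0d.ge)
  have hp0i : p0 ∉ interior C := by rw [closure_compl] at hp0; exact hp0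
  obtain ⟨f, hf⟩ := geometric_hahn_banach_open_point hc.interior isOpen_interior hp0i
  have hle : ∀ z ∈ C, f z ≤ f p0 := by
    intro z hz
    have h1 : C ⊆ closure (interior C) := by
      rw [hc.closure_interior_eq_closure_of_nonempty_interior ⟨o, ho⟩]
      exact subset_closure
    have hcl2 : IsClosed {z | f z ≤ f p0} := isClosed_le f.continuous continuous_const
    exact closure_minimal (fun w hw => (hf w hw).le) hcl2 (h1 hz)
  have hfz : ∀ z : ℂ, f z = z.re * f 1 + z.im * f I := by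
    intro z
    have h : z = z.re • (1 : ℂ) + z.im • I := by apply Complex.ext <;> simp
    calc f z = f (z.re • (1 : ℂ) + z.im • I) := congrArg f h
      _ = _ := by rw [map_add, map_smul, map_smul]; rfl
  set w : ℂ := ⟨f 1, f I⟩ with hw
  have hw0 : w ≠ 0 := by
    intro h
    have h1 : f 1 = 0 := congrArg Complex.re h
    have h2 : f I = 0 := congrArg Complex.im h
    have := hf o ho
    rw [hfz o, hfz p0, h1, h2] at this
    simp at this
  set k : ℝ := ‖w‖ with hkk
  have hk0 : 0 < k := norm_pos_iff.2 hw0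
  set a : ℂ := -I * (starRingEnd ℂ) w / k with ha
  have ha1 : ‖a‖ = 1 := by
    rw [ha, norm_div, norm_mul, norm_neg, Complex.norm_I, one_mul, Complex.norm_conj,
      Complex.norm_real, Real.norm_of_nonneg hk0.le]
    exact div_self hk0.ne'
  have ha0 : a ≠ 0 := by
    intro h; rw [h, norm_zero] at ha1; exact zero_ne_one ha1
  have him : ∀ z : ℂ, (a * z).im = - f z / k := by
    intro z
    have h1 : a * z = (-I * (starRingEnd ℂ) w * z) / (k : ℂ) := by rw [ha]; ring
    rw [h1, Complex.div_ofReal_im, hfz z]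
    congr 1
    simp [hw]
    ring
  let g : ℂ ≃ᵢ ℂ := IsometryEquiv.mk' (fun z => a * z) (fun z => a⁻¹ * z)
    (by intro z; field_simp)
    (by
      apply Isometry.of_dist_eq
      intro z w
      rw [dist_eq_norm, dist_eq_norm]
      have : a * z - a * w = a * (z - w) := by ring
      rw [this, norm_mul, ha1, one_mul])
  have hg : ∀ z, g z = a * z := fun z => rfl
  have h3 : Covers (g '' C) 3 := by
    apply core (o := g o) (r := r) _ (hk.image g.continuous) hr0
    · rw [← g.image_closedBall]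
      exact image_mono hballC
    · rintro _ ⟨z, hz, rfl⟩
      have h1 : (g p0).im ≤ (g z).im := by
        rw [hg, hg, him, him]
        have := hle z hz
        gcongr
      have h2 : (g o).im - (g p0).im ≤ r := by
        have h4 : |(g o - g p0).im| ≤ ‖g o - g p0‖ := Complex.abs_im_le_norm _
        rw [← dist_eq_norm, g.dist_eq, ← hp0d, sub_im] at h4
        exact (le_abs_self _).trans h4
      linarith
    · have h5 : g '' C = (LinearMap.mulLeft ℝ a) '' C := by
        apply image_congr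
        intro z _
        simp [hg]
      rw [h5]
      exact hc.linear_image _
  have h6 := h3.image g.symm
  have h7 : g.symm '' (g '' C) = C := by
    rw [← image_comp]
    have h : (⇑g.symm ∘ ⇑g) = id := by
      funext z
      simp
    rw [h, image_id]
  rwa [h7] at h6

/-- Euclidean `d`-space. -/
abbrev E (d : ℕ) : Type := EuclideanSpace ℝ (Fin d)

/-- A convex body: a compact convex set with nonempty interior. -/
def IsBody {d : ℕ} (C : Set (E d)) : Prop :=
  Convex ℝ C ∧ IsCompact C ∧ (interior C).Nonempty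

/-- The Newton covering number. -/
noncomputable def newton {d : ℕ} (C : Set (E d)) : ℕ := sInf {n : ℕ | Covers C n}

theorem main_plane {C : Set (E 2)} (hC : IsBody C) : Covers C 3 := by
  obtain ⟨hc, hk, hne⟩ := hC
  let e : ℂ ≃ₗᵢ[ℝ] E 2 := Complex.orthonormalBasisOneI.repr
  have h1 : Covers (e.symm '' C) 3 := by
    apply main_complex
    · exact hc.linear_image e.symm.toLinearEquiv.toLinearMap
    · exact hk.image e.symm.continuous
    · have : e.symm.toHomeomorph '' interior C = interior (e.symm.toHomeomorph '' C) :=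
        e.symm.toHomeomorph.image_interior C
      have h2 : (e.symm.toHomeomorph '' C) = e.symm '' C := rfl
      rw [← h2, ← this]
      exact hne.image _
  have h2 := h1.image e.toIsometryEquiv
  have h3 : e.toIsometryEquiv '' (e.symm '' C) = C := by
    rw [← image_comp]
    have h : (⇑e.toIsometryEquiv ∘ ⇑e.symm) = id := by
      funext z
      simp
    rw [h, image_id]
  rwa [h3] at h2

theorem exists_covers {d : ℕ} {C : Set (E d)} (hk : IsCompact C) (hne : (interior C).Nonempty) :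
    ∃ n, Covers C n := by
  obtain ⟨o, ho⟩ := hne
  let V : E d → Set (E d) := fun p => (IsometryEquiv.addRight (p - o)) '' interior C
  have hVo : ∀ p, IsOpen (V p) := fun p =>
    (IsometryEquiv.addRight (p - o)).toHomeomorph.isOpenMap _ isOpen_interior
  have hcov : C ⊆ ⋃ p, V p := fun p _ => mem_iUnion.2 ⟨p, o, ho, by simp⟩
  obtain ⟨T, hT⟩ := hk.elim_finite_subcover V hVo hcov
  refine ⟨T.card, fun i => IsometryEquiv.addRight ((T.equivFin.symm i : E d) - o),
    ⋃ p ∈ T, V p, ?_, hT, ?_⟩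
  · exact isOpen_biUnion fun p _ => hVo p
  · intro x hx
    obtain ⟨p, hp⟩ := mem_iUnion.1 hx
    obtain ⟨hpT, hxp⟩ := mem_iUnion.1 hp
    refine mem_iUnion.2 ⟨T.equivFin ⟨p, hpT⟩, ?_⟩
    simp only [Equiv.symm_apply_apply]
    exact image_mono interior_subset hxp

theorem exists_dir {d n : ℕ} (hd : 1 ≤ d) (hn : n ≤ d) (c : Fin n → E d) :
    ∃ p : E d, ‖p‖ = 1 ∧ ∀ i, inner ℝ p (c i) ≤ 0 := by
  suffices h : ∃ p : E d, p ≠ 0 ∧ ∀ i, inner ℝ p (c i) ≤ 0 by
    obtain ⟨p, hp, h⟩ := h
    refine ⟨(‖p‖⁻¹) • p, ?_, fun i => ?_⟩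
    · rw [norm_smul, norm_inv, norm_norm]
      exact inv_mul_cancel₀ (norm_ne_zero_iff.2 hp)
    · rw [real_inner_smul_left]
      exact mul_nonpos_of_nonneg_of_nonpos (by positivity) (h i)
  let L : E d →ₗ[ℝ] (Fin n → ℝ) := LinearMap.pi (fun i => innerₗ (E d) (c i))
  have hL : ∀ p i, L p i = inner ℝ p (c i) := fun p i => by
    simp [L, real_inner_comm]
  by_cases hinj : Function.Injective L
  · have h1 := LinearMap.finrank_le_finrank_of_injective hinj
    rw [finrank_euclideanSpace_fin, Module.finrank_fin_fun] at h1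
    have hdn : d = n := le_antisymm h1 hn
    have hs : Function.Surjective L :=
      (LinearMap.injective_iff_surjective_of_finrank_eq_finrank (by
        rw [finrank_euclideanSpace_fin, Module.finrank_fin_fun, hdn])).1 hinj
    obtain ⟨p, hp⟩ := hs (fun _ => -1)
    refine ⟨p, ?_, fun i => ?_⟩
    · intro h0
      have : L p ⟨0, by omega⟩ = -1 := by rw [hp]
      rw [h0, map_zero] at this
      simp at this
    · rw [← hL, hp]; norm_num
  · have : ∃ p, L p = 0 ∧ p ≠ 0 := by
      by_contra hcon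
      push Not at hcon
      apply hinj
      rw [injective_iff_map_eq_zero]
      exact hcon
    obtain ⟨p, hp, hp0⟩ := this
    refine ⟨p, hp0, fun i => ?_⟩
    rw [← hL, hp]; rfl

theorem not_covers_ball {d n : ℕ} (hd : 1 ≤ d) (hn : n ≤ d) :
    ¬ Covers (closedBall (0 : E d) 1) n := by
  rintro ⟨g, U, hU, hCU, hUg⟩
  obtain ⟨p, hp1, hp⟩ := exists_dir hd hn (fun i => g i 0)
  have hpU : p ∈ U := hCU (by simp [hp1])
  obtain ⟨δ, hδ, hδU⟩ := Metric.isOpen_iff.1 hU p hpU
  have hq : (1 + δ / 2) • p ∈ U := by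
    apply hδU
    rw [mem_ball, dist_eq_norm]
    have : (1 + δ / 2) • p - p = (δ / 2) • p := by rw [add_smul, one_smul]; abel
    rw [this, norm_smul, hp1, mul_one, Real.norm_of_nonneg (by positivity)]
    linarith
  obtain ⟨i, hi⟩ := mem_iUnion.1 (hUg hq)
  rw [IsometryEquiv.image_closedBall, mem_closedBall, dist_eq_norm] at hi
  have h1 : ‖(1 + δ / 2) • p - g i 0‖ ^ 2 ≤ 1 := by
    have := norm_nonneg ((1 + δ / 2) • p - g i 0)
    nlinarith
  rw [norm_sub_sq_real, real_inner_smul_left, norm_smul, hp1, mul_one,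
    Real.norm_of_nonneg (by positivity)] at h1
  have h2 := hp i
  have h3 : 0 ≤ ‖g i 0‖ ^ 2 := by positivity
  have h4 : 0 < δ := hδ
  nlinarith [mul_nonneg (show (0 : ℝ) ≤ 1 + δ / 2 by positivity) (neg_nonneg.2 h2)]

theorem isBody_ball {d : ℕ} : IsBody (closedBall (0 : E d) 1) :=
  ⟨convex_closedBall _ _, isCompact_closedBall _ _,
    ⟨0, ball_subset_interior_closedBall (mem_ball_self one_pos)⟩⟩

theorem covers_newton {d : ℕ} {C : Set (E d)} (hC : IsBody C) : Covers C (newton C) :=
  Nat.sInf_mem (s := {n : ℕ | Covers C n}) (exists_covers hC.2.1 hC.2.2)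

theorem ball_lower {d : ℕ} (hd : 1 ≤ d) : d + 1 ≤ newton (closedBall (0 : E d) 1) := by
  by_contra hcon
  push Not at hcon
  exact not_covers_ball hd (by omega) (covers_newton isBody_ball)

end Pool.Agent.Helper2.NewtonCover
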