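import Mathlib
import Pool.Agent.Helper2.NewtonCover

/-!
# Smooth planar convex bodies and bodies of constant width: lemmas
-/

namespace Pool.Agent.Helper2.NewtonSmooth

open Set Metric Complex Filter Topology
open Pool.Agent.Helper2.NewtonCover (Covers)

/-- `ν` is an outer unit normal of `C` at `p`. -/
def UnitNormal {E : Type*} [NormedAddCommGroup E] [InnerProductSpace ℝ E]
    (C : Set E) (p ν : E) : Prop :=
  ‖ν‖ = 1 ∧ ∀ x ∈ C, inner ℝ ν x ≤ inner ℝ ν p

/-- `C` is smooth: at every point there is at most one outer unit normal. -/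
def Smooth {E : Type*} [NormedAddCommGroup E] [InnerProductSpace ℝ E] (C : Set E) : Prop :=
  ∀ p ∈ C, ∀ ν μ, UnitNormal C p ν → UnitNormal C p μ → ν = μ

/-- The width of `C` in direction `u`. -/
noncomputable def width {E : Type*} [NormedAddCommGroup E] [InnerProductSpace ℝ E]
    (C : Set E) (u : E) : ℝ :=
  sSup ((fun x => inner ℝ u x) '' C) - sInf ((fun x => inner ℝ u x) '' C)

/-- `C` has constant width. -/
def ConstantWidth {E : Type*} [NormedAddCommGroup E] [InnerProductSpace ℝ E]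
    (C : Set E) : Prop :=
  ∃ w : ℝ, ∀ u : E, ‖u‖ = 1 → width C u = w

theorem inn (z w : ℂ) : inner ℝ z w = z.re * w.re + z.im * w.im := by
  rw [Complex.inner]
  simp
  ring

theorem exists_normal {C : Set ℂ} (hc : Convex ℝ C) (hne : (interior C).Nonempty) {q : ℂ}
    (hq : q ∉ interior C) : ∃ ν : ℂ, ‖ν‖ = 1 ∧ ∀ x ∈ C, inner ℝ ν x ≤ inner ℝ ν q := by
  obtain ⟨f, hf⟩ := geometric_hahn_banach_open_point hc.interior isOpen_interior hq
  set w : ℂ := (InnerProductSpace.toDual ℝ ℂ).symm f with hwdef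
  have hw : ∀ x : ℂ, inner ℝ w x = f x := fun x => InnerProductSpace.toDual_symm_apply
  have hw0 : w ≠ 0 := by
    intro h
    obtain ⟨o, ho⟩ := hne
    have := hf o ho
    rw [← hw, ← hw, h, inner_zero_left, inner_zero_left] at this
    exact lt_irrefl _ this
  have hle : ∀ z ∈ C, f z ≤ f q := by
    intro z hz
    have h1 : C ⊆ closure (interior C) := by
      rw [hc.closure_interior_eq_closure_of_nonempty_interior hne]
      exact subset_closure
    have hcl2 : IsClosed {z | f z ≤ f q} := isClosed_le f.continuous continuous_const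
    exact closure_minimal (fun w hw => (hf w hw).le) hcl2 (h1 hz)
  refine ⟨(‖w‖⁻¹ : ℝ) • w, ?_, fun x hx => ?_⟩
  · rw [norm_smul, norm_inv, norm_norm]
    exact inv_mul_cancel₀ (norm_ne_zero_iff.2 hw0)
  · rw [real_inner_smul_left, real_inner_smul_left, hw, hw]
    exact mul_le_mul_of_nonneg_left (hle x hx) (by positivity)

theorem two_copies {C : Set ℂ} (hc : Convex ℝ C) (hk : IsCompact C)
    (hne : (interior C).Nonempty) (hs : Smooth C) (e t : ℂ) (β : ℝ)
    (h : ∀ p ∈ C, ∀ ν, UnitNormal C p ν → 0 ≤ inner ℝ ν e →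
      0 < inner ℝ ν (β • (I * p) + t)) :
    Covers C 2 := by
  let s : ℕ → ℝ := fun n => 1 / ((n : ℝ) + 1)
  have hs0 : ∀ n, 0 < s n := fun n => by positivity
  let ρ : ℝ → ℂ := fun x => Complex.exp (((-β * x : ℝ) : ℂ) * I)
  have hρ1 : ∀ x, ‖ρ x‖ = 1 := fun x => Complex.norm_exp_ofReal_mul_I _
  have hρ0 : ∀ x, ρ x ≠ 0 := fun x => Complex.exp_ne_zero _
  let A : ℕ → (ℂ ≃ᵢ ℂ) := fun n => IsometryEquiv.addRight (s n • e)
  let B : ℕ → (ℂ ≃ᵢ ℂ) := fun n =>
    IsometryEquiv.mk' (fun z => ρ (s n) * z - s n • t) (fun w => (ρ (s n))⁻¹ * (w + s n • t))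
      (by intro w; have := hρ0 (s n); field_simp; ring)
      (by
        apply Isometry.of_dist_eq
        intro z w
        rw [dist_eq_norm, dist_eq_norm]
        have : ρ (s n) * z - s n • t - (ρ (s n) * w - s n • t) = ρ (s n) * (z - w) := by ring
        rw [this, norm_mul, hρ1, one_mul])
  have hA : ∀ n p, A n p = p + s n • e := fun n p => rfl
  have hB : ∀ n p, B n p = ρ (s n) * p - s n • t := fun n p => rfl
  suffices hcl : ∃ n, ∀ p ∈ C, A n p ∈ interior C ∨ B n p ∈ interior C by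
    obtain ⟨n, hn⟩ := hcl
    refine ⟨![(A n).symm, (B n).symm], (A n) ⁻¹' interior C ∪ (B n) ⁻¹' interior C,
      (isOpen_interior.preimage (A n).continuous).union
        (isOpen_interior.preimage (B n).continuous), hn, ?_⟩
    rintro p (h1 | h1)
    · exact mem_iUnion.2 ⟨0, A n p, interior_subset h1, by simp⟩
    · exact mem_iUnion.2 ⟨1, B n p, interior_subset h1, by simp⟩
  by_contra hcon
  push Not at hcon
  choose p hp hpA hpB using hcon
  choose ν hν1 hν2 using fun n => exists_normal hc hne (hpA n)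
  choose μ hμ1 hμ2 using fun n => exists_normal hc hne (hpB n)
  have hcomp : IsCompact (C ×ˢ (sphere (0 : ℂ) 1 ×ˢ sphere (0 : ℂ) 1)) :=
    hk.prod ((isCompact_sphere _ _).prod (isCompact_sphere _ _))
  obtain ⟨⟨q, ν', μ'⟩, hmem, φ, hφ, hlim⟩ := hcomp.tendsto_subseq
    (x := fun n => (p n, ν n, μ n))
    (fun n => ⟨hp n, by simp [hν1], by simp [hμ1]⟩)
  have l1 : Tendsto (fun n => p (φ n)) atTop (𝓝 q) := (continuous_fst.tendsto _).comp hlim
  have l2 : Tendsto (fun n => ν (φ n)) atTop (𝓝 ν') :=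
    ((continuous_fst.comp continuous_snd).tendsto _).comp hlim
  have l3 : Tendsto (fun n => μ (φ n)) atTop (𝓝 μ') :=
    ((continuous_snd.comp continuous_snd).tendsto _).comp hlim
  have ls : Tendsto (fun n => s (φ n)) atTop (𝓝 0) :=
    tendsto_one_div_add_atTop_nhds_zero_nat.comp hφ.tendsto_atTop
  have hq : q ∈ C := hmem.1
  have hν'1 : ‖ν'‖ = 1 := by simpa using hmem.2.1
  have hμ'1 : ‖μ'‖ = 1 := by simpa using hmem.2.2
  have lA : Tendsto (fun n => A (φ n) (p (φ n))) atTop (𝓝 q) := by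
    have h1 : Tendsto (fun n => p (φ n) + s (φ n) • e) atTop (𝓝 (q + (0 : ℝ) • e)) :=
      l1.add (ls.smul tendsto_const_nhds)
    simpa [hA] using h1
  have hρd : HasDerivAt ρ (-β * I) 0 := by
    have h1 : HasDerivAt (fun x : ℝ => ((-β * x : ℝ) : ℂ) * I) (-β * I) 0 := by
      have h2 : HasDerivAt (fun x : ℝ => -β * x) (-β) 0 := by
        simpa using (hasDerivAt_id (0 : ℝ)).const_mul (-β)
      have h3 := (h2.ofReal_comp).mul_const I
      simpa using h3
    have h4 : HasDerivAt ρ _ 0 := h1.cexp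
    convert h4 using 1
    simp
  have hρc : Tendsto (fun n => ρ (s (φ n))) atTop (𝓝 1) := by
    have h1 : Tendsto ρ (𝓝 0) (𝓝 (ρ 0)) := hρd.continuousAt
    have h2 : ρ 0 = 1 := by simp [ρ]
    rw [h2] at h1
    exact h1.comp ls
  have lB : Tendsto (fun n => B (φ n) (p (φ n))) atTop (𝓝 q) := by
    have h1 : Tendsto (fun n => ρ (s (φ n)) * p (φ n) - s (φ n) • t) atTop
        (𝓝 (1 * q - (0 : ℝ) • t)) :=
      (hρc.mul l1).sub (ls.smul tendsto_const_nhds)
    simpa [hB] using h1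
  have lslope : Tendsto (fun n => (s (φ n))⁻¹ • (ρ (s (φ n)) - 1)) atTop (𝓝 (-β * I)) := by
    have h1 := hρd.tendsto_slope_zero
    have h2 : ρ 0 = 1 := by simp [ρ]
    rw [h2] at h1
    have h3 : Tendsto (fun n => s (φ n)) atTop (𝓝[≠] 0) := by
      apply tendsto_nhdsWithin_of_tendsto_nhds_of_eventually_within _ ls
      exact Eventually.of_forall fun n => (hs0 _).ne'
    have h4 := h1.comp h3
    simpa [Function.comp_def] using h4
  have nν : UnitNormal C q ν' := ⟨hν'1, fun x hx =>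
    le_of_tendsto_of_tendsto' (l2.inner tendsto_const_nhds) (l2.inner lA)
      (fun n => hν2 _ x hx)⟩
  have nμ : UnitNormal C q μ' := ⟨hμ'1, fun x hx =>
    le_of_tendsto_of_tendsto' (l3.inner tendsto_const_nhds) (l3.inner lB)
      (fun n => hμ2 _ x hx)⟩
  have heq := hs q hq ν' μ' nν nμ
  have h1 : 0 ≤ inner ℝ ν' e := by
    refine ge_of_tendsto' (l2.inner (tendsto_const_nhds (x := e))) (fun n => ?_)
    have h5 := hν2 (φ n) _ (hp (φ n))
    rw [hA, inner_add_right, real_inner_smul_right] at h5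
    have h6 : 0 ≤ s (φ n) * inner ℝ (ν (φ n)) e := by linarith
    exact nonneg_of_mul_nonneg_right h6 (hs0 _)
  have h2 : 0 ≤ inner ℝ μ' ((-β * I) * q - t) := by
    have l5 : Tendsto (fun n => inner ℝ (μ (φ n))
        ((s (φ n))⁻¹ • (ρ (s (φ n)) - 1) * p (φ n) - t)) atTop
        (𝓝 (inner ℝ μ' ((-β * I) * q - t))) :=
      l3.inner ((lslope.mul l1).sub tendsto_const_nhds)
    refine ge_of_tendsto' l5 (fun n => ?_)
    have h5 := hμ2 (φ n) _ (hp (φ n))
    have h6 : B (φ n) (p (φ n)) = p (φ n) +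
        s (φ n) • ((s (φ n))⁻¹ • (ρ (s (φ n)) - 1) * p (φ n) - t) := by
      rw [hB]
      have h7 : (s (φ n) : ℂ) ≠ 0 := by exact_mod_cast (hs0 (φ n)).ne'
      simp only [real_smul, ofReal_inv]
      field_simp
      ring
    rw [h6, inner_add_right, real_inner_smul_right] at h5
    have h7 : 0 ≤ s (φ n) * inner ℝ (μ (φ n))
        ((s (φ n))⁻¹ • (ρ (s (φ n)) - 1) * p (φ n) - t) := by linarith
    exact nonneg_of_mul_nonneg_right h7 (hs0 _)
  have h3 := h q hq ν' nν h1
  rw [← heq] at h2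
  have h4 : (-β * I) * q - t = -(β • (I * q) + t) := by
    simp only [real_smul]; ring
  rw [h4, inner_neg_right] at h2
  linarith

theorem exists_K {C : Set ℂ} (hk : IsCompact C) (e v : ℂ) (β : ℝ)
    (h : ∀ p ∈ C, ∀ ν, UnitNormal C p ν → inner ℝ ν e = 0 →
      0 < inner ℝ ν (β • (I * p) + v)) :
    ∃ K : ℝ, ∀ p ∈ C, ∀ ν, UnitNormal C p ν → 0 ≤ inner ℝ ν e →
      0 < inner ℝ ν (β • (I * p) + (K • e + v)) := by
  by_contra hcon
  push Not at hcon
  choose p hp ν hν hνe hle using fun n : ℕ => hcon (n : ℝ)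
  have hcomp : IsCompact (C ×ˢ sphere (0 : ℂ) 1) := hk.prod (isCompact_sphere _ _)
  obtain ⟨⟨q, ν'⟩, hmem, φ, hφ, hlim⟩ := hcomp.tendsto_subseq
    (x := fun n => (p n, ν n)) (fun n => ⟨hp n, by simp [(hν n).1]⟩)
  have l1 : Tendsto (fun n => p (φ n)) atTop (𝓝 q) := (continuous_fst.tendsto _).comp hlim
  have l2 : Tendsto (fun n => ν (φ n)) atTop (𝓝 ν') := (continuous_snd.tendsto _).comp hlim
  have hq : q ∈ C := hmem.1
  have hν'1 : ‖ν'‖ = 1 := by simpa using hmem.2
  have nν : UnitNormal C q ν' := ⟨hν'1, fun x hx =>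
    le_of_tendsto_of_tendsto' (l2.inner tendsto_const_nhds) (l2.inner l1)
      (fun n => (hν _).2 x hx)⟩
  have le1 : Tendsto (fun n => inner ℝ (ν (φ n)) e) atTop (𝓝 (inner ℝ ν' e)) :=
    l2.inner tendsto_const_nhds
  have le2 : Tendsto (fun n => inner ℝ (ν (φ n)) (β • (I * p (φ n)) + v)) atTop
      (𝓝 (inner ℝ ν' (β • (I * q) + v))) :=
    l2.inner (((l1.const_mul I).const_smul β).add tendsto_const_nhds)
  have hsplit : ∀ n, inner ℝ (ν n) (β • (I * p n) + v) + n * inner ℝ (ν n) e ≤ 0 := by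
    intro n
    have := hle n
    have h2 : β • (I * p n) + ((n : ℝ) • e + v) = (β • (I * p n) + v) + (n : ℝ) • e := by
      ring
    rw [h2, inner_add_right, real_inner_smul_right] at this
    exact this
  have h1 : inner ℝ ν' (β • (I * q) + v) ≤ 0 := by
    refine le_of_tendsto' le2 (fun n => ?_)
    have h3 := hsplit (φ n)
    have h4 : 0 ≤ ((φ n : ℕ) : ℝ) * inner ℝ (ν (φ n)) e :=
      mul_nonneg (Nat.cast_nonneg _) (hνe _)
    linarith
  have h0 : 0 ≤ inner ℝ ν' e := ge_of_tendsto' le1 (fun n => hνe _)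
  have h00 : inner ℝ ν' e = 0 := by
    by_contra hx
    have hpos : 0 < inner ℝ ν' e := lt_of_le_of_ne h0 (Ne.symm hx)
    have hφt : Tendsto (fun n => ((φ n : ℕ) : ℝ)) atTop atTop :=
      tendsto_natCast_atTop_atTop.comp hφ.tendsto_atTop
    have h3 : Tendsto (fun n => ((φ n : ℕ) : ℝ) * inner ℝ (ν (φ n)) e) atTop atTop :=
      hφt.atTop_mul_pos hpos le1
    have h4 : Tendsto (fun n => - inner ℝ (ν (φ n)) (β • (I * p (φ n)) + v)) atTop atTop :=
      tendsto_atTop_mono (fun n => by have := hsplit (φ n); linarith) h3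
    exact not_tendsto_atTop_of_tendsto_nhds le2.neg h4
  have := h q hq ν' nν h00
  linarith

theorem separate {C : Set ℂ} (hc : Convex ℝ C) (hk : IsCompact C) (hCne : C.Nonempty) (u e : ℂ)
    (h : ∀ x ∈ C, ∀ y ∈ C, (∀ z ∈ C, inner ℝ u z ≤ inner ℝ u x) →
      (∀ z ∈ C, inner ℝ u y ≤ inner ℝ u z) → inner ℝ e x ≠ inner ℝ e y) :
    ∃ β α : ℝ, (∀ p ∈ C, (∀ z ∈ C, inner ℝ u z ≤ inner ℝ u p) → 0 < β * inner ℝ e p + α) ∧
      (∀ p ∈ C, (∀ z ∈ C, inner ℝ u p ≤ inner ℝ u z) → β * inner ℝ e p + α < 0) := by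
  have cu : Continuous fun z : ℂ => inner ℝ u z := by fun_prop
  have ce : Continuous fun z : ℂ => inner ℝ e z := by fun_prop
  obtain ⟨x0, hx0, hx0m⟩ := hk.exists_isMaxOn hCne cu.continuousOn
  obtain ⟨y0, hy0, hy0m⟩ := hk.exists_isMinOn hCne cu.continuousOn
  have hx0m' : ∀ z ∈ C, inner ℝ u z ≤ inner ℝ u x0 := fun z hz => hx0m hz
  have hy0m' : ∀ z ∈ C, inner ℝ u y0 ≤ inner ℝ u z := fun z hz => hy0m hz
  let Fu : Set ℂ := C ∩ {z | inner ℝ u x0 ≤ inner ℝ u z}
  let Fd : Set ℂ := C ∩ {z | inner ℝ u z ≤ inner ℝ u y0}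
  have kFu : IsCompact Fu := hk.inter_right (isClosed_le continuous_const cu)
  have kFd : IsCompact Fd := hk.inter_right (isClosed_le cu continuous_const)
  have mFu : ∀ x ∈ C, (∀ z ∈ C, inner ℝ u z ≤ inner ℝ u x) → x ∈ Fu := fun x hx h =>
    ⟨hx, h _ hx0⟩
  have mFd : ∀ x ∈ C, (∀ z ∈ C, inner ℝ u x ≤ inner ℝ u z) → x ∈ Fd := fun x hx h =>
    ⟨hx, h _ hy0⟩
  have cFu : Convex ℝ Fu := by
    apply hc.inter
    exact convex_halfSpace_ge (f := fun z : ℂ => inner ℝ u z)
      ⟨fun x y => inner_add_right _ _ _, fun c x => real_inner_smul_right _ _ _⟩ _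
  have cFd : Convex ℝ Fd := by
    apply hc.inter
    exact convex_halfSpace_le (f := fun z : ℂ => inner ℝ u z)
      ⟨fun x y => inner_add_right _ _ _, fun c x => real_inner_smul_right _ _ _⟩ _
  have neFu : Fu.Nonempty := ⟨x0, mFu x0 hx0 hx0m'⟩
  have neFd : Fd.Nonempty := ⟨y0, mFd y0 hy0 hy0m'⟩
  have hS : IsPreconnected (Fu ×ˢ Fd) := (cFu.prod cFd).isPreconnected
  let G : ℂ × ℂ → ℝ := fun w => inner ℝ e w.1 - inner ℝ e w.2
  have cG : Continuous G := by
    apply Continuous.sub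
    · exact ce.comp continuous_fst
    · exact ce.comp continuous_snd
  have hG0 : ∀ w ∈ Fu ×ˢ Fd, G w ≠ 0 := by
    rintro ⟨x, y⟩ ⟨hx, hy⟩ h0
    exact h x hx.1 y hy.1 (fun z hz => (hx0m' z hz).trans hx.2)
      (fun z hz => le_trans hy.2 (hy0m' z hz)) (sub_eq_zero.1 h0)
  have hiv : ∀ a ∈ Fu ×ˢ Fd, ∀ b ∈ Fu ×ˢ Fd, 0 < G b → 0 < G a := by
    intro a ha b hb hGb
    by_contra hcon
    push Not at hcon
    obtain ⟨w, hw, hw0⟩ := hS.intermediate_value ha hb cG.continuousOn ⟨hcon, hGb.le⟩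
    exact hG0 w hw hw0
  obtain ⟨x1, hx1, hx1m⟩ := kFu.exists_isMinOn neFu ce.continuousOn
  obtain ⟨x2, hx2, hx2m⟩ := kFu.exists_isMaxOn neFu ce.continuousOn
  obtain ⟨y1, hy1, hy1m⟩ := kFd.exists_isMaxOn neFd ce.continuousOn
  obtain ⟨y2, hy2, hy2m⟩ := kFd.exists_isMinOn neFd ce.continuousOn
  have h11 : (x1, y1) ∈ Fu ×ˢ Fd := ⟨hx1, hy1⟩
  have h22 : (x2, y2) ∈ Fu ×ˢ Fd := ⟨hx2, hy2⟩
  rcases lt_or_gt_of_ne (hG0 _ h11) with hneg | hpos
  · -- all values negative
    have h2neg : G (x2, y2) < 0 := by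
      rcases lt_or_gt_of_ne (hG0 _ h22) with h3 | h3
      · exact h3
      · exact absurd (hiv _ h11 _ h22 h3) (not_lt.2 hneg.le)
    have h2' : inner ℝ e x2 - inner ℝ e y2 < 0 := h2neg
    refine ⟨-1, (inner ℝ e x2 + inner ℝ e y2) / 2, ?_, ?_⟩
    · intro p hp hpm
      have : inner ℝ e p ≤ inner ℝ e x2 := hx2m (mFu p hp hpm)
      linarith
    · intro p hp hpm
      have : inner ℝ e y2 ≤ inner ℝ e p := hy2m (mFd p hp hpm)
      linarith
  · have h1' : 0 < inner ℝ e x1 - inner ℝ e y1 := hpos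
    refine ⟨1, -(inner ℝ e x1 + inner ℝ e y1) / 2, ?_, ?_⟩
    · intro p hp hpm
      have : inner ℝ e x1 ≤ inner ℝ e p := hx1m (mFu p hp hpm)
      linarith
    · intro p hp hpm
      have : inner ℝ e p ≤ inner ℝ e y1 := hy1m (mFd p hp hpm)
      linarith

theorem covers_two_of {C : Set ℂ} (hc : Convex ℝ C) (hk : IsCompact C)
    (hne : (interior C).Nonempty) (hs : Smooth C) {u : ℂ} (hu : ‖u‖ = 1)
    (h : ∀ x ∈ C, ∀ y ∈ C, (∀ z ∈ C, inner ℝ u z ≤ inner ℝ u x) →
      (∀ z ∈ C, inner ℝ u y ≤ inner ℝ u z) → inner ℝ (-I * u) x ≠ inner ℝ (-I * u) y) :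
    Covers C 2 := by
  obtain ⟨β, α, h1, h2⟩ := separate hc hk (hne.mono interior_subset) u (-I * u) h
  have hu2 : u.re * u.re + u.im * u.im = 1 := by
    have : ‖u‖ ^ 2 = 1 := by rw [hu]; norm_num
    rw [← Complex.normSq_eq_norm_sq, Complex.normSq_apply] at this
    exact this
  obtain ⟨K, hK⟩ := exists_K hk (-I * u) (α • u) β (by
    intro p hp ν hν hνe
    have hn2 : ν.re * ν.re + ν.im * ν.im = 1 := by
      have : ‖ν‖ ^ 2 = 1 := by rw [hν.1]; norm_num
      rw [← Complex.normSq_eq_norm_sq, Complex.normSq_apply] at this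
      exact this
    have hcross : ν.re * u.im - ν.im * u.re = 0 := by
      rw [inn] at hνe
      simp at hνe
      linarith
    have hval : inner ℝ u (β • (I * p) + α • u) = β * inner ℝ (-I * u) p + α := by
      rw [inn, inn]
      simp
      linear_combination α * hu2
    have hc2 : (ν.re * u.re + ν.im * u.im - 1) * (ν.re * u.re + ν.im * u.im + 1) = 0 := by
      linear_combination (u.re * u.re + u.im * u.im) * hn2 + hu2
        - (ν.re * u.im - ν.im * u.re) * hcross
    rcases mul_eq_zero.1 hc2 with h3 | h3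
    · have hνu : ν = u := by
        have h5 : (ν.re - u.re) ^ 2 + (ν.im - u.im) ^ 2 = 0 := by
          linear_combination hn2 + hu2 - 2 * h3
        have h6 : ν.re - u.re = 0 := by nlinarith [sq_nonneg (ν.re - u.re), sq_nonneg (ν.im - u.im)]
        have h7 : ν.im - u.im = 0 := by nlinarith [sq_nonneg (ν.re - u.re), sq_nonneg (ν.im - u.im)]
        exact Complex.ext (by linarith) (by linarith)
      rw [hνu, hval]
      exact h1 p hp (fun z hz => by rw [← hνu]; exact hν.2 z hz)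
    · have hνu : ν = -u := by
        have h5 : (ν.re + u.re) ^ 2 + (ν.im + u.im) ^ 2 = 0 := by
          linear_combination hn2 + hu2 + 2 * h3
        have h6 : ν.re + u.re = 0 := by nlinarith [sq_nonneg (ν.re + u.re), sq_nonneg (ν.im + u.im)]
        have h7 : ν.im + u.im = 0 := by nlinarith [sq_nonneg (ν.re + u.re), sq_nonneg (ν.im + u.im)]
        exact Complex.ext (by simp; linarith) (by simp; linarith)
      rw [hνu, inner_neg_left, hval]
      have := h2 p hp (fun z hz => by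
        have h8 := hν.2 z hz
        rw [hνu, inner_neg_left, inner_neg_left] at h8
        linarith)
      linarith)
  exact two_copies hc hk hne hs (-I * u) (K • (-I * u) + α • u) β hK

section Width

variable {E : Type*} [NormedAddCommGroup E] [InnerProductSpace ℝ E]

theorem width_ge {C : Set E} (hk : IsCompact C) (u : E) {x y : E} (hx : x ∈ C) (hy : y ∈ C) :
    inner ℝ u x - inner ℝ u y ≤ width C u := by
  have cu : Continuous fun z : E => inner ℝ u z := by fun_prop
  have hb := (hk.image cu).isBounded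
  have h1 : inner ℝ u x ≤ sSup ((fun x => inner ℝ u x) '' C) :=
    le_csSup hb.bddAbove (mem_image_of_mem _ hx)
  have h2 : sInf ((fun x => inner ℝ u x) '' C) ≤ inner ℝ u y :=
    csInf_le hb.bddBelow (mem_image_of_mem _ hy)
  unfold width
  linarith

theorem width_eq {C : Set E} (u : E) {x y : E} (hx : x ∈ C) (hy : y ∈ C)
    (hxm : ∀ z ∈ C, inner ℝ u z ≤ inner ℝ u x) (hym : ∀ z ∈ C, inner ℝ u y ≤ inner ℝ u z) :
    width C u = inner ℝ u x - inner ℝ u y := by
  have h1 : IsGreatest ((fun x => inner ℝ u x) '' C) (inner ℝ u x) :=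
    ⟨mem_image_of_mem _ hx, by rintro _ ⟨z, hz, rfl⟩; exact hxm z hz⟩
  have h2 : IsLeast ((fun x => inner ℝ u x) '' C) (inner ℝ u y) :=
    ⟨mem_image_of_mem _ hy, by rintro _ ⟨z, hz, rfl⟩; exact hym z hz⟩
  unfold width
  rw [h1.csSup_eq, h2.csInf_eq]

theorem exists_width_eq {C : Set E} (hk : IsCompact C) (hne : C.Nonempty) (u : E) :
    ∃ x ∈ C, ∃ y ∈ C, (∀ z ∈ C, inner ℝ u z ≤ inner ℝ u x) ∧
      (∀ z ∈ C, inner ℝ u y ≤ inner ℝ u z) ∧ width C u = inner ℝ u x - inner ℝ u y := by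
  have cu : Continuous fun z : E => inner ℝ u z := by fun_prop
  obtain ⟨x0, hx0, hx0m⟩ := hk.exists_isMaxOn hne cu.continuousOn
  obtain ⟨y0, hy0, hy0m⟩ := hk.exists_isMinOn hne cu.continuousOn
  exact ⟨x0, hx0, y0, hy0, fun z hz => hx0m hz, fun z hz => hy0m hz,
    width_eq u hx0 hy0 (fun z hz => hx0m hz) (fun z hz => hy0m hz)⟩

/-- In a compact set of constant width, every direction carries a chord of length the diameter. -/
theorem chord_of_constantWidth {C : Set E} (hk : IsCompact C) (hne : C.Nonempty)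
    (hw : ConstantWidth C) (u : E) (hu : ‖u‖ = 1) :
    ∃ x ∈ C, ∃ y ∈ C, x - y = (diam C) • u := by
  obtain ⟨w, hw⟩ := hw
  have hdist : ∀ x ∈ C, ∀ y ∈ C, dist x y ≤ w := by
    intro x hx y hy
    by_cases hxy : x = y
    · rw [hxy, dist_self]
      have := width_ge hk u hy hy
      rw [hw u hu] at this
      linarith
    · have hn : ‖x - y‖ ≠ 0 := norm_ne_zero_iff.2 (sub_ne_zero.2 hxy)
      have hv : ‖(‖x - y‖⁻¹ : ℝ) • (x - y)‖ = 1 := by
        rw [norm_smul, norm_inv, norm_norm]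
        exact inv_mul_cancel₀ hn
      have := width_ge hk ((‖x - y‖⁻¹ : ℝ) • (x - y)) hx hy
      rw [hw _ hv, ← inner_sub_right, real_inner_smul_left, real_inner_self_eq_norm_sq] at this
      rw [dist_eq_norm]
      have h2 : ‖x - y‖⁻¹ * ‖x - y‖ ^ 2 = ‖x - y‖ := by field_simp
      linarith
  obtain ⟨x, hx, y, hy, -, -, hxy⟩ := exists_width_eq hk hne u
  rw [hw u hu, ← inner_sub_right] at hxy
  have hw0 : 0 ≤ w := dist_nonneg.trans (hdist x hx y hy)
  have hdle : diam C ≤ w := diam_le_of_forall_dist_le hw0 hdist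
  have h1 := hdist x hx y hy
  rw [dist_eq_norm] at h1
  have h2 : x - y = w • u := by
    rw [← sub_eq_zero, ← norm_eq_zero]
    have h3 : ‖x - y - w • u‖ ^ 2 ≤ 0 := by
      rw [norm_sub_sq_real, real_inner_smul_right, norm_smul, hu, real_inner_comm, ← hxy,
        Real.norm_of_nonneg hw0]
      have := pow_le_pow_left₀ (norm_nonneg _) h1 2
      nlinarith
    nlinarith [norm_nonneg (x - y - w • u)]
  have h3 : w ≤ diam C := by
    have h4 : dist x y ≤ diam C := dist_le_diam_of_mem hk.isBounded hx hy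
    rw [dist_eq_norm, h2, norm_smul, hu, Real.norm_of_nonneg hw0] at h4
    linarith
  have h4 : diam C = w := le_antisymm hdle h3
  exact ⟨x, hx, y, hy, by rw [h4]; exact h2⟩

/-- A covering of a neighbourhood by `n` copies gives a Borsuk partition into `n` closed
pieces of smaller diameter. -/
theorem borsuk {C : Set E} (hk : IsCompact C) {n : ℕ} (h : Covers C n) :
    ∃ (k : ℝ) (A : Fin n → Set E), 0 ≤ k ∧ k < 1 ∧ (∀ i, IsClosed (A i)) ∧ C ⊆ ⋃ i, A i ∧
      ∀ i, ∀ x ∈ A i, ∀ y ∈ A i, dist x y ≤ k * diam C := by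
  obtain ⟨g, U, hU, hCU, hUg⟩ := h
  obtain ⟨δ, hδ, hδU⟩ := hk.exists_thickening_subset_open hU hCU
  obtain ⟨R, hR⟩ := hk.isBounded.exists_norm_le
  set R' : ℝ := max R 0 with hR'
  have hR0 : 0 ≤ R' := le_max_right _ _
  set ε : ℝ := δ / (2 * (R' + 1)) with hε
  have hε0 : 0 < ε := by positivity
  refine ⟨(1 + ε)⁻¹, fun i => (fun x => (1 + ε) • x) ⁻¹' (g i '' C), by positivity,
    inv_lt_one_of_one_lt₀ (by linarith), ?_, ?_, ?_⟩
  · intro i
    exact (hk.image (g i).continuous).isClosed.preimage (by fun_prop)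
  · intro x hx
    have h1 : (1 + ε) • x ∈ U := by
      apply hδU
      rw [mem_thickening_iff]
      refine ⟨x, hx, ?_⟩
      rw [dist_eq_norm]
      have h2 : (1 + ε) • x - x = ε • x := by rw [add_smul, one_smul]; abel
      rw [h2, norm_smul, Real.norm_of_nonneg hε0.le]
      have h3 : ‖x‖ ≤ R' := (hR x hx).trans (le_max_left _ _)
      have h4 : ε * ‖x‖ ≤ ε * R' := mul_le_mul_of_nonneg_left h3 hε0.le
      have h5 : ε * R' < δ := by
        rw [hε, div_mul_eq_mul_div, div_lt_iff₀ (by positivity)]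
        nlinarith
      linarith
    obtain ⟨i, hi⟩ := mem_iUnion.1 (hUg h1)
    exact mem_iUnion.2 ⟨i, hi⟩
  · rintro i x ⟨a, ha, hax⟩ y ⟨b, hb, hby⟩
    have h1 : dist (g i a) (g i b) ≤ diam C := by
      rw [(g i).dist_eq]
      exact dist_le_diam_of_mem hk.isBounded ha hb
    simp only at hax hby
    rw [hax, hby, dist_smul₀, Real.norm_of_nonneg (by positivity)] at h1
    rw [← div_eq_inv_mul, le_div_iff₀ (by positivity)]
    linarith

theorem diam_pos_of_interior {C : Set E} (hk : IsCompact C) (hne : (interior C).Nonempty)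
    [Nontrivial E] : 0 < diam C := by
  apply diam_pos _ hk.isBounded
  obtain ⟨x, hx⟩ := hne
  have h1 := infinite_of_mem_nhds x (mem_interior_iff_mem_nhds.1 hx)
  exact h1.nontrivial

theorem not_covers_one {C : Set E} (hk : IsCompact C) (hne : (interior C).Nonempty)
    [Nontrivial E] {n : ℕ} (hn : n ≤ 1) : ¬ Covers C n := by
  intro h
  obtain ⟨k, A, hk0, hk1, hA, hcov, hd⟩ := borsuk hk h
  have hD := diam_pos_of_interior hk hne
  have hCne : C.Nonempty := hne.mono interior_subset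
  have hall : ∀ x ∈ C, ∀ y ∈ C, dist x y ≤ k * diam C := by
    intro x hx y hy
    obtain ⟨i, hi⟩ := mem_iUnion.1 (hcov hx)
    obtain ⟨j, hj⟩ := mem_iUnion.1 (hcov hy)
    have : i = j := by
      apply Fin.ext
      have h1 := i.2
      have h2 := j.2
      omega
    subst this
    exact hd i x hi y hj
  have : diam C ≤ k * diam C := diam_le_of_forall_dist_le (by positivity) hall
  nlinarith

/-- A compact set of constant width cannot be covered by two copies. -/
theorem not_covers_two {C : Set E} (hk : IsCompact C) (hne : (interior C).Nonempty)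
    (hrank : 1 < Module.rank ℝ E) (hw : ConstantWidth C) : ¬ Covers C 2 := by
  intro h
  haveI : Nontrivial E := by
    rw [← rank_pos_iff_nontrivial (R := ℝ)]
    exact lt_trans zero_lt_one hrank
  obtain ⟨k, A, hk0, hk1, hA, hcov, hd⟩ := borsuk hk h
  have hD := diam_pos_of_interior hk hne
  have hCne : C.Nonempty := hne.mono interior_subset
  set D := diam C with hDdef
  let S : Fin 2 → Set E := fun i => (fun w : E × E => D⁻¹ • (w.1 - w.2)) '' ((A i ∩ C) ×ˢ C)
  have hSc : ∀ i, IsClosed (S i) := fun i =>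
    (((hk.inter_left (hA i)).prod hk).image (by fun_prop)).isClosed
  have hcovS : ∀ u : E, ‖u‖ = 1 → ∃ i, u ∈ S i := by
    intro u hu
    obtain ⟨x, hx, y, hy, hxy⟩ := chord_of_constantWidth hk hCne hw u hu
    obtain ⟨i, hi⟩ := mem_iUnion.1 (hcov hx)
    refine ⟨i, (x, y), ⟨⟨hi, hx⟩, hy⟩, ?_⟩
    simp only
    rw [hxy, smul_smul, inv_mul_cancel₀ hD.ne', one_smul]
  have hanti : ∀ i, ∀ u : E, ‖u‖ = 1 → u ∈ S i → -u ∈ S i → False := by
    rintro i u hu ⟨⟨x, y⟩, ⟨⟨hxA, hx⟩, hy⟩, hxy⟩ ⟨⟨x', y'⟩, ⟨⟨hxA', hx'⟩, hy'⟩, hxy'⟩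
    simp only at hxy hxy' hxA hx hy hxA' hx' hy'
    have e1 : x - y = D • u := by
      rw [← hxy, smul_smul, mul_inv_cancel₀ hD.ne', one_smul]
    have e2 : y' - x' = D • u := by
      have : x' - y' = -(D • u) := by
        rw [← smul_neg, ← hxy', smul_smul, mul_inv_cancel₀ hD.ne', one_smul]
      rw [← neg_sub, this, neg_neg]
    -- `y = x'`
    have h1 : dist x x' ≤ D := dist_le_diam_of_mem hk.isBounded hx hx'
    have h2 : dist y' y ≤ D := dist_le_diam_of_mem hk.isBounded hy' hy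
    rw [dist_eq_norm] at h1 h2
    have e3 : x - x' = D • u + (y - x') := by rw [← e1]; abel
    have e4 : y' - y = D • u - (y - x') := by rw [← e2]; abel
    rw [e3] at h1
    rw [e4] at h2
    have h3 := pow_le_pow_left₀ (norm_nonneg _) h1 2
    have h4 := pow_le_pow_left₀ (norm_nonneg _) h2 2
    rw [norm_add_sq_real, norm_smul, hu, Real.norm_of_nonneg hD.le] at h3
    rw [norm_sub_sq_real, norm_smul, hu, Real.norm_of_nonneg hD.le] at h4
    have h5 : ‖y - x'‖ ^ 2 ≤ 0 := by nlinarith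
    have h6 : y = x' := by
      rw [← sub_eq_zero, ← norm_eq_zero]
      nlinarith [norm_nonneg (y - x')]
    have h7 : dist x x' = D := by
      rw [dist_eq_norm, ← h6, e1, norm_smul, hu, Real.norm_of_nonneg hD.le, mul_one]
    have h8 := hd i x hxA x' hxA'
    rw [h7] at h8
    nlinarith
  have hconn : IsPreconnected (sphere (0 : E) 1) := isPreconnected_sphere hrank 0 1
  rw [isPreconnected_closed_iff] at hconn
  obtain ⟨u0, hu0⟩ := exists_norm_eq E (zero_le_one (α := ℝ))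
  have hnorm : ∀ u : E, ‖u‖ = 1 → ‖-u‖ = 1 := fun u hu => by rw [norm_neg, hu]
  have hne01 : (sphere (0 : E) 1 ∩ S 0).Nonempty ∧ (sphere (0 : E) 1 ∩ S 1).Nonempty := by
    obtain ⟨i, hi⟩ := hcovS u0 hu0
    obtain ⟨j, hj⟩ := hcovS (-u0) (hnorm _ hu0)
    have hij : i ≠ j := by
      rintro rfl
      exact hanti i u0 hu0 hi hj
    fin_cases i <;> fin_cases j
    · exact absurd rfl hij
    · exact ⟨⟨u0, by simpa using hu0, hi⟩, ⟨-u0, by simpa using hu0, hj⟩⟩
    · exact ⟨⟨-u0, by simpa using hu0, hj⟩, ⟨u0, by simpa using hu0, hi⟩⟩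
    · exact absurd rfl hij
  obtain ⟨u, hu, hu0', hu1'⟩ := hconn (S 0) (S 1) (hSc 0) (hSc 1) (by
    intro v hv
    obtain ⟨i, hi⟩ := hcovS v (by simpa using hv)
    fin_cases i
    · exact Or.inl hi
    · exact Or.inr hi) hne01.1 hne01.2
  have hu1 : ‖u‖ = 1 := by simpa using hu
  obtain ⟨i, hi⟩ := hcovS (-u) (hnorm _ hu1)
  fin_cases i
  · exact hanti 0 u hu1 hu0' hi
  · exact hanti 1 u hu1 hu1' hi

end Width

theorem constantWidth_of {C : Set ℂ} (hk : IsCompact C) (hCne : C.Nonempty)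
    (h : ∀ u : ℂ, ‖u‖ = 1 → ∃ x ∈ C, ∃ y ∈ C, (∀ z ∈ C, inner ℝ u z ≤ inner ℝ u x) ∧
      (∀ z ∈ C, inner ℝ u y ≤ inner ℝ u z) ∧ inner ℝ (-I * u) x = inner ℝ (-I * u) y) :
    ConstantWidth C := by
  -- chords
  have hch : ∀ u : ℂ, ‖u‖ = 1 → ∃ x ∈ C, ∃ y ∈ C, x - y = width C u • u := by
    intro u hu
    obtain ⟨x, hx, y, hy, hxm, hym, hxy⟩ := h u hu
    refine ⟨x, hx, y, hy, ?_⟩
    rw [width_eq u hx hy hxm hym]
    have hu2 : u.re * u.re + u.im * u.im = 1 := by
      have : ‖u‖ ^ 2 = 1 := by rw [hu]; norm_num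
      rw [← Complex.normSq_eq_norm_sq, Complex.normSq_apply] at this
      exact this
    rw [inn, inn] at hxy
    simp at hxy
    rw [inn, inn]
    apply Complex.ext
    · simp only [sub_re, real_smul, mul_re, ofReal_re, ofReal_im]
      linear_combination (-(x.re - y.re)) * hu2 + u.im * hxy
    · simp only [sub_im, real_smul, mul_im, ofReal_re, ofReal_im]
      linear_combination (-(x.im - y.im)) * hu2 - u.re * hxy
  have hwge : ∀ u v : ℂ, ‖u‖ = 1 → width C u * inner ℝ v u ≤ width C v := by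
    intro u v hu
    obtain ⟨x, hx, y, hy, hxy⟩ := hch u hu
    have h1 := width_ge hk v hx hy
    rw [← inner_sub_right, hxy, real_inner_smul_right] at h1
    exact h1
  have hw0 : ∀ u, 0 ≤ width C u := by
    intro u
    obtain ⟨x, hx⟩ := hCne
    have := width_ge hk u hx hx
    linarith
  -- widths are at most the diameter
  have hwle : ∀ u : ℂ, ‖u‖ = 1 → width C u ≤ diam C := by
    intro u hu
    obtain ⟨x, hx, y, hy, hxy⟩ := hch u hu
    have h1 : dist x y ≤ diam C := dist_le_diam_of_mem hk.isBounded hx hy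
    rw [dist_eq_norm, hxy, norm_smul, hu, Real.norm_of_nonneg (hw0 u)] at h1
    linarith
  let f : ℝ → ℝ := fun θ => width C (Complex.exp (θ * I))
  have hn : ∀ θ : ℝ, ‖Complex.exp (θ * I)‖ = 1 := fun θ => Complex.norm_exp_ofReal_mul_I θ
  have hin : ∀ a b : ℝ, inner ℝ (Complex.exp (a * I)) (Complex.exp (b * I)) =
      Real.cos (a - b) := by
    intro a b
    rw [inn, Complex.exp_ofReal_mul_I_re, Complex.exp_ofReal_mul_I_re,
      Complex.exp_ofReal_mul_I_im, Complex.exp_ofReal_mul_I_im, Real.cos_sub]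
  have hbd : ∀ a b : ℝ, f a - f b ≤ diam C / 2 * (a - b) ^ 2 := by
    intro a b
    have h1 := hwge (Complex.exp (a * I)) (Complex.exp (b * I)) (hn a)
    rw [hin] at h1
    have h2 := Real.one_sub_sq_div_two_le_cos (x := b - a)
    have h3 := hwle _ (hn a)
    have h4 := hw0 (Complex.exp (a * I))
    show width C (Complex.exp (a * I)) - width C (Complex.exp (b * I)) ≤ _
    have h5 : width C (Complex.exp (a * I)) * (1 - (b - a) ^ 2 / 2) ≤
        width C (Complex.exp (a * I)) * Real.cos (b - a) := mul_le_mul_of_nonneg_left h2 h4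
    have h6 : width C (Complex.exp (a * I)) * ((b - a) ^ 2 / 2) ≤
        diam C * ((b - a) ^ 2 / 2) := mul_le_mul_of_nonneg_right h3 (by positivity)
    nlinarith
  have hder : ∀ x, HasDerivAt f 0 x := by
    intro x
    rw [hasDerivAt_iff_isLittleO]
    have h1 : (fun y => f y - f x - (y - x) • (0 : ℝ)) =O[𝓝 x] fun y => ‖y - x‖ ^ 2 := by
      apply Asymptotics.IsBigO.of_bound (diam C / 2)
      apply Eventually.of_forall
      intro y
      simp only [smul_zero, sub_zero, norm_pow, norm_norm, Real.norm_eq_abs, sq_abs]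
      rw [abs_le]
      have h2 := hbd x y
      have h3 := hbd y x
      constructor
      · nlinarith
      · exact h3
    exact h1.trans_isLittleO (Asymptotics.isLittleO_pow_sub_sub x one_lt_two)
  have hconst : ∀ a b, f a = f b :=
    is_const_of_deriv_eq_zero (fun x => (hder x).differentiableAt) (fun x => (hder x).deriv)
  refine ⟨f 0, fun u hu => ?_⟩
  have h1 : u = Complex.exp ((Complex.arg u : ℝ) * I) := by
    have := Complex.norm_mul_exp_arg_mul_I u
    rw [hu] at this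
    simpa using this.symm
  rw [h1]
  exact hconst _ _

end Pool.Agent.Helper2.NewtonSmooth
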