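import Mathlib
import Pool.Agent.Helper2.NewtonCover
import Pool.Agent.Helper2.NewtonSmooth

/-!
# Smooth convex bodies in every dimension: lemmas
-/

namespace Pool.Agent.Helper2.NewtonSmoothD

open Set Metric Filter Topology
open Pool.Agent.Helper2.NewtonCover (Covers)
open Pool.Agent.Helper2.NewtonSmooth

variable {E : Type*} [NormedAddCommGroup E] [InnerProductSpace ℝ E] [FiniteDimensional ℝ E]

theorem exists_normal {C : Set E} (hc : Convex ℝ C) (hne : (interior C).Nonempty) {q : E}
    (hq : q ∉ interior C) : ∃ ν : E, ‖ν‖ = 1 ∧ ∀ x ∈ C, inner ℝ ν x ≤ inner ℝ ν q := by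
  haveI : CompleteSpace E := FiniteDimensional.complete ℝ E
  obtain ⟨f, hf⟩ := geometric_hahn_banach_open_point hc.interior isOpen_interior hq
  set w : E := (InnerProductSpace.toDual ℝ E).symm f with hwdef
  have hw : ∀ x : E, inner ℝ w x = f x := fun x => InnerProductSpace.toDual_symm_apply
  have hw0 : w ≠ 0 := by
    intro h
    obtain ⟨o, ho⟩ := hne
    have := hf o ho
    rw [← hw, ← hw, h, inner_zero_left, inner_zero_left] at this
    exact lt_irrefl _ this
  have hle : ∀ z ∈ C, f z ≤ f q := by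
    intro z hz
    have h1 : C ⊆ closure (interior C) := by
      rw [hc.closure_interior_eq_closure_of_nonempty_interior hne]
      exact subset_closure
    have hcl2 : IsClosed {z | f z ≤ f q} := isClosed_le f.continuous continuous_const
    exact closure_minimal (fun w hw => (hf w hw).le) hcl2 (h1 hz)
  refine ⟨(‖w‖⁻¹ : ℝ) • w, ?_, fun x hx => ?_⟩
  · rw [norm_smul, norm_inv, norm_norm]
    exact inv_mul_cancel₀ (norm_ne_zero_iff.2 hw0)
  · rw [real_inner_smul_left, real_inner_smul_left, hw, hw]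
    exact mul_le_mul_of_nonneg_left (hle x hx) (by positivity)

/-- Infinitesimal criterion: if at every boundary point one of `m` motion fields points strictly
inwards, then `m` copies suffice. -/
theorem copies {C : Set E} (hc : Convex ℝ C) (hk : IsCompact C)
    (hne : (interior C).Nonempty) (hs : Smooth C) {m : ℕ} (hm : 0 < m)
    (B : ℕ → Fin m → (E ≃ᵢ E)) (s : ℕ → ℝ) (hs0 : ∀ n, 0 < s n)
    (hs1 : Tendsto s atTop (𝓝 0)) (V : Fin m → E → E)
    (hlim : ∀ (i : Fin m) (p : ℕ → E) (q : E) (φ : ℕ → ℕ), StrictMono φ →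
      Tendsto p atTop (𝓝 q) →
      Tendsto (fun n => (s (φ n))⁻¹ • (B (φ n) i (p n) - p n)) atTop (𝓝 (V i q)))
    (h : ∀ p ∈ C, ∀ ν, UnitNormal C p ν → ∃ i, inner ℝ ν (V i p) < 0) :
    Covers C m := by
  suffices hcl : ∃ n, ∀ p ∈ C, ∃ i, B n i p ∈ interior C by
    obtain ⟨n, hn⟩ := hcl
    refine ⟨fun i => (B n i).symm, ⋃ i, (B n i) ⁻¹' interior C,
      isOpen_iUnion fun i => isOpen_interior.preimage (B n i).continuous,
      fun p hp => mem_iUnion.2 (hn p hp), ?_⟩
    intro p hp
    obtain ⟨i, hi⟩ := mem_iUnion.1 hp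
    exact mem_iUnion.2 ⟨i, B n i p, interior_subset hi, by simp⟩
  by_contra hcon
  push Not at hcon
  choose p hp hpB using hcon
  choose ν hν1 hν2 using fun n i => exists_normal hc hne (hpB n i)
  have hcomp : IsCompact (C ×ˢ (Set.univ.pi fun _ : Fin m => sphere (0 : E) 1)) :=
    hk.prod (isCompact_univ_pi fun _ => isCompact_sphere _ _)
  obtain ⟨⟨q, ν'⟩, hmem, φ, hφ, hlm⟩ := hcomp.tendsto_subseq
    (x := fun n => (p n, ν n)) (fun n => ⟨hp n, fun i _ => by simp [hν1]⟩)
  have l1 : Tendsto (fun n => p (φ n)) atTop (𝓝 q) := (continuous_fst.tendsto _).comp hlm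
  have l2' : Tendsto (fun n => ν (φ n)) atTop (𝓝 ν') := (continuous_snd.tendsto _).comp hlm
  have l2 : ∀ i, Tendsto (fun n => ν (φ n) i) atTop (𝓝 (ν' i)) := fun i =>
    ((continuous_apply i).tendsto _).comp l2'
  have ls : Tendsto (fun n => s (φ n)) atTop (𝓝 0) := hs1.comp hφ.tendsto_atTop
  have hq : q ∈ C := hmem.1
  have hν'1 : ∀ i, ‖ν' i‖ = 1 := fun i => by simpa using hmem.2 i (mem_univ i)
  have lV : ∀ i, Tendsto (fun n => (s (φ n))⁻¹ • (B (φ n) i (p (φ n)) - p (φ n))) atTop
      (𝓝 (V i q)) := fun i => hlim i (fun n => p (φ n)) q φ hφ l1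
  have hBeq : ∀ i n, B (φ n) i (p (φ n)) = p (φ n) +
      s (φ n) • ((s (φ n))⁻¹ • (B (φ n) i (p (φ n)) - p (φ n))) := by
    intro i n
    rw [smul_smul, mul_inv_cancel₀ (hs0 _).ne', one_smul]
    abel
  have lB : ∀ i, Tendsto (fun n => B (φ n) i (p (φ n))) atTop (𝓝 q) := by
    intro i
    have h1 := l1.add (ls.smul (lV i))
    rw [zero_smul, add_zero] at h1
    refine h1.congr (fun n => ?_)
    rw [← hBeq i n]
  have nν : ∀ i, UnitNormal C q (ν' i) := fun i => ⟨hν'1 i, fun x hx =>
    le_of_tendsto_of_tendsto' ((l2 i).inner tendsto_const_nhds) ((l2 i).inner (lB i))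
      (fun n => hν2 _ i x hx)⟩
  have hge : ∀ i, 0 ≤ inner ℝ (ν' i) (V i q) := by
    intro i
    refine ge_of_tendsto' ((l2 i).inner (lV i)) (fun n => ?_)
    have h5 := hν2 (φ n) i _ (hp (φ n))
    rw [hBeq i n, inner_add_right, real_inner_smul_right] at h5
    have h7 : 0 ≤ s (φ n) * inner ℝ (ν (φ n) i)
        ((s (φ n))⁻¹ • (B (φ n) i (p (φ n)) - p (φ n))) := by linarith
    exact nonneg_of_mul_nonneg_right h7 (hs0 _)
  obtain ⟨i, hi⟩ := h q hq (ν' ⟨0, hm⟩) (nν _)
  rw [hs q hq _ _ (nν ⟨0, hm⟩) (nν i)] at hi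
  exact absurd (hge i) (not_le.2 hi)

/-- `dim W + 1` vectors of `W` positively spanning `W`. -/
theorem pos_span (W : Submodule ℝ E) {m : ℕ} (hW : Module.finrank ℝ W = m) :
    ∃ w : Fin (m + 1) → E, (∀ i, w i ∈ W) ∧ (∑ i, w i = 0) ∧
      ∀ ν : E, (∀ i, inner ℝ ν (w i) = 0) → ν ∈ Wᗮ := by
  let b : Module.Basis (Fin m) ℝ W := Module.finBasisOfFinrankEq ℝ W hW
  refine ⟨Fin.cons (-∑ i, (b i : E)) (fun i => (b i : E)), ?_, ?_, ?_⟩
  · intro i
    refine Fin.cases ?_ (fun j => ?_) i
    · simp only [Fin.cons_zero]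
      exact W.neg_mem (W.sum_mem fun i _ => (b i).2)
    · simp only [Fin.cons_succ]
      exact (b j).2
  · rw [Fin.sum_univ_succ]
    simp
  · intro ν hν
    rw [Submodule.mem_orthogonal']
    have h1 : (innerₗ E ν).comp W.subtype = 0 := by
      apply b.ext
      intro i
      have := hν i.succ
      simpa using this
    intro x hx
    have h2 := LinearMap.congr_fun h1 ⟨x, hx⟩
    simpa using h2

theorem smooth_upper {C : Set E} (hc : Convex ℝ C) (hk : IsCompact C)
    (hne : (interior C).Nonempty) (hs : Smooth C) : Covers C (Module.finrank ℝ E + 1) := by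
  obtain ⟨w, -, hsum, hw⟩ := pos_span (⊤ : Submodule ℝ E) (finrank_top ℝ E)
  let s : ℕ → ℝ := fun n => 1 / ((n : ℝ) + 1)
  have hs0 : ∀ n, 0 < s n := fun n => by positivity
  refine copies hc hk hne hs (Nat.succ_pos _) (fun n i => IsometryEquiv.addRight (s n • w i)) s hs0
    tendsto_one_div_add_atTop_nhds_zero_nat (fun i _ => w i) ?_ ?_
  · intro i p q φ _ _
    have : ∀ n, (s (φ n))⁻¹ • ((IsometryEquiv.addRight (s (φ n) • w i)) (p n) - p n) = w i := by
      intro n
      have h1 : (IsometryEquiv.addRight (s (φ n) • w i)) (p n) - p n = s (φ n) • w i := by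
        simp
      rw [h1, smul_smul, inv_mul_cancel₀ (hs0 _).ne', one_smul]
    simp only [this]
    exact tendsto_const_nhds
  · intro p _ ν hν
    by_contra hcon
    push Not at hcon
    have h1 : ∑ i, inner ℝ ν (w i) = 0 := by rw [← inner_sum, hsum, inner_zero_right]
    have h2 : ∀ i, inner ℝ ν (w i) = 0 := by
      have := (Finset.sum_eq_zero_iff_of_nonneg (fun i _ => hcon i)).1 h1
      exact fun i => this i (Finset.mem_univ i)
    have h3 := hw ν h2
    rw [Submodule.top_orthogonal_eq_bot, Submodule.mem_bot] at h3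
    have := hν.1
    rw [h3, norm_zero] at this
    exact zero_ne_one this

/-- Rotation in the plane of the orthonormal pair `u, e`. -/
theorem rotation {u e : E} (hu : ‖u‖ = 1) (he : ‖e‖ = 1) (hue : inner ℝ u e = 0) :
    ∃ R : ℝ → (E ≃ᵢ E), ∀ s x, R s x = x + (Real.cos s - 1) • (inner ℝ u x • u + inner ℝ e x • e) +
      Real.sin s • (inner ℝ e x • u - inner ℝ u x • e) := by
  let F : ℝ → E → E := fun s x => x + (Real.cos s - 1) • (inner ℝ u x • u + inner ℝ e x • e) +
      Real.sin s • (inner ℝ e x • u - inner ℝ u x • e)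
  have huu : inner ℝ u u = 1 := by rw [real_inner_self_eq_norm_sq, hu]; norm_num
  have hee : inner ℝ e e = 1 := by rw [real_inner_self_eq_norm_sq, he]; norm_num
  have heu : inner ℝ e u = 0 := by rw [real_inner_comm]; exact hue
  have hFu : ∀ s x, inner ℝ u (F s x) = Real.cos s * inner ℝ u x + Real.sin s * inner ℝ e x := by
    intro s x
    simp only [F, inner_add_right, inner_sub_right, real_inner_smul_right, huu, hue]
    ring
  have hFe : ∀ s x, inner ℝ e (F s x) = Real.cos s * inner ℝ e x - Real.sin s * inner ℝ u x := by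
    intro s x
    simp only [F, inner_add_right, inner_sub_right, real_inner_smul_right, hee, heu]
    ring
  have hinv : ∀ s x, F (-s) (F s x) = x := by
    intro s x
    have h1 : F (-s) (F s x) = F s x + (Real.cos s - 1) • (inner ℝ u (F s x) • u +
        inner ℝ e (F s x) • e) -
        Real.sin s • (inner ℝ e (F s x) • u - inner ℝ u (F s x) • e) := by
      simp only [F, Real.cos_neg, Real.sin_neg, neg_smul]
      abel
    rw [h1, hFu, hFe]
    have h2 : F s x = x + (Real.cos s - 1) • (inner ℝ u x • u + inner ℝ e x • e) +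
      Real.sin s • (inner ℝ e x • u - inner ℝ u x • e) := rfl
    rw [h2]
    have hcs := Real.sin_sq_add_cos_sq s
    have h3 : x + (Real.cos s - 1) • (inner ℝ u x • u + inner ℝ e x • e) +
        Real.sin s • (inner ℝ e x • u - inner ℝ u x • e) +
        (Real.cos s - 1) • ((Real.cos s * inner ℝ u x + Real.sin s * inner ℝ e x) • u +
          (Real.cos s * inner ℝ e x - Real.sin s * inner ℝ u x) • e) -
        Real.sin s • ((Real.cos s * inner ℝ e x - Real.sin s * inner ℝ u x) • u -
          (Real.cos s * inner ℝ u x + Real.sin s * inner ℝ e x) • e) =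
        x + ((Real.sin s ^ 2 + Real.cos s ^ 2 - 1) * inner ℝ u x) • u +
          ((Real.sin s ^ 2 + Real.cos s ^ 2 - 1) * inner ℝ e x) • e := by
      module
    rw [h3, hcs]
    simp
  have hinv2 : ∀ s x, F s (F (-s) x) = x := by
    intro s x
    have := hinv (-s) x
    rwa [neg_neg] at this
  have hsub : ∀ s x y, F s x - F s y = F s (x - y) := by
    intro s x y
    simp only [F, inner_sub_right]
    module
  have hnorm : ∀ s x, ‖F s x‖ = ‖x‖ := by
    intro s x
    have h1 : ‖F s x‖ ^ 2 = ‖x‖ ^ 2 := by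
      rw [← real_inner_self_eq_norm_sq, ← real_inner_self_eq_norm_sq]
      have h2 : inner ℝ (F s x) (F s x) = inner ℝ x (F s x) +
          (Real.cos s - 1) * (inner ℝ u x * inner ℝ u (F s x) + inner ℝ e x * inner ℝ e (F s x)) +
          Real.sin s * (inner ℝ e x * inner ℝ u (F s x) - inner ℝ u x * inner ℝ e (F s x)) := by
        conv_lhs => rw [show inner ℝ (F s x) (F s x) = inner ℝ (x + (Real.cos s - 1) •
          (inner ℝ u x • u + inner ℝ e x • e) +
          Real.sin s • (inner ℝ e x • u - inner ℝ u x • e)) (F s x) from rfl]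
        simp only [inner_add_left, inner_sub_left, real_inner_smul_left]
      have h3 : inner ℝ x (F s x) = inner ℝ x x +
          (Real.cos s - 1) * (inner ℝ u x * inner ℝ u x + inner ℝ e x * inner ℝ e x) := by
        simp only [F, inner_add_right, inner_sub_right, real_inner_smul_right,
          real_inner_comm u x, real_inner_comm e x]
        ring
      rw [h2, h3, hFu, hFe]
      have hcs := Real.sin_sq_add_cos_sq s
      linear_combination (inner ℝ u x ^ 2 + inner ℝ e x ^ 2) * hcs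
    exact (pow_left_inj₀ (norm_nonneg _) (norm_nonneg _) two_ne_zero).1 h1
  refine ⟨fun s => IsometryEquiv.mk' (F s) (F (-s)) (hinv2 s) ?_, fun s x => rfl⟩
  apply Isometry.of_dist_eq
  intro x y
  rw [dist_eq_norm, dist_eq_norm, hsub, hnorm]

theorem separateD {C : Set E} (hc : Convex ℝ C) (hk : IsCompact C) (hCne : C.Nonempty) {u : E}
    (h : ∀ x ∈ C, ∀ y ∈ C, (∀ z ∈ C, inner ℝ u z ≤ inner ℝ u x) →
      (∀ z ∈ C, inner ℝ u y ≤ inner ℝ u z) → ∀ c : ℝ, x - y ≠ c • u) :
    ∃ (e : E) (α : ℝ), ‖e‖ = 1 ∧ inner ℝ u e = 0 ∧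
      (∀ p ∈ C, (∀ z ∈ C, inner ℝ u z ≤ inner ℝ u p) → inner ℝ e p + α < 0) ∧
      (∀ p ∈ C, (∀ z ∈ C, inner ℝ u p ≤ inner ℝ u z) → 0 < inner ℝ e p + α) := by
  have hcomplete : CompleteSpace E := FiniteDimensional.complete ℝ E
  have cu : Continuous fun z : E => inner ℝ u z := by fun_prop
  obtain ⟨x0, hx0, hx0m⟩ := hk.exists_isMaxOn hCne cu.continuousOn
  obtain ⟨y0, hy0, hy0m⟩ := hk.exists_isMinOn hCne cu.continuousOn
  have hx0m' : ∀ z ∈ C, inner ℝ u z ≤ inner ℝ u x0 := fun z hz => hx0m hz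
  have hy0m' : ∀ z ∈ C, inner ℝ u y0 ≤ inner ℝ u z := fun z hz => hy0m hz
  let Fu : Set E := C ∩ {z | inner ℝ u x0 ≤ inner ℝ u z}
  let Fd : Set E := C ∩ {z | inner ℝ u z ≤ inner ℝ u y0}
  have kFu : IsCompact Fu := hk.inter_right (isClosed_le continuous_const cu)
  have kFd : IsCompact Fd := hk.inter_right (isClosed_le cu continuous_const)
  have mFu : ∀ x ∈ C, (∀ z ∈ C, inner ℝ u z ≤ inner ℝ u x) → x ∈ Fu := fun x hx h =>
    ⟨hx, h _ hx0⟩
  have mFd : ∀ x ∈ C, (∀ z ∈ C, inner ℝ u x ≤ inner ℝ u z) → x ∈ Fd := fun x hx h =>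
    ⟨hx, h _ hy0⟩
  have cFu : Convex ℝ Fu := by
    apply hc.inter
    exact convex_halfSpace_ge (f := fun z : E => inner ℝ u z)
      ⟨fun x y => inner_add_right _ _ _, fun c x => real_inner_smul_right _ _ _⟩ _
  have cFd : Convex ℝ Fd := by
    apply hc.inter
    exact convex_halfSpace_le (f := fun z : E => inner ℝ u z)
      ⟨fun x y => inner_add_right _ _ _, fun c x => real_inner_smul_right _ _ _⟩ _
  have neFu : Fu.Nonempty := ⟨x0, mFu x0 hx0 hx0m'⟩
  have neFd : Fd.Nonempty := ⟨y0, mFd y0 hy0 hy0m'⟩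
  let D : Set E := (LinearMap.fst ℝ E E - LinearMap.snd ℝ E E) '' (Fu ×ˢ Fd)
  have cD : Convex ℝ D := (cFu.prod cFd).linear_image _
  have kD : IsCompact D := by
    apply (kFu.prod kFd).image
    show Continuous fun w : E × E => w.1 - w.2
    fun_prop
  have memD : ∀ x ∈ Fu, ∀ y ∈ Fd, x - y ∈ D := fun x hx y hy => ⟨(x, y), ⟨hx, hy⟩, rfl⟩
  have hdisj : Disjoint D ((ℝ ∙ u : Submodule ℝ E) : Set E) := by
    rw [Set.disjoint_left]
    rintro _ ⟨⟨x, y⟩, ⟨hx, hy⟩, rfl⟩ hmem
    obtain ⟨c, hc⟩ := Submodule.mem_span_singleton.1 hmem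
    apply h x hx.1 y hy.1 (fun z hz => (hx0m' z hz).trans hx.2)
      (fun z hz => le_trans hy.2 (hy0m' z hz)) c
    rw [hc]
    rfl
  obtain ⟨f, a, b, hfa, hab, hfb⟩ := geometric_hahn_banach_compact_closed cD kD
    (Submodule.convex (ℝ ∙ u)) (Submodule.closed_of_finiteDimensional _) hdisj
  have hb0 : b < 0 := by
    have := hfb 0 (Submodule.zero_mem _)
    rwa [map_zero] at this
  have hfu : f u = 0 := by
    by_contra hne
    have := hfb ((b / f u) • u) (Submodule.smul_mem _ _ (Submodule.mem_span_singleton_self u))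
    rw [map_smul, smul_eq_mul, div_mul_cancel₀ _ hne] at this
    exact lt_irrefl _ this
  set w : E := (InnerProductSpace.toDual ℝ E).symm f with hwdef
  have hw : ∀ x : E, inner ℝ w x = f x := fun x => InnerProductSpace.toDual_symm_apply
  have hw0 : w ≠ 0 := by
    intro h0
    obtain ⟨x, hx⟩ := neFu
    obtain ⟨y, hy⟩ := neFd
    have := hfa _ (memD x hx y hy)
    rw [← hw, h0, inner_zero_left] at this
    linarith
  have hwn : 0 < ‖w‖⁻¹ := inv_pos.2 (norm_pos_iff.2 hw0)
  set e : E := (‖w‖⁻¹ : ℝ) • w with he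
  have hlt : ∀ x ∈ Fu, ∀ y ∈ Fd, inner ℝ e x < inner ℝ e y := by
    intro x hx y hy
    have h1 := hfa _ (memD x hx y hy)
    rw [map_sub] at h1
    rw [he, real_inner_smul_left, real_inner_smul_left, hw, hw]
    have : f x < f y := by linarith
    exact mul_lt_mul_of_pos_left this hwn
  have ce : Continuous fun z : E => inner ℝ e z := by fun_prop
  obtain ⟨x1, hx1, hx1m⟩ := kFu.exists_isMaxOn neFu ce.continuousOn
  obtain ⟨y1, hy1, hy1m⟩ := kFd.exists_isMinOn neFd ce.continuousOn
  have h11 := hlt x1 hx1 y1 hy1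
  refine ⟨e, -(inner ℝ e x1 + inner ℝ e y1) / 2, ?_, ?_, ?_, ?_⟩
  · rw [he, norm_smul, norm_inv, norm_norm]
    exact inv_mul_cancel₀ (norm_ne_zero_iff.2 hw0)
  · rw [he, real_inner_smul_right, real_inner_comm, hw, hfu, mul_zero]
  · intro p hp hpm
    have : inner ℝ e p ≤ inner ℝ e x1 := hx1m (mFu p hp hpm)
    linarith
  · intro p hp hpm
    have : inner ℝ e y1 ≤ inner ℝ e p := hy1m (mFd p hp hpm)
    linarith

theorem exists_KD {C : Set E} (hk : IsCompact C) {m : ℕ} (w : Fin m → E) (J : E → E)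
    (hJ : Continuous J) (v : E) (hw1 : ∀ ν : E, ∃ i, inner ℝ ν (w i) ≤ 0)
    (h : ∀ p ∈ C, ∀ ν, UnitNormal C p ν → (∀ i, 0 ≤ inner ℝ ν (w i)) →
      inner ℝ ν (J p + v) < 0) :
    ∃ K : ℝ, ∀ p ∈ C, ∀ ν, UnitNormal C p ν →
      ∃ i, inner ℝ ν (J p + (K • w i + v)) < 0 := by
  by_contra hcon
  push Not at hcon
  choose p hp ν hν hle using fun n : ℕ => hcon (n : ℝ)
  have hcomp : IsCompact (C ×ˢ sphere (0 : E) 1) := hk.prod (isCompact_sphere _ _)
  obtain ⟨⟨q, ν'⟩, hmem, φ, hφ, hlim⟩ := hcomp.tendsto_subseq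
    (x := fun n => (p n, ν n)) (fun n => ⟨hp n, by simp [(hν n).1]⟩)
  have l1 : Tendsto (fun n => p (φ n)) atTop (𝓝 q) := (continuous_fst.tendsto _).comp hlim
  have l2 : Tendsto (fun n => ν (φ n)) atTop (𝓝 ν') := (continuous_snd.tendsto _).comp hlim
  have hq : q ∈ C := hmem.1
  have hν'1 : ‖ν'‖ = 1 := by simpa using hmem.2
  have nν : UnitNormal C q ν' := ⟨hν'1, fun x hx =>
    le_of_tendsto_of_tendsto' (l2.inner tendsto_const_nhds) (l2.inner l1)
      (fun n => (hν _).2 x hx)⟩
  have le2 : Tendsto (fun n => inner ℝ (ν (φ n)) (J (p (φ n)) + v)) atTop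
      (𝓝 (inner ℝ ν' (J q + v))) :=
    l2.inner (((hJ.tendsto q).comp l1).add tendsto_const_nhds)
  have hsplit : ∀ n i, 0 ≤ inner ℝ (ν n) (J (p n) + v) + n * inner ℝ (ν n) (w i) := by
    intro n i
    have := hle n i
    have h2 : J (p n) + ((n : ℝ) • w i + v) = (J (p n) + v) + (n : ℝ) • w i := by
      abel
    rw [h2, inner_add_right, real_inner_smul_right] at this
    exact this
  have h1 : 0 ≤ inner ℝ ν' (J q + v) := by
    refine ge_of_tendsto' le2 (fun n => ?_)
    obtain ⟨i, hi⟩ := hw1 (ν (φ n))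
    have h3 := hsplit (φ n) i
    have h4 : ((φ n : ℕ) : ℝ) * inner ℝ (ν (φ n)) (w i) ≤ 0 :=
      mul_nonpos_of_nonneg_of_nonpos (Nat.cast_nonneg _) hi
    linarith
  have h2 : ∀ i, 0 ≤ inner ℝ ν' (w i) := by
    intro i
    by_contra hx
    push Not at hx
    have le1 : Tendsto (fun n => - inner ℝ (ν (φ n)) (w i)) atTop (𝓝 (- inner ℝ ν' (w i))) :=
      (l2.inner tendsto_const_nhds).neg
    have hφt : Tendsto (fun n => ((φ n : ℕ) : ℝ)) atTop atTop :=
      tendsto_natCast_atTop_atTop.comp hφ.tendsto_atTop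
    have h3 : Tendsto (fun n => ((φ n : ℕ) : ℝ) * - inner ℝ (ν (φ n)) (w i)) atTop atTop :=
      hφt.atTop_mul_pos (neg_pos.2 hx) le1
    have h4 : Tendsto (fun n => inner ℝ (ν (φ n)) (J (p (φ n)) + v)) atTop atTop :=
      tendsto_atTop_mono (fun n => by have := hsplit (φ n) i; linarith) h3
    exact not_tendsto_atTop_of_tendsto_nhds le2 h4
  have := h q hq ν' nν h2
  linarith

theorem covers_finrank {C : Set E} (hc : Convex ℝ C) (hk : IsCompact C)
    (hne : (interior C).Nonempty) (hs : Smooth C) {u : E} (hu : ‖u‖ = 1)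
    (h : ∀ x ∈ C, ∀ y ∈ C, (∀ z ∈ C, inner ℝ u z ≤ inner ℝ u x) →
      (∀ z ∈ C, inner ℝ u y ≤ inner ℝ u z) → ∀ c : ℝ, x - y ≠ c • u) :
    Covers C (Module.finrank ℝ E) := by
  obtain ⟨e, α, he, hue, h1, h2⟩ := separateD hc hk (hne.mono interior_subset) h
  have hu0 : u ≠ 0 := by
    intro h0; rw [h0, norm_zero] at hu; exact zero_ne_one hu
  haveI : Nontrivial E := ⟨⟨u, 0, hu0⟩⟩
  obtain ⟨m, hm⟩ : ∃ m, Module.finrank ℝ E = m + 1 :=
    ⟨Module.finrank ℝ E - 1, by have := Module.finrank_pos (R := ℝ) (M := E); omega⟩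
  haveI : Fact (Module.finrank ℝ E = m + 1) := ⟨hm⟩
  have hW : Module.finrank ℝ (ℝ ∙ u : Submodule ℝ E)ᗮ = m :=
    Submodule.finrank_orthogonal_span_singleton hu0
  obtain ⟨w, hwW, hsum, hwp⟩ := pos_span _ hW
  rw [Submodule.orthogonal_orthogonal] at hwp
  have huu : inner ℝ u u = 1 := by rw [real_inner_self_eq_norm_sq, hu]; norm_num
  let J : E → E := fun x => inner ℝ e x • u - inner ℝ u x • e
  have hJ : Continuous J := by
    apply Continuous.sub
    · exact (continuous_const.inner continuous_id).smul continuous_const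
    · exact (continuous_const.inner continuous_id).smul continuous_const
  have hsum0 : ∀ ν : E, ∑ i, inner ℝ ν (w i) = 0 := fun ν => by
    rw [← inner_sum, hsum, inner_zero_right]
  have hw1 : ∀ ν : E, ∃ i, inner ℝ ν (w i) ≤ 0 := by
    intro ν
    by_contra hcon
    push Not at hcon
    have : 0 < ∑ i, inner ℝ ν (w i) := Finset.sum_pos (fun i _ => hcon i) Finset.univ_nonempty
    rw [hsum0] at this
    exact lt_irrefl _ this
  have hJu : ∀ p, inner ℝ u (J p + α • u) = inner ℝ e p + α := by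
    intro p
    simp only [J, inner_add_right, inner_sub_right, real_inner_smul_right, huu, hue]
    ring
  obtain ⟨K, hK⟩ := exists_KD hk w J hJ (α • u) hw1 (by
    intro p hp ν hν hge
    have hz : ∀ i, inner ℝ ν (w i) = 0 := by
      have := (Finset.sum_eq_zero_iff_of_nonneg (fun i _ => hge i)).1 (hsum0 ν)
      exact fun i => this i (Finset.mem_univ i)
    obtain ⟨c, hcν⟩ := Submodule.mem_span_singleton.1 (hwp ν hz)
    have hc1 : |c| = 1 := by
      have := hν.1
      rw [← hcν, norm_smul, hu, mul_one, Real.norm_eq_abs] at this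
      exact this
    rcases (abs_eq zero_le_one).1 hc1 with h3 | h3
    · have hνu : ν = u := by rw [← hcν, h3, one_smul]
      rw [hνu, hJu]
      exact h1 p hp (fun z hz => by rw [← hνu]; exact hν.2 z hz)
    · have hνu : ν = -u := by rw [← hcν, h3, neg_one_smul]
      rw [hνu, inner_neg_left, hJu]
      have := h2 p hp (fun z hz => by
        have h8 := hν.2 z hz
        rw [hνu, inner_neg_left, inner_neg_left] at h8
        linarith)
      linarith)
  obtain ⟨R, hR⟩ := rotation hu he hue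
  let s : ℕ → ℝ := fun n => 1 / ((n : ℝ) + 1)
  have hs0 : ∀ n, 0 < s n := fun n => by positivity
  have hs1 : Tendsto s atTop (𝓝 0) := tendsto_one_div_add_atTop_nhds_zero_nat
  rw [hm]
  refine copies hc hk hne hs (Nat.succ_pos _)
    (fun n i => (R (s n)).trans (IsometryEquiv.addRight (s n • (K • w i + α • u)))) s hs0
    hs1 (fun i x => J x + (K • w i + α • u)) ?_ hK
  intro i p q φ hφ hpq
  have ls : Tendsto (fun n => s (φ n)) atTop (𝓝[≠] 0) := by
    apply tendsto_nhdsWithin_of_tendsto_nhds_of_eventually_within _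
      (hs1.comp hφ.tendsto_atTop)
    exact Eventually.of_forall fun n => (hs0 _).ne'
  have lc : Tendsto (fun n => (s (φ n))⁻¹ * (Real.cos (s (φ n)) - 1)) atTop (𝓝 0) := by
    have h3 := ((Real.hasDerivAt_cos 0).tendsto_slope_zero).comp ls
    simpa [Function.comp_def] using h3
  have lsn : Tendsto (fun n => (s (φ n))⁻¹ * Real.sin (s (φ n))) atTop (𝓝 1) := by
    have h3 := ((Real.hasDerivAt_sin 0).tendsto_slope_zero).comp ls
    simpa [Function.comp_def] using h3
  have hform : ∀ n, (s (φ n))⁻¹ • (((R (s (φ n))).trans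
      (IsometryEquiv.addRight (s (φ n) • (K • w i + α • u)))) (p n) - p n) =
      ((s (φ n))⁻¹ * (Real.cos (s (φ n)) - 1)) • (inner ℝ u (p n) • u + inner ℝ e (p n) • e) +
      ((s (φ n))⁻¹ * Real.sin (s (φ n))) • J (p n) + (K • w i + α • u) := by
    intro n
    have h4 : ((R (s (φ n))).trans
      (IsometryEquiv.addRight (s (φ n) • (K • w i + α • u)))) (p n) =
      R (s (φ n)) (p n) + s (φ n) • (K • w i + α • u) := rfl
    have h5 : K • w i + α • u = (s (φ n))⁻¹ • (s (φ n) • (K • w i + α • u)) := by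
      rw [smul_smul, inv_mul_cancel₀ (hs0 _).ne', one_smul]
    rw [h4, hR]
    conv_rhs => rw [h5]
    simp only [J]
    module
  simp only [hform]
  have l6 : Tendsto (fun n => inner ℝ u (p n) • u + inner ℝ e (p n) • e) atTop
      (𝓝 (inner ℝ u q • u + inner ℝ e q • e)) :=
    ((tendsto_const_nhds.inner hpq).smul_const u).add
      ((tendsto_const_nhds.inner hpq).smul_const e)
  have l7 : Tendsto (fun n => J (p n)) atTop (𝓝 (J q)) := (hJ.tendsto q).comp hpq
  have l8 := ((lc.smul l6).add (lsn.smul l7)).add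
    (tendsto_const_nhds (x := K • w i + α • u))
  simpa using l8

theorem constantWidth_ofD {C : Set E} (hk : IsCompact C) (hCne : C.Nonempty)
    (h : ∀ u : E, ‖u‖ = 1 → ∃ x ∈ C, ∃ y ∈ C, (∀ z ∈ C, inner ℝ u z ≤ inner ℝ u x) ∧
      (∀ z ∈ C, inner ℝ u y ≤ inner ℝ u z) ∧ ∃ c : ℝ, x - y = c • u) :
    ConstantWidth C := by
  -- chords
  have hch : ∀ u : E, ‖u‖ = 1 → ∃ x ∈ C, ∃ y ∈ C, x - y = width C u • u := by
    intro u hu
    obtain ⟨x, hx, y, hy, hxm, hym, c, hxy⟩ := h u hu
    refine ⟨x, hx, y, hy, ?_⟩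
    rw [width_eq u hx hy hxm hym, ← inner_sub_right, hxy, real_inner_smul_right,
      real_inner_self_eq_norm_sq, hu]
    norm_num
  have hwge : ∀ u v : E, ‖u‖ = 1 → width C u * inner ℝ v u ≤ width C v := by
    intro u v hu
    obtain ⟨x, hx, y, hy, hxy⟩ := hch u hu
    have h1 := width_ge hk v hx hy
    rw [← inner_sub_right, hxy, real_inner_smul_right] at h1
    exact h1
  have hw0 : ∀ u, 0 ≤ width C u := by
    intro u
    obtain ⟨x, hx⟩ := hCne
    have := width_ge hk u hx hx
    linarith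
  have hneg : ∀ u : E, ‖u‖ = 1 → width C u ≤ width C (-u) := by
    intro u hu
    obtain ⟨x, hx, y, hy, hxy⟩ := hch u hu
    have h1 := width_ge hk (-u) hy hx
    rw [← inner_sub_right, ← neg_sub, hxy, inner_neg_neg, real_inner_smul_right,
      real_inner_self_eq_norm_sq, hu] at h1
    linarith
  -- widths are at most the diameter
  have hwle : ∀ u : E, ‖u‖ = 1 → width C u ≤ diam C := by
    intro u hu
    obtain ⟨x, hx, y, hy, hxy⟩ := hch u hu
    have h1 : dist x y ≤ diam C := dist_le_diam_of_mem hk.isBounded hx hy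
    rw [dist_eq_norm, hxy, norm_smul, hu, Real.norm_of_nonneg (hw0 u)] at h1
    linarith
  -- constancy along a great circle
  have hcirc : ∀ u e : E, ‖u‖ = 1 → ‖e‖ = 1 → inner ℝ u e = 0 → ∀ a b : ℝ,
      width C (Real.cos a • u + Real.sin a • e) = width C (Real.cos b • u + Real.sin b • e) := by
    intro u e hu he hue
    have huu : inner ℝ u u = 1 := by rw [real_inner_self_eq_norm_sq, hu]; norm_num
    have hee : inner ℝ e e = 1 := by rw [real_inner_self_eq_norm_sq, he]; norm_num
    have heu : inner ℝ e u = 0 := by rw [real_inner_comm]; exact hue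
    have hin : ∀ a b : ℝ, inner ℝ (Real.cos a • u + Real.sin a • e)
        (Real.cos b • u + Real.sin b • e) = Real.cos (a - b) := by
      intro a b
      simp only [inner_add_left, inner_add_right, real_inner_smul_left, real_inner_smul_right,
        huu, hee, hue, heu]
      rw [Real.cos_sub]
      ring
    have hn : ∀ θ : ℝ, ‖Real.cos θ • u + Real.sin θ • e‖ = 1 := by
      intro θ
      have h1 := hin θ θ
      rw [real_inner_self_eq_norm_sq, sub_self, Real.cos_zero] at h1
      nlinarith [norm_nonneg (Real.cos θ • u + Real.sin θ • e)]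
    let f : ℝ → ℝ := fun θ => width C (Real.cos θ • u + Real.sin θ • e)
    have hbd : ∀ a b : ℝ, f a - f b ≤ diam C / 2 * (a - b) ^ 2 := by
      intro a b
      have h1 := hwge (Real.cos a • u + Real.sin a • e) (Real.cos b • u + Real.sin b • e) (hn a)
      rw [hin] at h1
      have h2 := Real.one_sub_sq_div_two_le_cos (x := b - a)
      have h3 := hwle _ (hn a)
      have h4 := hw0 (Real.cos a • u + Real.sin a • e)
      show width C (Real.cos a • u + Real.sin a • e) -
        width C (Real.cos b • u + Real.sin b • e) ≤ _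
      have h5 : width C (Real.cos a • u + Real.sin a • e) * (1 - (b - a) ^ 2 / 2) ≤
          width C (Real.cos a • u + Real.sin a • e) * Real.cos (b - a) :=
        mul_le_mul_of_nonneg_left h2 h4
      have h6 : width C (Real.cos a • u + Real.sin a • e) * ((b - a) ^ 2 / 2) ≤
          diam C * ((b - a) ^ 2 / 2) := mul_le_mul_of_nonneg_right h3 (by positivity)
      nlinarith
    have hder : ∀ x, HasDerivAt f 0 x := by
      intro x
      rw [hasDerivAt_iff_isLittleO]
      have h1 : (fun y => f y - f x - (y - x) • (0 : ℝ)) =O[𝓝 x] fun y => ‖y - x‖ ^ 2 := by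
        apply Asymptotics.IsBigO.of_bound (diam C / 2)
        apply Eventually.of_forall
        intro y
        simp only [smul_zero, sub_zero, norm_pow, Real.norm_eq_abs, sq_abs]
        rw [abs_le]
        have h2 := hbd x y
        have h3 := hbd y x
        constructor
        · nlinarith
        · exact h3
      exact h1.trans_isLittleO (Asymptotics.isLittleO_pow_sub_sub x one_lt_two)
    exact fun a b => is_const_of_deriv_eq_zero (fun x => (hder x).differentiableAt)
      (fun x => (hder x).deriv) a b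
  by_cases hE : ∃ u0 : E, ‖u0‖ = 1
  · obtain ⟨u, hu⟩ := hE
    refine ⟨width C u, fun v hv => ?_⟩
    set c : ℝ := inner ℝ u v with hc
    set r : E := v - c • u with hr
    have huu : inner ℝ u u = 1 := by rw [real_inner_self_eq_norm_sq, hu]; norm_num
    have hrn : ‖r‖ ^ 2 = 1 - c ^ 2 := by
      rw [hr, norm_sub_sq_real, hv, real_inner_smul_right, norm_smul, hu, real_inner_comm, ← hc,
        mul_one, Real.norm_eq_abs, sq_abs]
      ring
    have hur : inner ℝ u r = 0 := by
      rw [hr, inner_sub_right, real_inner_smul_right, huu, ← hc]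
      ring
    by_cases hr0 : r = 0
    · have hc2 : c ^ 2 = 1 := by
        rw [hr0, norm_zero] at hrn
        linarith
      have hvc : v = c • u := by
        rw [hr] at hr0
        exact sub_eq_zero.1 hr0
      have hc3 : c = 1 ∨ c = -1 := by
        have h9 : (c - 1) * (c + 1) = 0 := by linarith [hc2, show (c - 1) * (c + 1) = c ^ 2 - 1 by ring]
        rcases mul_eq_zero.1 h9 with h | h
        · left; linarith
        · right; linarith
      rcases hc3 with h3 | h3
      · rw [hvc, h3, one_smul]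
      · have h4 : v = -u := by rw [hvc, h3, neg_one_smul]
        rw [h4]
        apply le_antisymm
        · have := hneg (-u) (by rw [norm_neg, hu])
          rwa [neg_neg] at this
        · exact hneg u hu
    · have hrp : 0 < ‖r‖ := norm_pos_iff.2 hr0
      have hep : ‖(‖r‖⁻¹ : ℝ) • r‖ = 1 := by
        rw [norm_smul, norm_inv, norm_norm]
        exact inv_mul_cancel₀ hrp.ne'
      have heu : inner ℝ u ((‖r‖⁻¹ : ℝ) • r) = 0 := by
        rw [real_inner_smul_right, hur, mul_zero]
      have hc1 : c ^ 2 ≤ 1 := by nlinarith [sq_nonneg ‖r‖]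
      have hcl : -1 ≤ c := by nlinarith
      have hcu : c ≤ 1 := by nlinarith
      have h5 := hcirc u _ hu hep heu (Real.arccos c) 0
      rw [Real.cos_arccos hcl hcu, Real.sin_arccos, ← hrn, Real.sqrt_sq hrp.le, smul_smul,
        mul_inv_cancel₀ hrp.ne', one_smul, Real.cos_zero, Real.sin_zero, one_smul, zero_smul,
        add_zero] at h5
      have h6 : c • u + r = v := by rw [hr]; abel
      rw [h6] at h5
      exact h5
  · exact ⟨0, fun u hu => absurd ⟨u, hu⟩ hE⟩

/-- A smooth convex body which is not of constant width needs at most `dim E` copies. -/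
theorem nonconst_upper {C : Set E} (hc : Convex ℝ C) (hk : IsCompact C)
    (hne : (interior C).Nonempty) (hs : Smooth C) (hw : ¬ ConstantWidth C) :
    Covers C (Module.finrank ℝ E) := by
  by_contra hcov
  apply hw
  apply constantWidth_ofD hk (hne.mono interior_subset)
  intro u hu
  by_contra hcon
  push Not at hcon
  exact hcov (covers_finrank hc hk hne hs hu hcon)

theorem smooth_closedBall : Smooth (closedBall (0 : E) 1) := by
  have key : ∀ p ∈ closedBall (0 : E) 1, ∀ ν, UnitNormal (closedBall (0 : E) 1) p ν → ν = p := by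
    intro p hp ν hν
    have h1 := hν.2 ν (by simp [hν.1])
    rw [real_inner_self_eq_norm_sq, hν.1] at h1
    have h2 : ‖p‖ ≤ 1 := by simpa using hp
    rw [← sub_eq_zero, ← norm_eq_zero]
    have h3 : ‖ν - p‖ ^ 2 ≤ 0 := by
      rw [norm_sub_sq_real, hν.1]
      have := pow_le_pow_left₀ (norm_nonneg _) h2 2
      nlinarith
    nlinarith [norm_nonneg (ν - p)]
  intro p hp ν μ hν hμ
  rw [key p hp ν hν, key p hp μ hμ]

end Pool.Agent.Helper2.NewtonSmoothD
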