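import Mathlib

set_option autoImplicit false

namespace Pool.Agent.Helper2.Suz

open Matrix

set_option linter.unusedSectionVars false
set_option linter.unusedSimpArgs false

variable {F : Type} [Field F]

/-- The symplectic form. -/
def B (X Y : Fin 4 → F) : F := X 0 * Y 3 + X 3 * Y 0 + X 1 * Y 2 + X 2 * Y 1

/-- Quadratic forms with polarisation `B`. -/
def IsForm (f : (Fin 4 → F) → F) : Prop :=
  (∀ X Y, f (X + Y) = f X + f Y + B X Y) ∧ ∀ (c : F) (X : Fin 4 → F), f (c • X) = c ^ 2 * f X

/-- The quadratic form with given diagonal coefficients. -/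
def QF (v X : Fin 4 → F) : F :=
  X 0 * X 3 + X 1 * X 2 + v 0 * X 0 ^ 2 + v 1 * X 1 ^ 2 + v 2 * X 2 ^ 2 + v 3 * X 3 ^ 2

variable [CharP F 2]

theorem two_eq_zero : (2 : F) = 0 := by
  have := CharP.cast_eq_zero F 2
  exact_mod_cast this

theorem isForm_QF (v : Fin 4 → F) : IsForm (QF v) := by
  have h2 : (2 : F) = 0 := two_eq_zero
  constructor
  · intro X Y
    simp only [QF, B, Pi.add_apply]
    linear_combination (v 0 * X 0 * Y 0 + v 1 * X 1 * Y 1 + v 2 * X 2 * Y 2 + v 3 * X 3 * Y 3) * h2
  · intro c X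
    simp only [QF, Pi.smul_apply, smul_eq_mul]
    ring

theorem eq_sum (X : Fin 4 → F) : X = X 0 • (Pi.single 0 1 : Fin 4 → F) + (X 1 • (Pi.single 1 1 : Fin 4 → F)
    + (X 2 • (Pi.single 2 1 : Fin 4 → F) + X 3 • (Pi.single 3 1 : Fin 4 → F))) := by
  funext i
  fin_cases i <;> simp [Pi.single_apply]

theorem form_eq {f : (Fin 4 → F) → F} (hf : IsForm f) (X : Fin 4 → F) :
    f X = QF (fun i => f (Pi.single i 1)) X := by
  conv_lhs => rw [eq_sum X]
  rw [hf.1, hf.1, hf.1, hf.2, hf.2, hf.2, hf.2]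
  simp only [B, QF, Pi.add_apply, Pi.smul_apply, smul_eq_mul, Pi.single_apply]
  simp
  ring

theorem form_ext {f g : (Fin 4 → F) → F} (hf : IsForm f) (hg : IsForm g)
    (h : ∀ i : Fin 4, f (Pi.single i 1) = g (Pi.single i 1)) : f = g := by
  funext X
  rw [form_eq hf, form_eq hg]
  simp only [QF, h]

variable (θ : F →+* F)

/-- Suzuki's matrices. -/
def matS (a b : F) : Matrix (Fin 4) (Fin 4) F :=
  !![1, 0, 0, 0;
     a, 1, 0, 0;
     b, θ a, 1, 0;
     a ^ 2 * θ a + a * b + θ b, a * θ a + b, a, 1]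

def matM (m : F) : Matrix (Fin 4) (Fin 4) F :=
  !![θ m * m, 0, 0, 0;
     0, m, 0, 0;
     0, 0, m⁻¹, 0;
     0, 0, 0, (θ m * m)⁻¹]

def matT : Matrix (Fin 4) (Fin 4) F :=
  !![0, 0, 0, 1;
     0, 0, 1, 0;
     0, 1, 0, 0;
     1, 0, 0, 0]

theorem mulVec_S (a b : F) (X : Fin 4 → F) : (matS θ a b).mulVec X =
    ![X 0, a * X 0 + X 1, b * X 0 + θ a * X 1 + X 2,
      (a ^ 2 * θ a + a * b + θ b) * X 0 + (a * θ a + b) * X 1 + a * X 2 + X 3] := by
  funext i
  fin_cases i <;> simp [matS, Matrix.mulVec, dotProduct, Fin.sum_univ_four]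

theorem mulVec_M (m : F) (X : Fin 4 → F) : (matM θ m).mulVec X =
    ![θ m * m * X 0, m * X 1, m⁻¹ * X 2, (θ m * m)⁻¹ * X 3] := by
  funext i
  fin_cases i <;> simp [matM, Matrix.mulVec, dotProduct, Fin.sum_univ_four]

theorem mulVec_T (X : Fin 4 → F) : (matT).mulVec X = ![X 3, X 2, X 1, X 0] := by
  funext i
  fin_cases i <;> simp [matT, Matrix.mulVec, dotProduct, Fin.sum_univ_four]

/-- index set of the spread -/
abbrev O (F : Type) : Type := Option (F × F)

/-- the spread -/
def ell : O F → Set (Fin 4 → F)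
  | none => {X | X 0 = 0 ∧ X 1 = 0}
  | some (a, b) => {X | X 2 = (b + a * θ a) * X 0 + θ a * X 1 ∧ X 3 = θ b * X 0 + (b + a * θ a) * X 1}

theorem mem_none (X : Fin 4 → F) : X ∈ ell θ none ↔ X 0 = 0 ∧ X 1 = 0 := Iff.rfl

theorem mem_some (a b : F) (X : Fin 4 → F) : X ∈ ell θ (some (a, b)) ↔
    X 2 = (b + a * θ a) * X 0 + θ a * X 1 ∧ X 3 = θ b * X 0 + (b + a * θ a) * X 1 := Iff.rfl

theorem B_S (a b : F) (X Y : Fin 4 → F) :
    B ((matS θ a b).mulVec X) ((matS θ a b).mulVec Y) = B X Y := by
  have h2 : (2 : F) = 0 := two_eq_zero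
  rw [mulVec_S, mulVec_S]
  simp [B]
  linear_combination ((a ^ 2 * θ a + a * b + θ b) * X 0 * Y 0
    + (a * θ a + b) * (X 0 * Y 1 + X 1 * Y 0) + a * (X 0 * Y 2 + X 2 * Y 0)
    + b * (a * X 0 * Y 0) + θ a * X 1 * Y 1) * h2

theorem B_M {m : F} (hm : m ≠ 0) (X Y : Fin 4 → F) :
    B ((matM θ m).mulVec X) ((matM θ m).mulVec Y) = B X Y := by
  have h1 : θ m ≠ 0 := by simpa using hm
  rw [mulVec_M, mulVec_M]
  simp [B]
  field_simp

theorem B_T (X Y : Fin 4 → F) : B ((matT).mulVec X) ((matT).mulVec Y) = B X Y := by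
  rw [mulVec_T, mulVec_T]
  simp [B]
  ring

variable (hθ : ∀ x, θ (θ x) = x ^ 2)

include hθ in
theorem theta_ne (t : F) : θ t + t + 1 ≠ 0 := by
  intro h
  have h2 : (2 : F) = 0 := two_eq_zero
  have h1 : θ t = t + 1 := by linear_combination h - (t + 1) * h2
  have h3 := hθ t
  rw [h1, map_add, map_one, h1] at h3
  have h4 : t * (t - 1) = 0 := by linear_combination -h3 + h2
  rcases mul_eq_zero.mp h4 with h5 | h5
  · rw [h5] at h1; simp at h1
  · have h6 : t = 1 := by linear_combination h5
    rw [h6, map_one] at h1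
    have : (1 : F) = 0 := by linear_combination -h1
    exact one_ne_zero this

/-- the fourth coordinate of the ovoid point -/
def zz (a b : F) : F := a * b + a ^ 2 * θ a + θ b

include hθ in
theorem zz_ne {a b : F} (h : (a, b) ≠ (0, 0)) : zz θ a b ≠ 0 := by
  intro h0
  by_cases ha : a = 0
  · subst ha
    simp only [zz, map_zero, mul_zero, zero_mul, zero_add] at h0
    have : b = 0 := by simpa using h0
    exact h (by rw [this])
  · have h1 : θ a ≠ 0 := by simpa using ha
    set t := b / (a * θ a) with ht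
    have hb : b = t * (a * θ a) := by rw [ht]; field_simp
    have h2 : θ b = θ t * (θ a * a ^ 2) := by rw [hb, map_mul, map_mul, hθ]
    have h3 : a ^ 2 * θ a * (θ t + t + 1) = 0 := by
      rw [← h0, zz, h2, hb]; ring
    rcases mul_eq_zero.mp h3 with h4 | h4
    · rcases mul_eq_zero.mp h4 with h5 | h5
      · exact ha (by simpa using h5)
      · exact h1 h5
    · exact theta_ne θ hθ t h4

include hθ in
theorem theta_zz (a b : F) : θ (zz θ a b) = θ a * θ b + θ a ^ 2 * a ^ 2 + b ^ 2 := by
  simp only [zz, map_add, map_mul, map_pow, hθ]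

theorem ell_S_none (c d : F) (X : Fin 4 → F) :
    X ∈ ell θ none ↔ (matS θ c d).mulVec X ∈ ell θ none := by
  rw [mulVec_S, mem_none, mem_none]
  simp only [Matrix.cons_val_zero, Matrix.cons_val_one]
  constructor
  · rintro ⟨h1, h3⟩
    exact ⟨h1, by rw [h1, h3]; ring⟩
  · rintro ⟨h1, h3⟩
    exact ⟨h1, by rw [h1] at h3; linear_combination h3⟩

include hθ in
theorem ell_S_some (c d a b : F) (X : Fin 4 → F) :
    X ∈ ell θ (some (a, b)) ↔
      (matS θ c d).mulVec X ∈ ell θ (some (a + c, b + d + θ c * a)) := by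
  have h2 : (2 : F) = 0 := two_eq_zero
  rw [mulVec_S, mem_some, mem_some]
  simp only [Matrix.cons_val, map_add, map_mul, hθ]
  generalize X 0 = x0
  generalize X 1 = x1
  generalize X 2 = x2
  generalize X 3 = x3
  generalize θ a = ta
  generalize θ b = tb
  generalize θ c = tc
  generalize θ d = td
  constructor
  · rintro ⟨h3, h4⟩
    constructor <;> grind
  · rintro ⟨h3, h4⟩
    constructor <;> grind

include hθ in
/-- `S` permutes the spread -/
theorem ell_S (c d : F) : ∀ o : O F, ∃ o' : O F, ∀ X, X ∈ ell θ o ↔ (matS θ c d).mulVec X ∈ ell θ o' := by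
  rintro (_ | ⟨a, b⟩)
  · exact ⟨none, ell_S_none θ c d⟩
  · exact ⟨_, ell_S_some θ hθ c d a b⟩

theorem ell_T_none (X : Fin 4 → F) :
    X ∈ ell θ none ↔ (matT).mulVec X ∈ ell θ (some (0, 0)) := by
  rw [mulVec_T, mem_none, mem_some]
  simp
  tauto

theorem ell_T_zero (X : Fin 4 → F) :
    X ∈ ell θ (some (0, 0)) ↔ (matT).mulVec X ∈ ell θ none := by
  rw [mulVec_T, mem_none, mem_some]
  simp
  tauto

include hθ in
/-- `M` permutes the spread -/
theorem ell_M {m : F} (hm : m ≠ 0) :
    ∀ o : O F, ∃ o' : O F, ∀ X, X ∈ ell θ o ↔ (matM θ m).mulVec X ∈ ell θ o' := by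
  have h2 : (2 : F) = 0 := two_eq_zero
  have htm : θ m ≠ 0 := by simpa using hm
  rintro (_ | ⟨a, b⟩)
  · refine ⟨none, fun X => ?_⟩
    rw [mulVec_M, mem_none, mem_none]
    simp [hm, htm]
  · refine ⟨some (a / θ m, b / (m ^ 2 * θ m)), fun X => ?_⟩
    rw [mulVec_M, mem_some, mem_some]
    simp only [Matrix.cons_val, map_div₀, map_mul, map_pow, hθ]
    generalize X 0 = x0
    generalize X 1 = x1
    generalize X 2 = x2
    generalize X 3 = x3
    generalize θ a = ta at *
    generalize θ b = tb at *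
    generalize θ m = tm at *
    have e1 : m⁻¹ * x2 = (b / (m ^ 2 * tm) + a / tm * (ta / m ^ 2)) * (tm * m * x0)
        + ta / m ^ 2 * (m * x1) ↔ x2 = (b + a * ta) * x0 + ta * x1 := by
      constructor
      · intro h
        field_simp at h
        linear_combination h
      · intro h
        field_simp
        linear_combination h
    have e2 : (tm * m)⁻¹ * x3 = tb / (tm ^ 2 * m ^ 2) * (tm * m * x0)
        + (b / (m ^ 2 * tm) + a / tm * (ta / m ^ 2)) * (m * x1)
        ↔ x3 = tb * x0 + (b + a * ta) * x1 := by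
      constructor
      · intro h
        field_simp at h
        linear_combination h
      · intro h
        field_simp
        linear_combination h
    rw [e1, e2]

include hθ in
/-- `T` permutes the spread -/
theorem ell_T : ∀ o : O F, ∃ o' : O F, ∀ X, X ∈ ell θ o ↔ (matT).mulVec X ∈ ell θ o' := by
  have h2 : (2 : F) = 0 := two_eq_zero
  rintro (_ | ⟨a, b⟩)
  · refine ⟨some (0, 0), fun X => ?_⟩
    rw [mulVec_T, mem_none, mem_some]
    simp
    tauto
  · by_cases hab : (a, b) = (0, 0)
    · obtain ⟨rfl, rfl⟩ := Prod.mk.inj hab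
      refine ⟨none, fun X => ?_⟩
      rw [mulVec_T, mem_none, mem_some]
      simp
      tauto
    · refine ⟨some (b / zz θ a b, a / zz θ a b), fun X => ?_⟩
      have hz := zz_ne θ hθ hab
      have htz : θ (zz θ a b) ≠ 0 := by simpa using hz
      have hB : a / zz θ a b + b / zz θ a b * (θ b / θ (zz θ a b))
          = (b + a * θ a) / θ (zz θ a b) := by
        field_simp
        rw [theta_zz θ hθ]
        simp only [zz]
        generalize θ a = ta
        generalize θ b = tb
        grind
      have hD : (b + a * θ a) ^ 2 + θ a * θ b = θ (zz θ a b) := by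
        rw [theta_zz θ hθ]
        generalize θ a = ta
        generalize θ b = tb
        grind
      rw [mulVec_T, mem_some, mem_some]
      simp only [Matrix.cons_val, map_div₀]
      rw [hB]
      generalize θ (zz θ a b) = D at *
      generalize X 0 = x0
      generalize X 1 = x1
      generalize X 2 = x2
      generalize X 3 = x3
      generalize θ a = ta at *
      generalize θ b = tb at *
      constructor
      · rintro ⟨h3, h4⟩
        constructor
        · field_simp
          grind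
        · field_simp
          grind
      · rintro ⟨h3, h4⟩
        field_simp at h3 h4
        constructor
        · have : D * x2 = D * ((b + a * ta) * x0 + ta * x1) := by grind
          exact mul_left_cancel₀ htz this
        · have : D * x3 = D * (tb * x0 + (b + a * ta) * x1) := by grind
          exact mul_left_cancel₀ htz this

end Pool.Agent.Helper2.Suz
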