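import Mathlib
import Pool.Agent.Helper2.Suz1

set_option autoImplicit false

namespace Pool.Agent.Helper2.Suz

open Matrix

set_option linter.unusedSectionVars false
set_option linter.unusedSimpArgs false

variable {F : Type} [Field F] [CharP F 2] (θ : F →+* F) (hθ : ∀ x, θ (θ x) = x ^ 2)

/-- the group generated by Suzuki's matrices -/
def Sz : Subgroup (GL (Fin 4) F) :=
  Subgroup.closure {g | (∃ a b, (g : Matrix (Fin 4) (Fin 4) F) = matS θ a b) ∨
    (∃ m, m ≠ 0 ∧ (g : Matrix (Fin 4) (Fin 4) F) = matM θ m) ∨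
    (g : Matrix (Fin 4) (Fin 4) F) = matT}

/-- action on vectors -/
def act (g : GL (Fin 4) F) (X : Fin 4 → F) : Fin 4 → F := (g : Matrix (Fin 4) (Fin 4) F).mulVec X

theorem act_mul (g h : GL (Fin 4) F) (X : Fin 4 → F) : act (g * h) X = act g (act h X) := by
  simp [act, Matrix.mulVec_mulVec]

theorem act_one (X : Fin 4 → F) : act (1 : GL (Fin 4) F) X = X := by simp [act]

theorem act_inv (g : GL (Fin 4) F) (X : Fin 4 → F) : act g⁻¹ (act g X) = X := by
  rw [← act_mul, inv_mul_cancel, act_one]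

theorem act_inv' (g : GL (Fin 4) F) (X : Fin 4 → F) : act g (act g⁻¹ X) = X := by
  rw [← act_mul, mul_inv_cancel, act_one]

theorem act_add (g : GL (Fin 4) F) (X Y : Fin 4 → F) : act g (X + Y) = act g X + act g Y := by
  simp [act, Matrix.mulVec_add]

theorem act_smul (g : GL (Fin 4) F) (c : F) (X : Fin 4 → F) : act g (c • X) = c • act g X := by
  simp [act, Matrix.mulVec_smul]

theorem act_ext {g h : GL (Fin 4) F} (e : ∀ X, act g X = act h X) : g = h := by
  apply Units.ext
  apply Matrix.ext_of_mulVec_single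
  intro i
  exact e _

theorem ell_injective : Function.Injective (ell θ) := by
  have key : ∀ a b : F, (![0, 1, θ a, b + a * θ a] : Fin 4 → F) ∈ ell θ (some (a, b)) := by
    intro a b
    rw [mem_some]; simp
  rintro (_ | ⟨a, b⟩) (_ | ⟨c, d⟩) h
  · rfl
  · have h1 := key c d
    rw [← h, mem_none] at h1
    simp at h1
  · have h1 := key a b
    rw [h, mem_none] at h1
    simp at h1
  · have h1 := key a b
    rw [h, mem_some] at h1
    simp at h1
    obtain ⟨h2, h3⟩ := h1
    have h4 : a = c := θ.injective h2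
    subst h4
    have h5 : b = d := by linear_combination h3
    rw [h5]

theorem B_inv {g : GL (Fin 4) F} (hg : g ∈ Sz θ) (X Y : Fin 4 → F) :
    B (act g X) (act g Y) = B X Y := by
  induction hg using Subgroup.closure_induction generalizing X Y with
  | mem g h =>
    rcases h with ⟨a, b, h⟩ | ⟨m, hm, h⟩ | h
    · simp only [act, h]; exact B_S θ a b X Y
    · simp only [act, h]; exact B_M θ hm X Y
    · simp only [act, h]; exact B_T X Y
  | one => rw [act_one, act_one]
  | mul g h _ _ ihg ihh => rw [act_mul, act_mul, ihg, ihh]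
  | inv g _ ih =>
    rw [← ih (act g⁻¹ X) (act g⁻¹ Y), act_inv', act_inv']

variable [Finite F]

include hθ in
theorem ell_inv {g : GL (Fin 4) F} (hg : g ∈ Sz θ) :
    ∀ o : O F, ∃ o' : O F, ∀ X, X ∈ ell θ o ↔ act g X ∈ ell θ o' := by
  induction hg using Subgroup.closure_induction with
  | mem g h =>
    rcases h with ⟨a, b, h⟩ | ⟨m, hm, h⟩ | h
    · simp only [act, h]; exact ell_S θ hθ a b
    · simp only [act, h]; exact ell_M θ hθ hm
    · simp only [act, h]; exact ell_T θ hθ
  | one => exact fun o => ⟨o, fun X => by rw [act_one]⟩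
  | mul g h _ _ ihg ihh =>
    intro o
    obtain ⟨o', h1⟩ := ihh o
    obtain ⟨o'', h2⟩ := ihg o'
    exact ⟨o'', fun X => by rw [act_mul, h1, h2]⟩
  | inv g _ ih =>
    choose f hf using ih
    have hinj : Function.Injective f := by
      intro o1 o2 h
      apply ell_injective θ
      ext X
      rw [hf o1, hf o2, h]
    have hsurj := Finite.surjective_of_injective hinj
    intro o
    obtain ⟨o', rfl⟩ := hsurj o
    refine ⟨o', fun X => ?_⟩
    have h5 := hf o' (act g⁻¹ X)
    rw [act_inv'] at h5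
    exact h5.symm

theorem exists_S (a b : F) : ∃ g ∈ Sz θ, (g : Matrix (Fin 4) (Fin 4) F) = matS θ a b := by
  have hdet : (matS θ a b).det ≠ 0 := by
    simp [matS, Matrix.det_succ_row_zero, Fin.sum_univ_succ]
  refine ⟨Matrix.GeneralLinearGroup.mkOfDetNeZero (matS θ a b) hdet, ?_, rfl⟩
  apply Subgroup.subset_closure
  exact Or.inl ⟨a, b, rfl⟩

theorem exists_T : ∃ g ∈ Sz θ, (g : Matrix (Fin 4) (Fin 4) F) = matT := by
  have hdet : (matT : Matrix (Fin 4) (Fin 4) F).det ≠ 0 := by
    intro h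
    have h1 : (matT : Matrix (Fin 4) (Fin 4) F) * matT = 1 := by
      ext i j
      fin_cases i <;> fin_cases j <;>
        simp [matT, Matrix.mul_apply, Fin.sum_univ_four]
    have h2 := congrArg Matrix.det h1
    rw [Matrix.det_mul, h] at h2
    simp at h2
  refine ⟨Matrix.GeneralLinearGroup.mkOfDetNeZero matT hdet, ?_, rfl⟩
  apply Subgroup.subset_closure
  exact Or.inr (Or.inr rfl)

/-- `g` maps the spread element `o` to `o'` -/
def Maps (g : GL (Fin 4) F) (o o' : O F) : Prop := ∀ X, X ∈ ell θ o ↔ act g X ∈ ell θ o'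

theorem Maps.mul {g h : GL (Fin 4) F} {o o' o'' : O F} (h1 : Maps θ h o o') (h2 : Maps θ g o' o'') :
    Maps θ (g * h) o o'' := fun X => by rw [act_mul, h1 X, h2]

theorem Maps.inv {g : GL (Fin 4) F} {o o' : O F} (h1 : Maps θ g o o') : Maps θ g⁻¹ o' o :=
  fun X => by rw [h1, act_inv']

include hθ in
theorem trans_one (o : O F) : ∃ g ∈ Sz θ, Maps θ g o none := by
  rcases o with _ | ⟨a, b⟩
  · exact ⟨1, one_mem _, fun X => by rw [act_one]⟩
  · obtain ⟨s, hs, hs'⟩ := exists_S θ a (b + θ a * a)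
    obtain ⟨t, ht, ht'⟩ := exists_T θ
    refine ⟨t * s, mul_mem ht hs, ?_⟩
    have h1 : Maps θ s (some (a, b)) (some (0, 0)) := by
      intro X
      rw [ell_S_some θ hθ a (b + θ a * a) a b X]
      have h2 : (2 : F) = 0 := two_eq_zero
      have e1 : a + a = 0 := by linear_combination a * h2
      have e2 : b + (b + θ a * a) + θ a * a = 0 := by linear_combination (b + θ a * a) * h2
      rw [e1, e2, act, hs']
    have h2 : Maps θ t (some (0, 0)) none := by
      intro X
      rw [act, ht']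
      exact ell_T_zero θ X
    exact h1.mul θ h2

include hθ in
theorem trans_two {o1 o2 : O F} (h : o1 ≠ o2) :
    ∃ g ∈ Sz θ, Maps θ g o1 none ∧ Maps θ g o2 (some (0, 0)) := by
  obtain ⟨g, hg, h1⟩ := trans_one θ hθ o1
  obtain ⟨o3, h2⟩ := ell_inv θ hθ hg o2
  have h2' : Maps θ g o2 o3 := h2
  rcases o3 with _ | ⟨a, b⟩
  · exfalso
    apply h
    apply ell_injective θ
    ext X
    rw [h1, h2]
  · obtain ⟨s, hs, hs'⟩ := exists_S θ a (b + θ a * a)
    refine ⟨s * g, mul_mem hs hg, ?_, ?_⟩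
    · refine h1.mul θ ?_
      intro X
      rw [act, hs']
      exact ell_S_none θ _ _ X
    · refine h2'.mul θ ?_
      intro X
      rw [ell_S_some θ hθ a (b + θ a * a) a b X]
      have h2 : (2 : F) = 0 := two_eq_zero
      have e1 : a + a = 0 := by linear_combination a * h2
      have e2 : b + (b + θ a * a) + θ a * a = 0 := by linear_combination (b + θ a * a) * h2
      rw [e1, e2, act, hs']

theorem isForm_comp {g : GL (Fin 4) F} (hg : g ∈ Sz θ) {f : (Fin 4 → F) → F} (hf : IsForm f) :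
    IsForm (fun X => f (act g X)) := by
  constructor
  · intro X Y
    change f (act g (X + Y)) = f (act g X) + f (act g Y) + B X Y
    rw [act_add, hf.1, B_inv θ hg]
  · intro c X
    change f (act g (c • X)) = c ^ 2 * f (act g X)
    rw [act_smul, hf.2]

theorem e_mem_none (i : Fin 4) (hi : i = 2 ∨ i = 3) : (Pi.single i 1 : Fin 4 → F) ∈ ell θ none := by
  rw [mem_none]
  rcases hi with rfl | rfl <;> simp

theorem e_mem_zero (i : Fin 4) (hi : i = 0 ∨ i = 1) :
    (Pi.single i 1 : Fin 4 → F) ∈ ell θ (some (0, 0)) := by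
  rw [mem_some]
  rcases hi with rfl | rfl <;> simp [Pi.single_apply]

include hθ in
/-- two forms agreeing on two members of the spread are equal -/
theorem agree_two {o1 o2 : O F} (h : o1 ≠ o2) {f f' : (Fin 4 → F) → F} (hf : IsForm f)
    (hf' : IsForm f') (h1 : ∀ X ∈ ell θ o1, f X = f' X) (h2 : ∀ X ∈ ell θ o2, f X = f' X) :
    f = f' := by
  obtain ⟨g, hg, g1, g2⟩ := trans_two θ hθ h
  have hg' := inv_mem hg
  have key : (fun X => f (act g⁻¹ X)) = (fun X => f' (act g⁻¹ X)) := by
    apply form_ext (isForm_comp θ hg' hf) (isForm_comp θ hg' hf')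
    intro i
    have hi : (i = 0 ∨ i = 1) ∨ (i = 2 ∨ i = 3) := by omega
    rcases hi with hi | hi
    · apply h2
      rw [g2, act_inv']
      exact e_mem_zero θ i hi
    · apply h1
      rw [g1, act_inv']
      exact e_mem_none θ i hi
  funext X
  have := congrFun key (act g X)
  simpa [act_inv] using this

theorem form_on_none {f : (Fin 4 → F) → F} (hf : IsForm f) {X : Fin 4 → F} (hX : X ∈ ell θ none) :
    f X = f (Pi.single 2 1) * X 2 ^ 2 + f (Pi.single 3 1) * X 3 ^ 2 := by
  rw [mem_none] at hX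
  rw [form_eq hf, QF, hX.1, hX.2]
  ring

theorem form_on_zero {f : (Fin 4 → F) → F} (hf : IsForm f) {X : Fin 4 → F}
    (hX : X ∈ ell θ (some (0, 0))) :
    f X = f (Pi.single 0 1) * X 0 ^ 2 + f (Pi.single 1 1) * X 1 ^ 2 := by
  rw [mem_some] at hX
  simp only [map_zero, mul_zero, zero_mul, add_zero] at hX
  rw [form_eq hf, QF, hX.1, hX.2]
  ring

include hθ in
theorem exists_two {o1 o2 : O F} (h : o1 ≠ o2) {f f' : (Fin 4 → F) → F} (hf : IsForm f)
    (hf' : IsForm f') : ∃ φ : (Fin 4 → F) → F, IsForm φ ∧ (∀ X ∈ ell θ o1, φ X = f X) ∧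
      (∀ X ∈ ell θ o2, φ X = f' X) := by
  obtain ⟨g, hg, g1, g2⟩ := trans_two θ hθ h
  have hg' := inv_mem hg
  have k1 := isForm_comp θ hg' hf
  have k2 := isForm_comp θ hg' hf'
  let v : Fin 4 → F := ![f' (act g⁻¹ (Pi.single 0 1)), f' (act g⁻¹ (Pi.single 1 1)),
    f (act g⁻¹ (Pi.single 2 1)), f (act g⁻¹ (Pi.single 3 1))]
  refine ⟨fun X => QF v (act g X), isForm_comp θ hg (isForm_QF v), ?_, ?_⟩
  · intro X hX
    have hX' := (g1 X).mp hX
    have h1 := form_on_none θ k1 hX'
    simp only [act_inv] at h1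
    rw [h1]
    rw [mem_none] at hX'
    simp only [QF, v, hX'.1, hX'.2, Matrix.cons_val]
    ring
  · intro X hX
    have hX' := (g2 X).mp hX
    have h1 := form_on_zero θ k2 hX'
    simp only [act_inv] at h1
    rw [h1]
    rw [mem_some] at hX'
    simp only [map_zero, mul_zero, zero_mul, add_zero] at hX'
    simp only [QF, v, hX'.1, hX'.2, Matrix.cons_val]
    ring

/-- a form vanishing on a given member of the spread -/
theorem exists_vanish (o : O F) : ∃ φ : (Fin 4 → F) → F, IsForm φ ∧ ∀ X ∈ ell θ o, φ X = 0 := by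
  rcases o with _ | ⟨a, b⟩
  · refine ⟨QF 0, isForm_QF 0, fun X hX => ?_⟩
    rw [mem_none] at hX
    simp [QF, hX.1, hX.2]
  · refine ⟨QF ![θ b, θ a, 0, 0], isForm_QF _, fun X hX => ?_⟩
    have h2 : (2 : F) = 0 := two_eq_zero
    rw [mem_some] at hX
    simp only [QF, Matrix.cons_val]
    rw [hX.1, hX.2]
    linear_combination (θ b * X 0 ^ 2 + θ a * X 1 ^ 2 + (b + a * θ a) * X 0 * X 1) * h2

include hθ in
/-- no form vanishes on three members of the spread -/
theorem vanish_three {o1 o2 o3 : O F} (h12 : o1 ≠ o2) (h13 : o1 ≠ o3) (h23 : o2 ≠ o3)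
    {f : (Fin 4 → F) → F} (hf : IsForm f) (h1 : ∀ X ∈ ell θ o1, f X = 0)
    (h2 : ∀ X ∈ ell θ o2, f X = 0) (h3 : ∀ X ∈ ell θ o3, f X = 0) : False := by
  obtain ⟨g, hg, g1, g2⟩ := trans_two θ hθ h12
  obtain ⟨o4, g3⟩ := ell_inv θ hθ hg o3
  have hg' := inv_mem hg
  have k1 := isForm_comp θ hg' hf
  have key : (fun X => f (act g⁻¹ X)) = QF 0 := by
    apply form_ext k1 (isForm_QF 0)
    intro i
    have hi : (i = 0 ∨ i = 1) ∨ (i = 2 ∨ i = 3) := by omega
    have hz : QF (0 : Fin 4 → F) (Pi.single i 1) = 0 := by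
      rcases hi with (rfl | rfl) | (rfl | rfl) <;> simp [QF, Pi.single_apply]
    rw [hz]
    rcases hi with hi | hi
    · apply h2
      rw [g2, act_inv']
      exact e_mem_zero θ i hi
    · apply h1
      rw [g1, act_inv']
      exact e_mem_none θ i hi
  have h4 : ∀ X ∈ ell θ o4, QF (0 : Fin 4 → F) X = 0 := by
    intro X hX
    rw [← key]
    apply h3
    rw [g3, act_inv']
    exact hX
  rcases o4 with _ | ⟨a, b⟩
  · apply h13
    apply ell_injective θ
    ext X
    rw [g1, g3]
  · have m1 : (![1, 0, b + a * θ a, θ b] : Fin 4 → F) ∈ ell θ (some (a, b)) := by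
      rw [mem_some]; simp
    have m2 : (![0, 1, θ a, b + a * θ a] : Fin 4 → F) ∈ ell θ (some (a, b)) := by
      rw [mem_some]; simp
    have e1 := h4 _ m1
    have e2 := h4 _ m2
    simp [QF] at e1 e2
    apply h23
    apply ell_injective θ
    ext X
    rw [g2, g3, e1, e2]

include hθ in
/-- a form vanishing on one member of the spread vanishes on another one -/
theorem vanish_other {o : O F} {f : (Fin 4 → F) → F} (hf : IsForm f)
    (h1 : ∀ X ∈ ell θ o, f X = 0) : ∃ o' : O F, o' ≠ o ∧ ∀ X ∈ ell θ o', f X = 0 := by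
  obtain ⟨g, hg, g1⟩ := trans_one θ hθ o
  have hg' := inv_mem hg
  have k1 := isForm_comp θ hg' hf
  have hsurj : Function.Surjective θ := Finite.surjective_of_injective θ.injective
  obtain ⟨b, hb⟩ := hsurj (f (act g⁻¹ (Pi.single 0 1)))
  obtain ⟨a, ha⟩ := hsurj (f (act g⁻¹ (Pi.single 1 1)))
  have z2 : f (act g⁻¹ (Pi.single 2 1)) = 0 := by
    apply h1
    rw [g1, act_inv']
    exact e_mem_none θ 2 (Or.inl rfl)
  have z3 : f (act g⁻¹ (Pi.single 3 1)) = 0 := by
    apply h1
    rw [g1, act_inv']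
    exact e_mem_none θ 3 (Or.inr rfl)
  obtain ⟨o', g3⟩ := ell_inv θ hθ hg' (some (a, b))
  have g3' : Maps θ g⁻¹ (some (a, b)) o' := g3
  have g4 := g3'.inv θ
  rw [inv_inv] at g4
  refine ⟨o', ?_, ?_⟩
  · rintro rfl
    have : ell θ (some (a, b)) = ell θ none := by
      ext X
      rw [g3]
      have h5 := g1 (act g⁻¹ X)
      rw [act_inv'] at h5
      exact h5
    have := ell_injective θ this
    simp at this
  · intro X hX
    have hX' := (g4 X).mp hX
    have h5 := form_eq k1 (act g X)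
    simp only [act_inv] at h5
    rw [h5]
    rw [mem_some] at hX'
    have h2 : (2 : F) = 0 := two_eq_zero
    simp only [QF, z2, z3, ← ha, ← hb]
    rw [hX'.1, hX'.2]
    linear_combination (θ b * act g X 0 ^ 2 + θ a * act g X 1 ^ 2
      + (b + a * θ a) * act g X 0 * act g X 1) * h2

end Pool.Agent.Helper2.Suz
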