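import Mathlib
import Pool.Agent.Helper2.Suz2

set_option autoImplicit false

namespace Pool.Agent.Helper2.Suz

open Matrix

set_option linter.unusedSectionVars false
set_option linter.unusedSimpArgs false

variable {F : Type} [Field F] [CharP F 2] [Finite F] (θ : F →+* F) (hθ : ∀ x, θ (θ x) = x ^ 2)

abbrev V (F : Type) : Type := Fin 4 → F

/-- forms -/
abbrev FormT (F : Type) [Field F] : Type := {f : V F → F // IsForm f}

/-- members of the spread -/
abbrev SpT : Type := {s : Set (V F) // ∃ o, s = ell θ o}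

/-- pairs of a member of the spread and the restriction to it of a form -/
abbrev RT : Type := {p : Set (V F) × (V F → F) //
  (∃ o, p.1 = ell θ o) ∧ ∃ f, IsForm f ∧ p.2 = Set.indicator p.1 f}

/-- points -/
abbrev Pt : Type := Option (RT θ)

/-- lines -/
abbrev Ln : Type := SpT θ ⊕ FormT F

/-- incidence -/
def inc : Pt θ → Ln θ → Prop
  | none, Sum.inl _ => True
  | none, Sum.inr _ => False
  | some r, Sum.inl s => r.1.1 = s.1
  | some r, Sum.inr f => ∀ X ∈ r.1.1, r.1.2 X = f.1 X

@[reducible] def memI : Membership (Pt θ) (Ln θ) := ⟨fun l p => inc θ p l⟩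


theorem RT_ext {r r' : RT θ} (h1 : r.1.1 = r'.1.1) (h2 : ∀ X ∈ r.1.1, r.1.2 X = r'.1.2 X) :
    r = r' := by
  obtain ⟨⟨s, h⟩, ho, f, hf, hh⟩ := r
  obtain ⟨⟨s', h'⟩, ho', f', hf', hh'⟩ := r'
  simp only at h1 h2 hh hh'
  subst h1
  apply Subtype.ext
  simp only [Prod.mk.injEq, true_and]
  funext X
  by_cases hX : X ∈ s
  · exact h2 X hX
  · rw [hh, hh', Set.indicator_of_notMem hX, Set.indicator_of_notMem hX]

/-- the restriction of a form to a member of the spread -/
noncomputable def mkR (o : O F) (f : FormT F) : RT θ :=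
  ⟨(ell θ o, Set.indicator (ell θ o) f.1), ⟨o, rfl⟩, f.1, f.2, rfl⟩

theorem mkR_surj (r : RT θ) : ∃ o f, r = mkR θ o f := by
  obtain ⟨⟨s, h⟩, ⟨o, ho⟩, f, hf, hh⟩ := r
  simp only at ho hh
  subst ho
  refine ⟨o, ⟨f, hf⟩, ?_⟩
  apply Subtype.ext
  simp [mkR, hh]

theorem mkR_fst (o : O F) (f : FormT F) : (mkR θ o f).1.1 = ell θ o := rfl

theorem mkR_snd (o : O F) (f : FormT F) {X : V F} (hX : X ∈ ell θ o) :
    (mkR θ o f).1.2 X = f.1 X := Set.indicator_of_mem hX _

theorem mkR_eq_iff (o : O F) (f f' : FormT F) :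
    mkR θ o f = mkR θ o f' ↔ ∀ X ∈ ell θ o, f.1 X = f'.1 X := by
  constructor
  · intro h X hX
    rw [← mkR_snd θ o f hX, h, mkR_snd θ o f' hX]
  · intro h
    apply RT_ext
    · rfl
    · intro X hX
      rw [mkR_snd θ o f hX, mkR_snd θ o f' hX, h X hX]

def mkS (o : O F) : SpT θ := ⟨ell θ o, o, rfl⟩

theorem mkS_surj (s : SpT θ) : ∃ o, s = mkS θ o := by
  obtain ⟨s, o, rfl⟩ := s
  exact ⟨o, rfl⟩

theorem inc_RS (o o' : O F) (f : FormT F) :
    inc θ (some (mkR θ o f)) (Sum.inl (mkS θ o')) ↔ o = o' := by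
  constructor
  · intro h
    exact ell_injective θ h
  · rintro rfl
    rfl

theorem inc_RF (o : O F) (f f' : FormT F) :
    inc θ (some (mkR θ o f)) (Sum.inr f') ↔ ∀ X ∈ ell θ o, f.1 X = f'.1 X := by
  constructor
  · intro h X hX
    rw [← mkR_snd θ o f hX]
    exact h X hX
  · intro h X hX
    rw [mkR_snd θ o f hX]
    exact h X hX

include hθ in
theorem exists_line_through (p q : Pt θ) (hpq : p ≠ q) : ∃ l : Ln θ, inc θ p l ∧ inc θ q l := by
  rcases p with _ | p <;> rcases q with _ | q
  · exact absurd rfl hpq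
  · obtain ⟨o, f, rfl⟩ := mkR_surj θ q
    exact ⟨Sum.inl (mkS θ o), trivial, rfl⟩
  · obtain ⟨o, f, rfl⟩ := mkR_surj θ p
    exact ⟨Sum.inl (mkS θ o), rfl, trivial⟩
  · obtain ⟨o, f, rfl⟩ := mkR_surj θ p
    obtain ⟨o', f', rfl⟩ := mkR_surj θ q
    by_cases h : o = o'
    · subst h
      exact ⟨Sum.inl (mkS θ o), rfl, rfl⟩
    · obtain ⟨φ, hφ, h1, h2⟩ := exists_two θ hθ h f.2 f'.2
      refine ⟨Sum.inr ⟨φ, hφ⟩, ?_, ?_⟩
      · rw [inc_RF]
        intro X hX
        exact (h1 X hX).symm
      · rw [inc_RF]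
        intro X hX
        exact (h2 X hX).symm

include hθ in
theorem eq_or (p q : Pt θ) (l m : Ln θ) (h1 : inc θ p l) (h2 : inc θ q l) (h3 : inc θ p m)
    (h4 : inc θ q m) : p = q ∨ l = m := by
  rcases l with s | f <;> rcases m with t | g
  · rcases p with _ | p
    · rcases q with _ | q
      · exact Or.inl rfl
      · right
        have e1 : q.1.1 = s.1 := h2
        have e2 : q.1.1 = t.1 := h4
        rw [Subtype.ext (e1.symm.trans e2)]
    · right
      have e1 : p.1.1 = s.1 := h1
      have e2 : p.1.1 = t.1 := h3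
      rw [Subtype.ext (e1.symm.trans e2)]
  · left
    rcases p with _ | p
    · exact h3.elim
    · rcases q with _ | q
      · exact h4.elim
      · have e1 : p.1.1 = s.1 := h1
        have e2 : q.1.1 = s.1 := h2
        congr 1
        apply RT_ext θ (e1.trans e2.symm)
        intro X hX
        have e3 := h3 X hX
        have e4 := h4 X (by rw [e2, ← e1]; exact hX)
        rw [e3, e4]
  · left
    rcases p with _ | p
    · exact h1.elim
    · rcases q with _ | q
      · exact h2.elim
      · have e1 : p.1.1 = t.1 := h3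
        have e2 : q.1.1 = t.1 := h4
        congr 1
        apply RT_ext θ (e1.trans e2.symm)
        intro X hX
        have e3 := h1 X hX
        have e4 := h2 X (by rw [e2, ← e1]; exact hX)
        rw [e3, e4]
  · rcases p with _ | p
    · exact h1.elim
    · rcases q with _ | q
      · exact h2.elim
      · obtain ⟨o, u, rfl⟩ := mkR_surj θ p
        obtain ⟨o', u', rfl⟩ := mkR_surj θ q
        rw [inc_RF] at h1 h2 h3 h4
        by_cases h : o = o'
        · subst h
          left
          congr 1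
          rw [mkR_eq_iff]
          intro X hX
          rw [h1 X hX, h2 X hX]
        · right
          congr 1
          apply Subtype.ext
          exact agree_two θ hθ h f.2 g.2 (fun X hX => by rw [← h1 X hX, h3 X hX])
            (fun X hX => by rw [← h2 X hX, h4 X hX])

/-- values of a restricted form at the two basis vectors of a member of the spread -/
def b0 : O F → V F
  | none => Pi.single 2 1
  | some (a, b) => ![1, 0, b + a * θ a, θ b]

def b1 : O F → V F
  | none => Pi.single 3 1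
  | some (a, b) => ![0, 1, θ a, b + a * θ a]

theorem b0_mem (o : O F) : b0 θ o ∈ ell θ o := by
  rcases o with _ | ⟨a, b⟩
  · exact e_mem_none θ 2 (Or.inl rfl)
  · rw [mem_some]; simp [b0]

theorem b1_mem (o : O F) : b1 θ o ∈ ell θ o := by
  rcases o with _ | ⟨a, b⟩
  · exact e_mem_none θ 3 (Or.inr rfl)
  · rw [mem_some]; simp [b1]

theorem span_b (o : O F) {X : V F} (hX : X ∈ ell θ o) :
    ∃ c d : F, X = c • b0 θ o + d • b1 θ o := by
  rcases o with _ | ⟨a, b⟩
  · rw [mem_none] at hX
    refine ⟨X 2, X 3, ?_⟩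
    funext i
    fin_cases i <;> simp [b0, b1, hX.1, hX.2, Pi.single_apply]
  · rw [mem_some] at hX
    refine ⟨X 0, X 1, ?_⟩
    funext i
    fin_cases i
    · simp [b0, b1]
    · simp [b0, b1]
    · simp [b0, b1, hX.1]; ring
    · simp [b0, b1, hX.2]; ring

theorem B_b (o : O F) (c d : F) : B (c • b0 θ o) (d • b1 θ o) = 0 := by
  have h2 : (2 : F) = 0 := two_eq_zero
  rcases o with _ | ⟨a, b⟩
  · simp [B, b0, b1, Pi.single_apply]
  · simp [B, b0, b1]
    linear_combination (c * d * (b + a * θ a)) * h2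

/-- coordinates for the restricted forms -/
noncomputable def coordR (t : O F × (F × F)) : RT θ :=
  mkR θ t.1 ⟨QF (match t.1 with
    | none => ![0, 0, t.2.1, t.2.2]
    | some (a, b) => ![t.2.1 + θ b, t.2.2 + θ a, 0, 0]), isForm_QF _⟩

theorem coordR_b0 (t : O F × (F × F)) : (coordR θ t).1.2 (b0 θ t.1) = t.2.1 := by
  have h2 : (2 : F) = 0 := two_eq_zero
  obtain ⟨_ | ⟨a, b⟩, c, d⟩ := t
  · rw [coordR, mkR_snd θ _ _ (b0_mem θ _)]
    simp [QF, b0, Pi.single_apply]
  · rw [coordR, mkR_snd θ _ _ (b0_mem θ _)]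
    simp [QF, b0]
    linear_combination θ b * h2

theorem coordR_b1 (t : O F × (F × F)) : (coordR θ t).1.2 (b1 θ t.1) = t.2.2 := by
  have h2 : (2 : F) = 0 := two_eq_zero
  obtain ⟨_ | ⟨a, b⟩, c, d⟩ := t
  · rw [coordR, mkR_snd θ _ _ (b1_mem θ _)]
    simp [QF, b1, Pi.single_apply]
  · rw [coordR, mkR_snd θ _ _ (b1_mem θ _)]
    simp [QF, b1]
    linear_combination θ a * h2

theorem coordR_bij : Function.Bijective (coordR θ) := by
  constructor
  · intro t t' h
    have h1 : (coordR θ t).1.1 = (coordR θ t').1.1 := by rw [h]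
    have h2 : t.1 = t'.1 := ell_injective θ h1
    have h3 := coordR_b0 θ t
    have h4 := coordR_b1 θ t
    rw [h, h2, coordR_b0] at h3
    rw [h, h2, coordR_b1] at h4
    exact Prod.ext h2 (Prod.ext h3.symm h4.symm)
  · intro r
    obtain ⟨o, f, rfl⟩ := mkR_surj θ r
    refine ⟨(o, (f.1 (b0 θ o), f.1 (b1 θ o))), ?_⟩
    apply RT_ext
    · rfl
    · intro X hX
      have e0 := coordR_b0 θ (o, (f.1 (b0 θ o), f.1 (b1 θ o)))
      have e1 := coordR_b1 θ (o, (f.1 (b0 θ o), f.1 (b1 θ o)))
      set t : O F × (F × F) := (o, (f.1 (b0 θ o), f.1 (b1 θ o))) with ht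
      have hX' : X ∈ ell θ o := hX
      rw [mkR_snd θ o f hX']
      obtain ⟨c, d, rfl⟩ := span_b θ o hX'
      -- the underlying form of coordR
      obtain ⟨o2, g, hg⟩ := mkR_surj θ (coordR θ t)
      have ho2 : o2 = o := by
        apply ell_injective θ
        have : (coordR θ t).1.1 = ell θ o := rfl
        rw [hg] at this
        exact this
      subst ho2
      rw [hg] at e0 e1 ⊢
      rw [mkR_snd θ _ g (b0_mem θ _)] at e0
      rw [mkR_snd θ _ g (b1_mem θ _)] at e1
      rw [mkR_snd θ _ g hX', g.2.1, g.2.2, g.2.2, B_b, f.2.1, f.2.2, f.2.2, B_b, e0, e1]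

/-- coordinates for forms -/
def coordF (v : V F) : FormT F := ⟨QF v, isForm_QF v⟩

theorem coordF_bij : Function.Bijective (coordF : V F → FormT F) := by
  constructor
  · intro v w h
    have h1 : QF v = QF w := congrArg Subtype.val h
    funext i
    have h2 := congrFun h1 (Pi.single i 1)
    fin_cases i <;> simpa [QF, Pi.single_apply] using h2
  · intro f
    refine ⟨fun i => f.1 (Pi.single i 1), ?_⟩
    apply Subtype.ext
    funext X
    exact (form_eq f.2 X).symm

theorem mkS_bij : Function.Bijective (mkS θ) := by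
  constructor
  · intro o o' h
    exact ell_injective θ (congrArg Subtype.val h)
  · intro s
    obtain ⟨o, h⟩ := mkS_surj θ s
    exact ⟨o, h.symm⟩

theorem card_O : Nat.card (O F) = Nat.card F ^ 2 + 1 := by
  have := Fintype.ofFinite F
  rw [Nat.card_eq_fintype_card, Fintype.card_option, Fintype.card_prod, Nat.card_eq_fintype_card, sq]

theorem card_Pt : Nat.card (Pt θ) = (Nat.card F ^ 2) ^ 2 + Nat.card F ^ 2 + 1 := by
  have h1 : Nat.card (RT θ) = (Nat.card F ^ 2 + 1) * (Nat.card F * Nat.card F) := by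
    rw [← Nat.card_congr (Equiv.ofBijective _ (coordR_bij θ)), Nat.card_prod, Nat.card_prod,
      card_O]
  have := Fintype.ofFinite (RT θ)
  rw [Nat.card_eq_fintype_card, Fintype.card_option, ← Nat.card_eq_fintype_card, h1]
  ring

theorem card_Ln : Nat.card (Ln θ) = (Nat.card F ^ 2) ^ 2 + Nat.card F ^ 2 + 1 := by
  rw [Nat.card_sum, ← Nat.card_congr (Equiv.ofBijective _ (mkS_bij θ)),
    ← Nat.card_congr (Equiv.ofBijective _ (coordF_bij (F := F))), card_O, Nat.card_fun]
  simp
  ring

include hθ in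
theorem exists_plane : Nonempty (@Configuration.ProjectivePlane (Pt θ) (Ln θ) (memI θ)) := by
  let _ := memI θ
  have hL : Configuration.HasLines (Pt θ) (Ln θ) :=
    { exists_point := by
        intro l
        rcases l with s | f
        · obtain ⟨o, rfl⟩ := mkS_surj θ s
          obtain ⟨o', ho'⟩ : ∃ o' : O F, o' ≠ o := exists_ne o
          obtain ⟨φ, hφ, _⟩ := exists_vanish θ o'
          exact ⟨some (mkR θ o' ⟨φ, hφ⟩), fun h => ho' ((inc_RS θ o' o _).mp h)⟩
        · exact ⟨none, fun h => h⟩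
      exists_line := by
        intro p
        rcases p with _ | r
        · exact ⟨Sum.inr ⟨QF 0, isForm_QF 0⟩, fun h => h⟩
        · obtain ⟨o, f, rfl⟩ := mkR_surj θ r
          obtain ⟨o', ho'⟩ : ∃ o' : O F, o' ≠ o := exists_ne o
          exact ⟨Sum.inl (mkS θ o'), fun h => ho'.symm ((inc_RS θ o o' _).mp h)⟩
      eq_or_eq := fun {p q l m} h1 h2 h3 h4 => eq_or θ hθ p q l m h1 h2 h3 h4
      mkLine := fun {p q} h => (exists_line_through θ hθ p q h).choose
      mkLine_ax := fun {p q} h => (exists_line_through θ hθ p q h).choose_spec }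
  have i1 := Fintype.ofFinite (Pt θ)
  have i2 := Fintype.ofFinite (Ln θ)
  have hP : Configuration.HasPoints (Pt θ) (Ln θ) := Configuration.HasLines.hasPoints (by
    rw [← Nat.card_eq_fintype_card, ← Nat.card_eq_fintype_card, card_Pt, card_Ln])
  refine ⟨{ hP, hL with exists_config := ?_ }⟩
  -- config: need three points and three lines
  obtain ⟨φ, hφ, hv⟩ := exists_vanish θ (some (0, 0))
  let z : FormT F := ⟨QF 0, isForm_QF 0⟩
  let w : FormT F := ⟨QF ![1, 0, 0, 0], isForm_QF _⟩
  have hzw : ¬ ∀ X ∈ ell θ (some (0, 0)), z.1 X = w.1 X := by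
    intro h
    have := h _ (e_mem_zero θ 0 (Or.inl rfl))
    simp [z, w, QF, Pi.single_apply] at this
  have hne : (none : O F) ≠ some (0, 0) := by simp
  refine ⟨some (mkR θ none z), none, some (mkR θ (some (0, 0)) z), Sum.inr w,
    Sum.inl (mkS θ (some (0, 0))), Sum.inl (mkS θ (some (1, 0))), ?_, ?_, ?_, ?_, ?_, ?_, ?_, ?_⟩
  · intro h
    exact hne ((inc_RS θ none (some (0, 0)) z).mp h)
  · intro h
    have := (inc_RS θ none (some (1, 0)) z).mp h
    simp at this
  · intro h
    exact h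
  · exact trivial
  · exact trivial
  · intro h
    exact hzw ((inc_RF θ (some (0, 0)) z w).mp h)
  · exact rfl
  · intro h
    have := (inc_RS θ (some (0, 0)) (some (1, 0)) z).mp h
    simp at this

end Pool.Agent.Helper2.Suz
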