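import Mathlib
import Pool.Agent.Helper2.Suz3

set_option autoImplicit false

namespace Pool.Agent.Helper2.Suz

open Matrix

set_option linter.unusedSectionVars false
set_option linter.unusedSimpArgs false

variable {F : Type} [Field F] [CharP F 2] [Finite F] (θ : F →+* F) (hθ : ∀ x, θ (θ x) = x ^ 2)

/-- action on sets of vectors -/
def actSet (g : GL (Fin 4) F) (s : Set (V F)) : Set (V F) := {X | act g⁻¹ X ∈ s}

/-- action on functions -/
def actFun (g : GL (Fin 4) F) (f : V F → F) : V F → F := fun X => f (act g⁻¹ X)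

theorem actSet_one (s : Set (V F)) : actSet 1 s = s := by
  ext X; simp [actSet, act_one]

theorem actFun_one (f : V F → F) : actFun 1 f = f := by
  funext X; simp [actFun, act_one]

theorem actSet_mul (g h : GL (Fin 4) F) (s : Set (V F)) :
    actSet (g * h) s = actSet g (actSet h s) := by
  ext X; simp [actSet, act_mul]

theorem actFun_mul (g h : GL (Fin 4) F) (f : V F → F) :
    actFun (g * h) f = actFun g (actFun h f) := by
  funext X; simp [actFun, act_mul]

theorem actSet_ell {g : GL (Fin 4) F} {o o' : O F} (h : Maps θ g o o') :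
    actSet g (ell θ o) = ell θ o' := by
  ext X
  change act g⁻¹ X ∈ ell θ o ↔ _
  rw [h, act_inv']

theorem actFun_indicator (g : GL (Fin 4) F) (s : Set (V F)) (f : V F → F) :
    actFun g (Set.indicator s f) = Set.indicator (actSet g s) (actFun g f) := by
  classical
  funext X
  by_cases hX : act g⁻¹ X ∈ s
  · have h2 : X ∈ actSet g s := hX
    rw [Set.indicator_of_mem h2]
    exact Set.indicator_of_mem hX f
  · have h2 : X ∉ actSet g s := hX
    rw [Set.indicator_of_notMem h2]
    exact Set.indicator_of_notMem hX f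

theorem isForm_actFun {g : GL (Fin 4) F} (hg : g ∈ Sz θ) {f : V F → F} (hf : IsForm f) :
    IsForm (actFun g f) := isForm_comp θ (inv_mem hg) hf

include hθ in
theorem exists_ell_actSet {g : GL (Fin 4) F} (hg : g ∈ Sz θ) {s : Set (V F)}
    (hs : ∃ o, s = ell θ o) : ∃ o, actSet g s = ell θ o := by
  obtain ⟨o, rfl⟩ := hs
  obtain ⟨o', h⟩ := ell_inv θ hθ hg o
  exact ⟨o', actSet_ell θ h⟩

/-- action on restricted forms -/
def smulR (g : Sz θ) (r : RT θ) : RT θ :=
  ⟨(actSet g.1 r.1.1, actFun g.1 r.1.2), exists_ell_actSet θ hθ g.2 r.2.1, by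
    obtain ⟨f, hf, h⟩ := r.2.2
    exact ⟨actFun g.1 f, isForm_actFun θ g.2 hf, by
      change actFun g.1 r.1.2 = Set.indicator (actSet g.1 r.1.1) (actFun g.1 f)
      rw [h, actFun_indicator]⟩⟩

/-- action on members of the spread -/
def smulS (g : Sz θ) (s : SpT θ) : SpT θ := ⟨actSet g.1 s.1, exists_ell_actSet θ hθ g.2 s.2⟩

/-- action on forms -/
def smulF (g : Sz θ) (f : FormT F) : FormT F := ⟨actFun g.1 f.1, isForm_actFun θ g.2 f.2⟩

/-- action on points -/
@[reducible] def mulActPt : MulAction (Sz θ) (Pt θ) where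
  smul g p := Option.map (smulR θ hθ g) p
  one_smul p := by
    rcases p with _ | r
    · rfl
    · change some (smulR θ hθ 1 r) = some r
      congr 1
      apply Subtype.ext
      apply Prod.ext
      · exact actSet_one _
      · exact actFun_one _
  mul_smul g h p := by
    rcases p with _ | r
    · rfl
    · change some (smulR θ hθ (g * h) r) = some (smulR θ hθ g (smulR θ hθ h r))
      congr 1
      apply Subtype.ext
      apply Prod.ext
      · exact actSet_mul _ _ _
      · exact actFun_mul _ _ _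

/-- the homomorphism into the group of permutations of the points -/
def phi : Sz θ →* Equiv.Perm (Pt θ) :=
  letI := mulActPt θ hθ
  MulAction.toPermHom (Sz θ) (Pt θ)

theorem phi_none (g : Sz θ) : phi θ hθ g none = none := rfl

theorem phi_some (g : Sz θ) (r : RT θ) : phi θ hθ g (some r) = some (smulR θ hθ g r) := rfl

theorem smulR_mkR (g : Sz θ) {o o' : O F} (h : Maps θ g.1 o o') (f : FormT F) :
    smulR θ hθ g (mkR θ o f) = mkR θ o' (smulF θ g f) := by
  apply Subtype.ext
  apply Prod.ext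
  · exact actSet_ell θ h
  · change actFun g.1 (Set.indicator (ell θ o) f.1) = Set.indicator (ell θ o') (actFun g.1 f.1)
    rw [actFun_indicator, actSet_ell θ h]

include hθ in
theorem phi_line (g : Sz θ) (l : Ln θ) : ∃ l' : Ln θ, ∀ p : Pt θ, inc θ p l ↔ inc θ (phi θ hθ g p) l' := by
  rcases l with s | f
  · refine ⟨Sum.inl (smulS θ hθ g s), ?_⟩
    rintro (_ | r)
    · exact Iff.rfl
    · rw [phi_some]
      change r.1.1 = s.1 ↔ actSet g.1 r.1.1 = actSet g.1 s.1
      constructor
      · intro h; rw [h]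
      · intro h
        have h2 := congrArg (actSet (g.1)⁻¹) h
        rw [← actSet_mul, ← actSet_mul, inv_mul_cancel, actSet_one, actSet_one] at h2
        exact h2
  · refine ⟨Sum.inr (smulF θ g f), ?_⟩
    rintro (_ | r)
    · exact Iff.rfl
    · rw [phi_some]
      change (∀ X ∈ r.1.1, r.1.2 X = f.1 X) ↔
        (∀ X, act (g.1)⁻¹ X ∈ r.1.1 → r.1.2 (act (g.1)⁻¹ X) = f.1 (act (g.1)⁻¹ X))
      constructor
      · intro h X hX
        exact h _ hX
      · intro h X hX
        have h2 := h (act g.1 X)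
        rw [act_inv] at h2
        exact h2 hX

theorem sq_inj {x y : F} (h : x ^ 2 = y ^ 2) : x = y := by
  have h2 : (2 : F) = 0 := two_eq_zero
  have h3 : (x - y) ^ 2 = 0 := by linear_combination h + (y ^ 2 - x * y) * h2
  have h4 : x - y = 0 := pow_eq_zero_iff (two_ne_zero) |>.mp h3
  exact sub_eq_zero.mp h4

include hθ in
theorem fix_of_fix (g : Sz θ) (h : ∀ p, phi θ hθ g p = p) (o : O F) (X : V F) (hX : X ∈ ell θ o) :
    act (g.1)⁻¹ X = X := by
  have key : ∀ f : FormT F, f.1 (act (g.1)⁻¹ X) = f.1 X := by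
    intro f
    have h1 := h (some (mkR θ o f))
    rw [phi_some] at h1
    have h2 : smulR θ hθ g (mkR θ o f) = mkR θ o f := Option.some_injective _ h1
    have h3 : actSet g.1 (ell θ o) = ell θ o := congrArg (fun r : RT θ => r.1.1) h2
    have h4 : act (g.1)⁻¹ X ∈ ell θ o := by
      have : X ∈ actSet g.1 (ell θ o) := by rw [h3]; exact hX
      exact this
    have h5 : actFun g.1 (Set.indicator (ell θ o) f.1) = Set.indicator (ell θ o) f.1 :=
      congrArg (fun r : RT θ => r.1.2) h2
    have h6 := congrFun h5 X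
    rw [Set.indicator_of_mem hX] at h6
    rw [← h6]
    exact (Set.indicator_of_mem h4 _).symm
  have k0 := key ⟨QF 0, isForm_QF 0⟩
  simp only [QF, Pi.zero_apply, zero_mul, add_zero] at k0
  funext i
  have k1 := key ⟨QF (Pi.single i 1), isForm_QF _⟩
  simp only [QF] at k1
  apply sq_inj
  fin_cases i <;> simp [Pi.single_apply] at k1 ⊢ <;> linear_combination k1 - k0

theorem phi_injective : Function.Injective (phi θ hθ) := by
  rw [injective_iff_map_eq_one]
  intro g hg
  have h : ∀ p, phi θ hθ g p = p := fun p => by rw [hg]; rfl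
  have h1 : (g.1)⁻¹ = 1 := by
    apply Units.ext
    apply Matrix.ext_of_mulVec_single
    intro i
    have hi : (i = 0 ∨ i = 1) ∨ (i = 2 ∨ i = 3) := by omega
    have h2 : act (g.1)⁻¹ (Pi.single i 1) = Pi.single i 1 := by
      rcases hi with hi | hi
      · exact fix_of_fix θ hθ g h _ _ (e_mem_zero θ i hi)
      · exact fix_of_fix θ hθ g h _ _ (e_mem_none θ i hi)
    rw [act] at h2
    rw [h2, Units.val_one, Matrix.one_mulVec]
  apply Subtype.ext
  exact inv_eq_one.mp h1

/-- the restriction to a member of the spread vanishes -/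
noncomputable def zR (o : O F) : RT θ :=
  mkR θ o ⟨(exists_vanish θ o).choose, (exists_vanish θ o).choose_spec.1⟩

theorem zR_eq_iff (o o' : O F) (f : FormT F) : zR θ o = mkR θ o' f ↔
    o = o' ∧ ∀ X ∈ ell θ o', f.1 X = 0 := by
  constructor
  · intro h
    have h1 : ell θ o = ell θ o' := congrArg (fun r : RT θ => r.1.1) h
    have h2 := ell_injective θ h1
    subst h2
    refine ⟨rfl, fun X hX => ?_⟩
    rw [zR, mkR_eq_iff] at h
    rw [← h X hX]
    exact (exists_vanish θ o).choose_spec.2 X hX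
  · rintro ⟨rfl, h⟩
    rw [zR, mkR_eq_iff]
    intro X hX
    rw [h X hX]
    exact (exists_vanish θ o).choose_spec.2 X hX

theorem zR_injective : Function.Injective (zR θ) := by
  intro o o' h
  exact ((zR_eq_iff θ o o' _).mp h).1

theorem inc_zR_S (o o' : O F) : inc θ (some (zR θ o)) (Sum.inl (mkS θ o')) ↔ o = o' :=
  inc_RS θ o o' _

theorem inc_zR_F (o : O F) (f : FormT F) :
    inc θ (some (zR θ o)) (Sum.inr f) ↔ ∀ X ∈ ell θ o, f.1 X = 0 := by
  rw [zR, inc_RF]
  constructor
  · intro h X hX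
    rw [← h X hX]
    exact (exists_vanish θ o).choose_spec.2 X hX
  · intro h X hX
    rw [h X hX]
    exact (exists_vanish θ o).choose_spec.2 X hX

theorem phi_zR (g : Sz θ) {o o' : O F} (h : Maps θ g.1 o o') :
    phi θ hθ g (some (zR θ o)) = some (zR θ o') := by
  rw [phi_some, zR, smulR_mkR θ hθ g h]
  congr 1
  symm
  rw [zR_eq_iff]
  refine ⟨rfl, fun X hX => ?_⟩
  change (exists_vanish θ o).choose (act (g.1)⁻¹ X) = 0
  apply (exists_vanish θ o).choose_spec.2
  rw [h, act_inv']
  exact hX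

/-- the oval -/
def oval : Set (Pt θ) := Set.range (fun o : O F => (some (zR θ o) : Pt θ))

theorem oval_ncard : (oval θ).ncard = Nat.card F ^ 2 + 1 := by
  have hinj : Function.Injective (fun o : O F => (some (zR θ o) : Pt θ)) :=
    (Option.some_injective _).comp (zR_injective θ)
  rw [oval, ← Set.image_univ, Set.ncard_image_of_injective _ hinj, Set.ncard_univ, card_O]

include hθ in
/-- double transitivity -/
theorem oval_two {a b c d : Pt θ} (ha : a ∈ oval θ) (hb : b ∈ oval θ) (hc : c ∈ oval θ)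
    (hd : d ∈ oval θ) (hab : a ≠ b) (hcd : c ≠ d) : ∃ g : Sz θ, phi θ hθ g a = c ∧ phi θ hθ g b = d := by
  obtain ⟨o1, rfl⟩ := ha
  obtain ⟨o2, rfl⟩ := hb
  obtain ⟨o3, rfl⟩ := hc
  obtain ⟨o4, rfl⟩ := hd
  have h12 : o1 ≠ o2 := fun h => hab (by rw [h])
  have h34 : o3 ≠ o4 := fun h => hcd (by rw [h])
  obtain ⟨g, hg, g1, g2⟩ := trans_two θ hθ h12
  obtain ⟨h, hh, h3, h4⟩ := trans_two θ hθ h34
  refine ⟨⟨h⁻¹ * g, mul_mem (inv_mem hh) hg⟩, ?_, ?_⟩
  · exact phi_zR θ hθ _ (g1.mul θ (h3.inv θ))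
  · exact phi_zR θ hθ _ (g2.mul θ (h4.inv θ))

include hθ in
theorem oval_orbit (p : Pt θ) : p ∈ oval θ ↔ ∃ g : Sz θ, phi θ hθ g (some (zR θ none)) = p := by
  constructor
  · rintro ⟨o, rfl⟩
    obtain ⟨g, hg, h⟩ := trans_one θ hθ o
    exact ⟨⟨g⁻¹, inv_mem hg⟩, phi_zR θ hθ _ (h.inv θ)⟩
  · rintro ⟨g, rfl⟩
    obtain ⟨o', h⟩ := ell_inv θ hθ g.2 none
    exact ⟨o', (phi_zR θ hθ g h).symm⟩

include hθ in
/-- no three points of the oval are collinear -/
theorem oval_three {a b c : Pt θ} (ha : a ∈ oval θ) (hb : b ∈ oval θ) (hc : c ∈ oval θ)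
    (hab : a ≠ b) (hac : a ≠ c) (hbc : b ≠ c) (l : Ln θ) (h1 : inc θ a l) (h2 : inc θ b l)
    (h3 : inc θ c l) : False := by
  obtain ⟨o1, rfl⟩ := ha
  obtain ⟨o2, rfl⟩ := hb
  obtain ⟨o3, rfl⟩ := hc
  have h12 : o1 ≠ o2 := fun h => hab (by rw [h])
  have h13 : o1 ≠ o3 := fun h => hac (by rw [h])
  have h23 : o2 ≠ o3 := fun h => hbc (by rw [h])
  rcases l with s | f
  · obtain ⟨o, rfl⟩ := mkS_surj θ s
    have e1 := (inc_zR_S θ o1 o).mp h1
    have e2 := (inc_zR_S θ o2 o).mp h2
    exact h12 (e1.trans e2.symm)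
  · exact vanish_three θ hθ h12 h13 h23 f.2 ((inc_zR_F θ o1 f).mp h1)
      ((inc_zR_F θ o2 f).mp h2) ((inc_zR_F θ o3 f).mp h3)

include hθ in
/-- a line meeting the oval in exactly one point passes through `none` -/
theorem oval_tangent (l : Ln θ) (h : ∃! p, p ∈ oval θ ∧ inc θ p l) : inc θ none l := by
  rcases l with s | f
  · trivial
  · exfalso
    obtain ⟨p, ⟨⟨o, rfl⟩, h1⟩, h2⟩ := h
    obtain ⟨o', hne, h3⟩ := vanish_other θ hθ f.2 ((inc_zR_F θ o f).mp h1)
    have h4 := h2 (some (zR θ o')) ⟨⟨o', rfl⟩, (inc_zR_F θ o' f).mpr h3⟩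
    exact hne (zR_injective θ (Option.some_injective _ h4))

end Pool.Agent.Helper2.Suz
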